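import Pool.Agent.MP_c434f6_gt.Ell
import Pool.Agent.MP_c434f6_gt.Rhomb

-- part MP_c434f6_gt.Ball
section

/-! Complex ball arithmetic on natural numbers (fixed point, biased centres), and slopes. -/

open Complex
open scoped Real ComplexConjugate

namespace Pool.Agent.MP_c434f6_gt

/-- A disc with centre `((x - cB) + (y - cB) i) / cU` and radius `r / cU`; it is the whole plane
if `r ≥ cG`. -/
structure Bl where
  x : ℕ
  y : ℕ
  r : ℕ

@[irreducible] def cU : ℕ := nat_lit 1267650600228229401496703205376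
@[irreducible] def cB : ℕ := nat_lit 1427247692705959881058285969449495136382746624
@[irreducible] def cG : ℕ := nat_lit 713623846352979940529142984724747568191373312

lemma cU_pos : (0 : ℝ) < cU := by norm_num [cU]

def ab (x : ℕ) : ℕ := (x.sub cB).add (cB.sub x)
def nw (s m : ℕ) : ℕ := ((m.add (s.div m)).div 2).succ
def nb' (u v : ℕ) : ℕ := nw ((u.mul u).add (v.mul v)) (nw ((u.mul u).add (v.mul v))
  (u.add ((v.add (v.sub u)).div 2)).succ)
def tp (r : ℕ) : ℕ := (r.div cG).mul cG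
def cnd {α : Type} (c : Bool) (x y : α) : α := Bool.rec y x c

noncomputable def fN {β : Type} (n : ℕ) (k : ℕ → β) : β :=
  Nat.rec (k 0) (fun j _ => k (Nat.succ j)) n

lemma fN_eq {β : Type} (n : ℕ) (k : ℕ → β) : fN n k = k n := by cases n <;> rfl

lemma div_eq (a b : ℕ) : a.div b = a / b := rfl

lemma ab_eq (x : ℕ) : (ab x : ℝ) = |(x : ℝ) - cB| := by
  simp only [ab, Nat.add_eq, Nat.sub_eq]
  rcases le_total x cB with h | h
  · rw [Nat.sub_eq_zero_of_le h, zero_add, Nat.cast_sub h, abs_sub_comm,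
      abs_of_nonneg (sub_nonneg.2 (by exact_mod_cast h))]
  · rw [Nat.sub_eq_zero_of_le h, add_zero, Nat.cast_sub h,
      abs_of_nonneg (sub_nonneg.2 (by exact_mod_cast h))]

lemma div_gt (a : ℕ) {b : ℕ} (h : 0 < b) : (a : ℝ) / b < (a / b : ℕ) + 1 := by
  rw [div_lt_iff₀ (by exact_mod_cast h)]
  exact_mod_cast (Nat.lt_mul_div_succ a h).trans_eq (mul_comm _ _)

lemma nw_ge (s : ℕ) {m : ℕ} (h : 0 < m) : (s : ℝ) ≤ (nw s m : ℝ) ^ 2 := by
  have a := div_gt s h
  have b : m + s / m + 1 ≤ 2 * nw s m := by simp only [nw, Nat.add_eq, div_eq]; omega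
  have b' : (m : ℝ) + (s / m : ℕ) + 1 ≤ 2 * nw s m := by exact_mod_cast b
  have m0 : (0 : ℝ) < m := by exact_mod_cast h
  have c : (s : ℝ) = m * (s / m) := by field_simp
  have d : (0 : ℝ) ≤ s / m := by positivity
  nlinarith [sq_nonneg (m - (s : ℝ) / m)]

lemma tp_lt {r : ℕ} (h : tp r < cG) : r < cG := by
  by_contra! H
  have := Nat.div_pos H (by norm_num [cG])
  simp only [tp, Nat.mul_eq, div_eq] at h
  nlinarith

lemma trunc (p n : ℕ) :
    |((p : ℝ) - n) / cU - ((p - n) / cU : ℕ)| ≤ ((n - p : ℕ) : ℝ) / cU + 1 := by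
  have := cU_pos
  rcases le_total p n with h | h
  · rw [Nat.sub_eq_zero_of_le h, Nat.cast_sub h, abs_le]
    have : ((p : ℝ) - n) / cU ≤ 0 :=
      div_nonpos_of_nonpos_of_nonneg (sub_nonpos.2 (by exact_mod_cast h)) this.le
    simp only [Nat.zero_div, Nat.cast_zero, sub_zero, sub_div] at *
    constructor <;> linarith
  · rw [Nat.sub_eq_zero_of_le h, ← Nat.cast_sub h, abs_le]
    have a := div_gt (p - n) (b := cU) (by exact_mod_cast this)
    have b := Nat.cast_div_le (α := ℝ) (m := p - n) (n := cU)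
    constructor <;> simp only [Nat.cast_zero, zero_div] <;> linarith

namespace Bl

noncomputable def ctr (a : Bl) : ℂ := ⟨a.x - cB, a.y - cB⟩
def mem (a : Bl) (z : ℂ) : Prop := a.r < cG → ‖z * cU - a.ctr‖ ≤ a.r
def nb (a : Bl) : ℕ := nb' (ab a.x) (ab a.y)
def ub (a : Bl) : ℕ := a.nb.add a.r
def mkb (p₁ n₁ p₂ n₂ r t : ℕ) : Bl :=
  ⟨(p₁.sub n₁).div cU, (p₂.sub n₂).div cU, (((r.add (n₁.sub p₁)).add (n₂.sub p₂)).div cU).add t⟩
def fma (a b c : Bl) : Bl :=
  mkb (((a.x.mul b.x).add (cB.mul (a.y.add b.y))).add (c.x.mul cU))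
    ((a.y.mul b.y).add (cB.mul (a.x.add b.x)))
    ((((a.x.mul b.y).add (a.y.mul b.x)).add (cB.mul (cB.add cB))).add (c.y.mul cU))
    ((cB.mul (a.y.add b.y)).add (cB.mul (a.x.add b.x)))
    ((a.nb.mul b.r).add ((b.nb.add b.r).mul a.r)) (((tp (a.r.add b.r)).add c.r).add 3)
def top : Bl := ⟨cB, cB, cG⟩
def ball (r : ℕ) : Bl := ⟨cB, cB, r⟩
def nat (n : ℕ) : Bl := ⟨cB.add (n.mul cU), cB, 0⟩
def neg (n : ℕ) : Bl := ⟨cB.sub (n.mul cU), cB, tp (n.mul cU)⟩
def im (n : ℕ) : Bl := ⟨cB, cB.add (n.mul cU), 0⟩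
def iv (l h d : ℕ) : Bl :=
  ⟨cB.add (((l.add h).mul cU).div (d.mul 2)), cB, (((h.sub l).mul cU).div (d.mul 2)).add 2⟩
def inv' (m e t : ℕ) : Bl := cnd (e.blt m) ⟨cB.add ((cU.mul cU).div m), cB,
  ((((cU.mul cU).mul e).div (m.mul (m.sub e))).add 2).add t⟩ top
def inv (a : Bl) : Bl := inv' (a.x.sub cB) (a.r.add (ab a.y)) (tp a.r)
def cnj (a : Bl) : Bl := ⟨a.x, (cB.add cB).sub a.y, a.r.add (a.y.sub (cB.add cB))⟩
def exp0 (w : Bl) : Bl := cnd (w.ub.ble cU) (w.fma (w.fma (iv 1 1 2) (nat 1))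
  ⟨cB.add cU, cB, (((w.ub.mul w.ub).mul w.ub).div (cU.mul cU)).succ⟩) top
noncomputable def exp (a : Bl) : Bl :=
  Nat.rec (exp0 (a.fma (iv 1 1 16384) (nat 0))) (fun _ e => e.fma e (nat 0)) 14
def sml (a b : Bl) : Bool := ((a.ub.mul 2).ble cU).and ((b.ub.mul 2).ble cU)
def gt (a : Bl) (t : ℕ) : Bool := (a.r.blt cG).and (((cB.add a.r).add t).blt a.x)
def lt (a : Bl) (t : ℕ) : Bool := (a.r.blt cG).and (((a.x.add a.r).add t).blt cB)
noncomputable def frc (a : Bl) (k : Bl → Bool) : Bool :=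
  fN a.x fun x => fN a.y fun y => fN a.r fun r => k ⟨x, y, r⟩

variable {a b c : Bl} {x y z : ℂ}

lemma frc_eq (a : Bl) (k : Bl → Bool) : a.frc k = k a := by simp only [frc, fN_eq]

lemma ctr_le (a : Bl) : ‖a.ctr‖ ≤ a.nb := by
  refine abs_le_of_sq_le_sq' ?_ (Nat.cast_nonneg _) |>.2
  refine le_trans (le_of_eq ?_) (nw_ge _ (Nat.succ_pos _))
  simp [Complex.sq_norm, normSq_apply, ctr, ab_eq]

lemma mem.le (h : a.mem x) (hr : a.r < cG) : ‖x‖ * cU ≤ a.ub := by
  have := norm_add_le (x * cU - a.ctr) a.ctr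
  simp only [sub_add_cancel, norm_mul, Complex.norm_natCast] at this
  simp only [ub, Nat.add_eq, Nat.cast_add]
  linarith [h hr, a.ctr_le]

lemma mem.le' (h : a.mem x) {n : ℕ} (hn : a.ub ≤ n) (hr : n < cG) : ‖x‖ * cU ≤ n :=
  (h.le (by simp only [ub, Nat.add_eq] at hn; omega)).trans (by exact_mod_cast hn)

lemma mem.cg (h : a.mem x) (e : x = y) : a.mem y := e ▸ h

lemma mem_top (x : ℂ) : top.mem x := fun h => absurd h (lt_irrefl _)

lemma mem_ball {r : ℕ} (h : r < cG → ‖x‖ * cU ≤ r) : (ball r).mem x := fun hr => by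
  simpa [ctr, ball, mk_eq_add_mul_I] using h hr

lemma mem_of {x : ℝ} (h : a.y = cB) (h1 : a.r < cG → |x * cU - (a.x - cB)| ≤ a.r) : a.mem x :=
  fun hr => by
    rw [show x * cU - a.ctr = (x * cU - (a.x - cB) : ℝ) from Complex.ext (by simp [ctr])
      (by simp [ctr, h]), norm_real]
    exact h1 hr

lemma mem_nat (n : ℕ) : (nat n).mem n := mem_of (x := n) rfl fun _ => by simp [nat]

lemma mem_neg (n : ℕ) : (neg n).mem (-n) := by
  refine (by simp : ((-n : ℝ) : ℂ) = -n) ▸ mem_of (x := -n) rfl fun h => ?_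
  have : n * cU ≤ cB := (tp_lt h).le.trans (by norm_num [cG, cB])
  simp [neg, Nat.cast_sub this]

lemma mem_im (n : ℕ) : (im n).mem (n * I) := fun _ => by
  rw [show n * I * cU - (im n).ctr = 0 from Complex.ext (by simp [ctr, im]) (by simp [ctr, im])]
  simp

lemma mem_iv {l h d : ℕ} {x : ℝ} (hd : 0 < d) (h1 : l ≤ x * d) (h2 : x * d ≤ h) :
    (iv l h d).mem x := mem_of rfl fun _ => by
  have d0 : (0 : ℝ) < d := by exact_mod_cast hd
  have lh : l ≤ h := by exact_mod_cast h1.trans h2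
  have a := div_gt ((l + h) * cU) (b := d * 2) (by omega)
  have b := div_gt ((h - l) * cU) (b := d * 2) (by omega)
  have c := Nat.cast_div_le (α := ℝ) (m := (l + h) * cU) (n := d * 2)
  simp only [iv, Nat.add_eq, Nat.mul_eq, Nat.sub_eq, div_eq, Nat.cast_add, Nat.cast_mul,
    Nat.cast_sub lh, Nat.cast_ofNat] at *
  have e1 : x * cU ≤ (l + h) * cU / (d * 2) + (h - l) * cU / (d * 2) := by
    rw [← add_div, le_div_iff₀ (by positivity)]; nlinarith [cU_pos]
  have e2 : (l + h) * cU / (d * 2) - (h - l) * cU / (d * 2) ≤ x * cU := by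
    rw [← sub_div, div_le_iff₀ (by positivity)]; nlinarith [cU_pos]
  rw [abs_le]
  constructor <;> linarith

lemma fma_lt (h : (a.fma b c).r < cG) : a.r < cG ∧ b.r < cG ∧ c.r < cG := by
  simp only [Bl.fma, mkb, Nat.add_eq] at h
  replace h := (Nat.le_add_left _ _).trans_lt h
  have := tp_lt (show tp (a.r + b.r) < cG by omega)
  omega

lemma mem.fma (ha : a.mem x) (hb : b.mem y) (hc : c.mem z) : (a.fma b c).mem (x * y + z) := by
  intro h
  have h1 := ha (fma_lt h).1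
  have h2 := hb (fma_lt h).2.1
  have h3 := hc (fma_lt h).2.2
  simp only [Bl.fma, mkb, Nat.add_eq, Nat.mul_eq, Nat.sub_eq, div_eq]
  have u := cU_pos
  have u' : (cU : ℂ) ≠ 0 := by exact_mod_cast u.ne'
  generalize hp₁ : a.x * b.x + cB * (a.y + b.y) + c.x * cU = p₁
  generalize hn₁ : a.y * b.y + cB * (a.x + b.x) = n₁
  generalize hp₂ : a.x * b.y + a.y * b.x + cB * (cB + cB) + c.y * cU = p₂
  generalize hn₂ : cB * (a.y + b.y) + cB * (a.x + b.x) = n₂
  have t₁ := trunc p₁ n₁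
  have t₂ := trunc p₂ n₂
  have t₃ := div_gt (a.nb * b.r + (b.nb + b.r) * a.r + (n₁ - p₁) + (n₂ - p₂)) (b := cU)
    (by exact_mod_cast u)
  generalize (p₁ - n₁) / cU = X at *
  generalize (p₂ - n₂) / cU = Y at *
  have e : ∀ r, (x * y + z) * cU - ctr ⟨X, Y, r⟩ = (a.ctr * (y * cU - b.ctr) + (b.ctr +
      (y * cU - b.ctr)) * (x * cU - a.ctr)) / cU + (z * cU - c.ctr) +
      (((p₁ - n₁ : ℝ) / cU - X : ℝ) + ((p₂ - n₂ : ℝ) / cU - Y : ℝ) * I) := fun r => by
    subst hp₁ hn₁ hp₂ hn₂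
    simp only [ctr, mk_eq_add_mul_I]
    push_cast
    field_simp
    linear_combination ((a.y : ℂ) - cB) * (b.y - cB) * I_mul_I
  rw [e]
  refine norm_add₃_le.trans ((add_le_add_three (?_ : _ ≤ (a.nb * b.r + (b.nb + b.r) * a.r) /
    (cU : ℝ)) h3 ((norm_add_le _ _).trans (add_le_add ((norm_real _).trans_le t₁)
      (((norm_mul _ _).trans (by rw [norm_I, mul_one, norm_real]; rfl)).trans_le t₂)))).trans ?_)
  · rw [norm_div, Complex.norm_natCast]
    gcongr
    refine (norm_add_le _ _).trans ?_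
    rw [norm_mul, norm_mul]
    gcongr
    exacts [a.ctr_le, (norm_add_le _ _).trans (add_le_add b.ctr_le h2)]
  · push_cast at t₃ ⊢
    simp only [add_div] at t₃ ⊢
    linarith [Nat.cast_nonneg (α := ℝ) (tp (a.r + b.r))]

lemma mem.inv' (ha : a.mem x) : a.inv.r < cG → x ≠ 0 ∧ ‖x⁻¹ * cU - a.inv.ctr‖ ≤ a.inv.r := by
  simp only [Bl.inv, Bl.inv']
  cases H : (a.r.add (ab a.y)).blt (a.x.sub cB)
  · exact fun h => absurd h (lt_irrefl _)
  intro h
  simp only [cnd, Nat.add_eq, Nat.mul_eq, Nat.sub_eq, div_eq, Nat.blt_eq] at h H ⊢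
  have h1 := ha (tp_lt ((Nat.le_add_left _ _).trans_lt h))
  have hx : cB ≤ a.x := by omega
  have k : ‖x * cU - (a.x - cB : ℕ)‖ ≤ (a.r + ab a.y : ℕ) := by
    rw [show x * cU - (a.x - cB : ℕ) = x * cU - a.ctr + (a.y - cB : ℝ) * I by
      simp [ctr, mk_eq_add_mul_I, Nat.cast_sub hx]; ring]
    refine (norm_add_le _ _).trans ?_
    rw [norm_mul, norm_I, norm_real, Nat.cast_add, ab_eq, mul_one]
    exact add_le_add h1 le_rfl
  generalize a.x - cB = m at *
  generalize a.r + ab a.y = e at *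
  have em : (e : ℝ) < m := by exact_mod_cast H
  have m0 : (0 : ℝ) < m := (Nat.cast_nonneg _).trans_lt em
  have m' : (m : ℂ) ≠ 0 := by exact_mod_cast m0.ne'
  have l : (m : ℝ) - e ≤ ‖x * cU‖ := by
    have := norm_sub_norm_le (m : ℂ) (x * cU)
    rw [Complex.norm_natCast, norm_sub_rev] at this
    linarith
  have x0 : x * cU ≠ 0 := norm_pos_iff.1 (by linarith)
  have t₁ := div_gt (cU * cU) (b := m) (by omega)
  have t₂ := div_gt (cU * cU * e) (b := m * (m - e)) (Nat.mul_pos (by omega) (by omega))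
  have t₃ := Nat.cast_div_le (α := ℝ) (m := cU * cU) (n := m)
  generalize cU * cU / m = X at *
  have e' : ∀ r, x⁻¹ * cU - ctr ⟨cB + X, cB, r⟩ = -(cU * cU * (x * cU - m)) / (m * (x * cU)) +
      ((cU * cU : ℝ) / m - X : ℝ) := fun r => by
    have := left_ne_zero_of_mul x0
    have := right_ne_zero_of_mul x0
    simp only [ctr, mk_eq_add_mul_I]
    push_cast
    field_simp
    ring
  rw [e']
  refine ⟨left_ne_zero_of_mul x0, (norm_add_le _ _).trans ((add_le_add
    (?_ : _ ≤ (cU * cU * e : ℝ) / (m * (m - e))) (?_ : _ ≤ (1 : ℝ))).trans ?_)⟩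
  · rw [norm_div, norm_neg, norm_mul, norm_mul, norm_mul, Complex.norm_natCast, Complex.norm_natCast]
    have : 0 < (m : ℝ) - e := by linarith
    gcongr
  · rw [norm_real, Real.norm_eq_abs, abs_le]
    push_cast at t₁ t₃
    constructor <;> linarith
  · push_cast [Nat.cast_sub H.le] at t₂ ⊢
    linarith [Nat.cast_nonneg (α := ℝ) (tp a.r)]

lemma mem.inv (ha : a.mem x) : a.inv.mem x⁻¹ := fun h => (ha.inv' h).2

lemma mem.cnj (ha : a.mem x) : a.cnj.mem (conj x) := fun h => by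
  simp only [Bl.cnj, Nat.add_eq, Nat.sub_eq] at h ⊢
  have h1 := ha (by omega)
  have e : ∀ r, conj x * cU - ctr ⟨a.x, cB + cB - a.y, r⟩ =
      conj (x * cU - a.ctr) - (a.y - (cB + cB) : ℕ) * I := fun r => by
    rcases le_total a.y (cB + cB) with H | H <;>
      simp [ctr, Complex.ext_iff, Nat.cast_sub H, Nat.sub_eq_zero_of_le H] <;> ring
  rw [e]
  refine (norm_sub_le _ _).trans ?_
  rw [norm_conj, norm_mul, norm_I, Complex.norm_natCast, mul_one, Nat.cast_add]
  exact add_le_add h1 le_rfl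

lemma mem.exp0 (ha : a.mem x) : a.exp0.mem (Complex.exp x) := by
  simp only [Bl.exp0]
  cases H : a.ub.ble cU
  · exact mem_top _
  have u := cU_pos
  have h1 := ha.le' (Nat.le_of_ble_eq_true H) (by norm_num [cU, cG])
  have h2 := ha.le' le_rfl ((Nat.le_of_ble_eq_true H).trans_lt (by norm_num [cU, cG]))
  have h3 := Complex.exp_bound (x := x) (by nlinarith) (n := 3) (by norm_num)
  have := ha.fma (ha.fma (mem_iv (l := 1) (h := 1) (d := 2) (x := 1 / 2) (by norm_num)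
    (by norm_num) (by norm_num)) (mem_nat 1)) (z := Complex.exp x - x - x ^ 2 / 2)
    (c := ⟨cB.add cU, cB, (((a.ub.mul a.ub).mul a.ub).div (cU.mul cU)).succ⟩) fun _ => ?_
  · rwa [show Complex.exp x = x * (x * (1 / 2 : ℝ) + (1 : ℕ)) + (Complex.exp x - x - x ^ 2 / 2) by
      push_cast; ring]
  have e : ∀ r, (Complex.exp x - x - x ^ 2 / 2) * cU - ctr ⟨cB.add cU, cB, r⟩ =
      (Complex.exp x - ∑ m ∈ Finset.range 3, x ^ m / m.factorial) * cU := fun r => by
    simp [ctr, mk_eq_add_mul_I, Finset.sum_range_succ]; ring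
  have t := div_gt (a.ub * a.ub * a.ub) (b := cU * cU) (by norm_num [cU])
  rw [e, norm_mul, Complex.norm_natCast]
  simp only [Nat.mul_eq, div_eq, Nat.succ_eq_add_one]
  push_cast at t ⊢
  refine le_trans ?_ t.le
  rw [le_div_iff₀ (by positivity)]
  have h4 : (‖x‖ * cU) ^ 3 ≤ a.ub ^ 3 := by gcongr
  norm_num [Nat.factorial] at h3
  have h5 : 0 ≤ ‖x‖ ^ 3 := by positivity
  have h6 : (0 : ℝ) < cU ^ 3 := by positivity
  nlinarith

lemma mem.exp (ha : a.mem x) : a.exp.mem (Complex.exp x) := by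
  have k (n : ℕ) : (Nat.rec (Bl.exp0 (a.fma (iv 1 1 16384) (nat 0))) (fun _ e => e.fma e (nat 0))
      n : Bl).mem (Complex.exp (2 ^ n * (x / 16384))) := by
    induction n with
    | zero =>
      exact ((ha.fma (mem_iv (l := 1) (h := 1) (d := 16384) (x := 1 / 16384) (by norm_num)
        (by norm_num) (by norm_num)) (mem_nat 0)).cg (by push_cast; ring)).exp0
    | succ n ih =>
      exact (ih.fma ih (mem_nat 0)).cg (by
        rw [← exp_add, Nat.cast_zero, add_zero]; congr 1; ring)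
  exact (k 14).cg (by congr 1; ring)

lemma mem.gt (ha : a.mem x) {t : ℕ} (h : a.gt t = true) : t < x.re * cU := by
  simp only [Bl.gt, Bool.and_eq_true, Nat.blt_eq, Nat.add_eq] at h
  have := (abs_le.1 ((abs_re_le_norm _).trans (ha h.1))).1
  have h2 : (cB : ℝ) + a.r + t < a.x := by exact_mod_cast h.2
  simp [ctr] at this
  linarith

lemma mem.lt (ha : a.mem x) {t : ℕ} (h : a.lt t = true) : x.re * cU < -t := by
  simp only [Bl.lt, Bool.and_eq_true, Nat.blt_eq, Nat.add_eq] at h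
  have := (abs_le.1 ((abs_re_le_norm _).trans (ha h.1))).2
  have h2 : (a.x : ℝ) + a.r + t < cB := by exact_mod_cast h.2
  simp [ctr] at this
  linarith

lemma mem.sml (ha : a.mem x) (hb : b.mem y) (h : a.sml b = true) : ‖x‖ ≤ 1 / 2 ∧ ‖y‖ ≤ 1 / 2 := by
  simp only [Bl.sml, Bool.and_eq_true, Nat.ble_eq, Nat.mul_eq] at h
  have k {a : Bl} {x : ℂ} (ha : a.mem x) (h : a.ub * 2 ≤ cU) : ‖x‖ ≤ 1 / 2 := by
    have g : cU < cG := by norm_num [cU, cG]
    have := ha.le' le_rfl (by omega)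
    have h : (a.ub : ℝ) * 2 ≤ cU := by exact_mod_cast h
    nlinarith [cU_pos]
  exact ⟨k ha h.1, k hb h.2⟩

lemma convex_mem (a : Bl) : Convex ℝ {z | a.mem z} := by
  by_cases h : a.r < cG
  · refine (Set.ext fun z => ?_ : Metric.closedBall (a.ctr / cU) (a.r / cU) = {z | a.mem z}) ▸
      convex_closedBall _ _
    have := cU_pos
    have u' : (cU : ℂ) ≠ 0 := by exact_mod_cast this.ne'
    rw [mem_closedBall_iff_norm, show z - a.ctr / cU = (z * cU - a.ctr) / cU by field_simp,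
      norm_div, Complex.norm_natCast, div_le_div_iff_of_pos_right this]
    simp [mem, h]
  · simpa [mem, h] using convex_univ

/-- The difference quotient of `exp`. -/
lemma mem.exp' (ha : a.mem x) (hb : a.mem y) :
    ∃ s, a.exp.mem s ∧ Complex.exp x - Complex.exp y = (x - y) * s := by
  rcases eq_or_ne x y with rfl | h
  · exact ⟨_, ha.exp, by simp⟩
  have h' := sub_ne_zero.2 h
  refine ⟨(Complex.exp x - Complex.exp y) / (x - y), fun hr => ?_, by field_simp⟩
  have := (convex_mem a).norm_image_sub_le_of_norm_hasDerivWithin_le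
    (f := fun z => Complex.exp z * cU - a.exp.ctr * z) (fun z _ => (((hasDerivAt_exp z).mul_const
      _).sub ((hasDerivAt_id' z).const_mul _)).hasDerivWithinAt)
    (fun z hz => by simpa using mem.exp hz hr) hb ha
  rw [← div_le_iff₀ (norm_pos_iff.2 h'), ← norm_div] at this
  refine le_of_eq_of_le (congrArg _ ?_) this
  field_simp
  ring

def tl (a b : Bl) : Bl := cnd (a.sml b) (ball (cU.mul 16)) top

end Bl

lemma norm_fd_le {Q u : ℂ} (hQ : ‖Q‖ ≤ 1 / 2) (hu : ‖u‖ ≤ 1 / 2) (n : ℕ) :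
    ‖Q ^ n‖ ≤ (1 / 2) ^ n ∧ ‖Q ^ n * u‖ ≤ 1 / 2 ∧ ‖((1 - Q ^ n * u) ^ 2)⁻¹‖ ≤ 4 := by
  have a := (norm_pm (hQ.trans (by norm_num)) n u).trans hu
  refine ⟨by rw [norm_pow]; gcongr, a, ?_⟩
  rw [norm_inv, norm_pow]
  refine (inv_anti₀ (a := _) (b := (1 / 2) ^ 2) (by norm_num) ?_).trans (by norm_num)
  gcongr
  linarith [le_norm_one_sub (Q ^ n * u)]

lemma pow_sub_le {x y : ℂ} {ρ σ : ℝ} (hx : ‖x‖ ≤ ρ) (hy : ‖y‖ ≤ ρ) (h : ρ < σ) (n : ℕ) :
    ‖x ^ n - y ^ n‖ ≤ σ ^ n / (σ - ρ) * ‖x - y‖ := by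
  have r0 := (norm_nonneg _).trans hx
  have := sub_pos.2 h
  induction n with
  | zero => simp; positivity
  | succ n ih =>
    rw [show x ^ (n + 1) - y ^ (n + 1) = x * (x ^ n - y ^ n) + y ^ n * (x - y) by ring]
    refine (norm_add_le _ _).trans ?_
    rw [norm_mul, norm_mul, norm_pow]
    refine (add_le_add (mul_le_mul hx ih (norm_nonneg _) r0) (mul_le_mul_of_nonneg_right
      (pow_le_pow_left₀ (norm_nonneg _) (hy.trans h.le) n) (norm_nonneg _))).trans_eq ?_
    field_simp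
    ring

lemma fd_le {Q u : ℂ} (hQ : ‖Q‖ ≤ 1 / 2) (hu : ‖u‖ ≤ 1 / 2) : ‖fd Q u‖ ≤ 16 := by
  refine (tsum_of_norm_bounded (hasSum_geometric_two.mul_left 8) fun n => ?_).trans (by norm_num)
  obtain ⟨a, -, b⟩ := norm_fd_le hQ hu n
  rw [div_eq_mul_inv, norm_mul, norm_mul, Complex.norm_two]
  refine (mul_le_mul (mul_le_mul_of_nonneg_left a zero_le_two) b (norm_nonneg _)
    (by positivity)).trans_eq (by ring)

lemma fd_lip {Q u Q' u' : ℂ} (hQ : ‖Q‖ ≤ 1 / 2) (hu : ‖u‖ ≤ 1 / 2) (hQ' : ‖Q'‖ ≤ 1 / 2)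
    (hu' : ‖u'‖ ≤ 1 / 2) : ‖fd Q u - fd Q' u'‖ ≤ 2000 * (‖Q - Q'‖ + ‖u - u'‖) := by
  have s {Q : ℂ} (hQ : ‖Q‖ ≤ 1 / 2) (u) := sm_of (hQ.trans_lt (by norm_num)) u fun n => norm_fd
  rw [fd, fd, ← (s hQ u).tsum_sub (s hQ' u')]
  refine (tsum_of_norm_bounded ((hasSum_geometric_of_lt_one (r := 3 / 4) (by norm_num)
    (by norm_num)).mul_right (500 * (‖Q - Q'‖ + ‖u - u'‖))) fun n => ?_).trans_eq (by ring)
  obtain ⟨a, b, c⟩ := norm_fd_le hQ hu n
  obtain ⟨a', b', c'⟩ := norm_fd_le hQ' hu' n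
  have p := pow_sub_le hQ hQ' (σ := 3 / 4) (by norm_num) n
  rw [show (3 / 4 : ℝ) - 1 / 2 = 4⁻¹ by norm_num, div_inv_eq_mul] at p
  have n1 : 1 - Q ^ n * u ≠ 0 := norm_pos_iff.1 (by linarith [le_norm_one_sub (Q ^ n * u)])
  have n2 : 1 - Q' ^ n * u' ≠ 0 := norm_pos_iff.1 (by linarith [le_norm_one_sub (Q' ^ n * u')])
  have q : (1 / 2 : ℝ) ^ n ≤ (3 / 4) ^ n := pow_le_pow_left₀ (by norm_num) (by norm_num) n
  have q1 : (3 / 4 : ℝ) ^ n ≤ 1 := pow_le_one₀ (by norm_num) (by norm_num)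
  have d : ‖Q ^ n * u - Q' ^ n * u'‖ ≤ 2 * (‖Q - Q'‖ + ‖u - u'‖) := by
    rw [show Q ^ n * u - Q' ^ n * u' = (Q ^ n - Q' ^ n) * u + Q' ^ n * (u - u') by ring]
    refine (norm_add_le _ _).trans ?_
    rw [norm_mul, norm_mul]
    nlinarith [mul_le_mul p hu (norm_nonneg _) (by positivity), norm_nonneg (Q - Q'),
      norm_nonneg (u - u'), mul_le_mul_of_nonneg_right ((a'.trans q).trans q1) (norm_nonneg (u - u'))]
  have e : ‖2 - Q ^ n * u - Q' ^ n * u'‖ ≤ 3 := by
    linarith [norm_sub_le (2 - Q ^ n * u) (Q' ^ n * u'), norm_sub_le 2 (Q ^ n * u), Complex.norm_two]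
  rw [show 2 * Q ^ n / (1 - Q ^ n * u) ^ 2 - 2 * Q' ^ n / (1 - Q' ^ n * u') ^ 2 =
    2 * ((Q ^ n - Q' ^ n) * ((1 - Q ^ n * u) ^ 2)⁻¹ + Q' ^ n * ((Q ^ n * u - Q' ^ n * u') *
      (2 - Q ^ n * u - Q' ^ n * u') * (((1 - Q ^ n * u) ^ 2)⁻¹ * ((1 - Q' ^ n * u') ^ 2)⁻¹))) by
    field_simp; ring, norm_mul, Complex.norm_two]
  refine (mul_le_mul_of_nonneg_left (norm_add_le_of_le (norm_mul_le_of_le p c) (norm_mul_le_of_le
    (a'.trans q) (norm_mul_le_of_le (norm_mul_le_of_le d e) (norm_mul_le_of_le c c'))))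
    zero_le_two).trans ?_
  nlinarith [mul_nonneg (pow_nonneg (show (0 : ℝ) ≤ 3 / 4 by norm_num) n) (norm_nonneg (Q - Q')),
    mul_nonneg (pow_nonneg (show (0 : ℝ) ≤ 3 / 4 by norm_num) n) (norm_nonneg (u - u'))]

lemma Bl.mem.tl {a b : Bl} {x y : ℂ} (ha : a.mem x) (hb : b.mem y) : (a.tl b).mem (fd x y) := by
  simp only [Bl.tl]
  cases H : a.sml b
  · exact Bl.mem_top _
  refine Bl.mem_ball fun _ => ?_
  have := fd_le (ha.sml hb H).1 (ha.sml hb H).2
  simp only [Nat.mul_eq, Nat.cast_mul, Nat.cast_ofNat]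
  nlinarith [cU_pos]

/-- An arithmetic of enclosures. -/
structure Ar (β : Type) where
  fma : β → β → β → β
  inv : β → β
  exp : β → β
  cnj : β → β
  tl : β → β → β
  cst : Bl → β
  frc : β → (β → Bool) → Bool

/-- Soundness, for enclosures of pairs of numbers. -/
structure Snd {β : Type} (A : Ar β) (m : β → (Bool → ℂ) → Prop) : Prop where
  fma : ∀ {a b c x y z}, m a x → m b y → m c z → m (A.fma a b c) fun i => x i * y i + z i
  inv : ∀ {a x}, m a x → m (A.inv a) fun i => (x i)⁻¹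
  exp : ∀ {a x}, m a x → m (A.exp a) fun i => exp (x i)
  cnj : ∀ {a x}, m a x → m (A.cnj a) fun i => conj (x i)
  tl : ∀ {a b x y}, m a x → m b y → m (A.tl a b) fun i => fd (x i) (y i)
  cst : ∀ {a x}, a.mem x → m (A.cst a) fun _ => x
  frc : ∀ a k, A.frc a k = k a

noncomputable def A1 : Ar Bl := ⟨Bl.fma, Bl.inv, Bl.exp, Bl.cnj, Bl.tl, fun a => a, Bl.frc⟩

def m1 (a : Bl) (x : Bool → ℂ) : Prop := ∀ i, a.mem (x i)

lemma snd1 : Snd A1 m1 :=
  ⟨fun a b c i => (a i).fma (b i) (c i), fun a i => (a i).inv, fun a i => (a i).exp,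
    fun a i => (a i).cnj, fun a b i => (a i).tl (b i), fun a _ => a, Bl.frc_eq⟩

/-- Values and slopes. -/
noncomputable def A2 : Ar (Bl × Bl) where
  fma a b c := (a.1.fma b.1 c.1, a.2.fma b.1 (a.1.fma b.2 c.2))
  inv a := (a.1.inv, (a.2.fma a.1.inv (.nat 0)).fma (a.1.inv.fma (.neg 1) (.nat 0)) (.nat 0))
  exp a := (a.1.exp, a.2.fma a.1.exp (.nat 0))
  cnj a := (a.1.cnj, a.2.cnj)
  tl a b := (a.1.tl b.1, cnd (a.1.sml b.1) (.ball ((a.2.ub.add b.2.ub).mul 2000)) .top)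
  cst a := (a, .nat 0)
  frc a k := a.1.frc fun u => a.2.frc fun v => k (u, v)

def m2 (h : ℝ) (a : Bl × Bl) (x : Bool → ℂ) : Prop :=
  m1 a.1 x ∧ ∃ s, a.2.mem s ∧ x true - x false = h * s

lemma snd2 {h : ℝ} (h0 : h ≠ 0) : Snd A2 (m2 h) where
  fma := fun {_ _ _ x y _} ⟨a, _, a1, a2⟩ ⟨b, _, b1, b2⟩ ⟨c, _, c1, c2⟩ => ⟨snd1.fma a b c, _,
    a1.fma (b true) ((a false).fma b1 c1), by
      linear_combination y true * a2 + x false * b2 + c2⟩
  inv := fun {b x} ⟨a, _, a1, a2⟩ => ⟨snd1.inv a, by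
    by_cases H : b.1.inv.r < cG
    · refine ⟨_, (a1.fma (a true).inv (Bl.mem_nat 0)).fma
        ((a false).inv.fma (Bl.mem_neg 1) (Bl.mem_nat 0)) (Bl.mem_nat 0), ?_⟩
      have := ((a true).inv' H).1
      have := ((a false).inv' H).1
      push_cast
      field_simp
      linear_combination -a2
    · have : (h : ℂ) ≠ 0 := by simpa using h0
      exact ⟨((x true)⁻¹ - (x false)⁻¹) / h, fun e => absurd (Bl.fma_lt (Bl.fma_lt e).1).2.1 H,
        by field_simp⟩⟩
  exp := fun ⟨a, _, a1, a2⟩ => by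
    obtain ⟨s, s1, s2⟩ := (a true).exp' (a false)
    exact ⟨snd1.exp a, _, a1.fma s1 (Bl.mem_nat 0), by rw [s2, a2]; push_cast; ring⟩
  cnj := fun ⟨a, _, a1, a2⟩ => ⟨snd1.cnj a, _, a1.cnj, by
    rw [← map_sub, a2, map_mul, conj_ofReal]⟩
  tl := fun {a b x y} ⟨a0, s, a1, a2⟩ ⟨b0, t, b1, b2⟩ => ⟨snd1.tl a0 b0,
    (fd (x true) (y true) - fd (x false) (y false)) / h, by
      simp only [A2]
      cases H : a.1.sml b.1
      · exact Bl.mem_top _
      refine Bl.mem_ball fun hr => ?_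
      have := fd_lip ((a0 true).sml (b0 true) H).1 ((a0 true).sml (b0 true) H).2
        ((a0 false).sml (b0 false) H).1 ((a0 false).sml (b0 false) H).2
      simp only [Nat.mul_eq, Nat.add_eq] at hr ⊢
      have c1 := a1.le' le_rfl (by omega)
      have c2 := b1.le' le_rfl (by omega)
      have : 0 < ‖(h : ℂ)‖ := by simpa using h0
      rw [a2, b2, norm_mul, norm_mul] at *
      rw [norm_div, div_mul_eq_mul_div, div_le_iff₀ this]
      push_cast
      nlinarith [cU_pos], by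
      have : (h : ℂ) ≠ 0 := by simpa using h0
      field_simp⟩
  cst := fun a => ⟨snd1.cst a, _, Bl.mem_nat 0, by simp⟩
  frc := fun a k => by simp only [A2, Bl.frc_eq]

end Pool.Agent.MP_c434f6_gt

end

-- part MP_c434f6_gt.Ser
section

/-! The power series whose coefficients give the period condition, and their evaluation. -/

open Complex Finset
open scoped Real ComplexConjugate

namespace Pool.Agent.MP_c434f6_gt

/-- The coefficients of `exp (∑ c k u ^ k / k)`. -/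
noncomputable def aa (c : ℕ → ℂ) : ℕ → ℂ
  | 0 => 1
  | j + 1 => (∑ k : Fin (j + 1), c (k + 1) * aa c (j - k)) * ((j + 1 : ℕ) : ℂ)⁻¹
decreasing_by omega

lemma aa_succ (c : ℕ → ℂ) (j : ℕ) :
    aa c (j + 1) = (∑ k ∈ range (j + 1), c (k + 1) * aa c (j - k)) * ((j + 1 : ℕ) : ℂ)⁻¹ := by
  rw [aa, sum_range]

lemma aa_rec (c : ℕ → ℂ) (j : ℕ) :
    (j + 1 : ℕ) * aa c (j + 1) = ∑ k ∈ range (j + 1), c (k + 1) * aa c (j - k) := by
  rw [aa_succ, mul_comm, inv_mul_cancel_right₀ (Nat.cast_ne_zero.2 j.succ_ne_zero)]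

noncomputable def cc (l α : ℂ) (k : ℕ) : ℂ :=
  (k * (2 * I * α) + (2 - 2 * (-exp (I * α)) ^ k)) * (1 - (-exp (-l)) ^ k)⁻¹

noncomputable def ph (l α : ℂ) (j : ℕ) : ℂ :=
  (-exp (-l)) ^ j * aa (cc l α) j * conj (aa (cc l α) j)

/-- The horizontal period. -/
noncomputable def Phi (l α : ℂ) : ℂ := ∑' j, ph l α j

/-- The value of `Lp` at the point with parameter `α`, up to a positive factor. -/
noncomputable def Vh (l α : ℂ) : ℂ :=
  fd (-exp (-(π * (π * l⁻¹)))) (-exp (-(α * (π * l⁻¹)))) - exp (-((π - 2 * α) * (π * l⁻¹))) *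
    fd (-exp (-(π * (π * l⁻¹)))) (exp (-((π - α) * (π * l⁻¹))))

lemma conv_le {c x : ℕ → ℂ} {R S K : ℝ} (hR : 0 < R) (hK : 0 ≤ K) {j : ℕ}
    (hc : ∑ k ∈ range (j + 1), ‖c (k + 1)‖ / R ^ (k + 1) ≤ S) (h : ∀ i ≤ j, ‖x i‖ ≤ K * R ^ i) :
    ‖∑ k ∈ range (j + 1), c (k + 1) * x (j - k)‖ ≤ S * K * R ^ (j + 1) := by
  refine (norm_sum_le_of_le _ (n := fun k => ‖c (k + 1)‖ / R ^ (k + 1) * (K * R ^ (j + 1)))
    fun k hk => ?_).trans ?_
  · obtain ⟨i, rfl⟩ := Nat.exists_eq_add_of_le (Nat.lt_succ_iff.1 (mem_range.1 hk))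
    refine (norm_mul_le_of_le le_rfl (h _ (Nat.sub_le _ _))).trans_eq ?_
    rw [Nat.add_sub_cancel_left]
    field_simp
    ring
  · rw [← sum_mul, mul_assoc]
    gcongr

lemma rec_bound {c x e : ℕ → ℂ} {R S E K : ℝ} {N : ℕ} (hR : 0 < R) (hK : 0 ≤ K)
    (hc : ∀ n, ∑ k ∈ range n, ‖c (k + 1)‖ / R ^ (k + 1) ≤ S)
    (hx : ∀ j : ℕ, (j + 1 : ℕ) * x (j + 1) = ∑ k ∈ range (j + 1), c (k + 1) * x (j - k) + e j)
    (he : ∀ j, ‖e j‖ ≤ E * R ^ (j + 1)) (h0 : ∀ j ≤ N, ‖x j‖ ≤ K * R ^ j)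
    (hN : S * K + E ≤ (N + 1) * K) (j : ℕ) : ‖x j‖ ≤ K * R ^ j := by
  induction j using Nat.strong_induction_on with
  | _ j ih =>
    rcases le_or_gt j N with h | h
    · exact h0 j h
    obtain ⟨j, rfl⟩ := Nat.exists_eq_succ_of_ne_zero (by omega : j ≠ 0)
    have a := norm_add_le_of_le (conv_le hR hK (hc (j + 1)) fun i hi => ih i (by omega)) (he j)
    rw [← hx, norm_mul, Complex.norm_natCast, ← add_mul] at a
    have b : (N + 1 : ℝ) ≤ (j + 1 : ℕ) := by exact_mod_cast h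
    refine le_of_mul_le_mul_left (a.trans ?_) (Nat.cast_pos.2 j.succ_pos)
    rw [← mul_assoc]
    gcongr
    exact hN.trans (by gcongr)

lemma sum_le {c : ℕ → ℂ} {R A B : ℝ} (hR : 1 < R) (hA : 0 ≤ A) (hB : 0 ≤ B)
    (h : ∀ k : ℕ, ‖c (k + 1)‖ ≤ A * (k + 1) + B) (n : ℕ) :
    ∑ k ∈ range n, ‖c (k + 1)‖ / R ^ (k + 1) ≤ A * R / (R - 1) ^ 2 + B / (R - 1) := by
  have r0 : 0 < R := by linarith
  have r1 := sub_pos.2 hR
  have k : ∑ k ∈ range n, ‖c (k + 1)‖ / R ^ (k + 1) ≤ A * R / (R - 1) ^ 2 + B / (R - 1) -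
      (A * R / (R - 1) ^ 2 + (A * n + B) / (R - 1)) / R ^ n := by
    induction n with
    | zero => simp
    | succ n ih =>
      rw [sum_range_succ]
      refine (add_le_add ih (div_le_div_of_nonneg_right (h n) (by positivity))).trans_eq ?_
      push_cast
      field_simp
      ring
  exact k.trans (sub_le_self _ (by positivity))

variable {l α l' α' p : ℝ}

lemma norm_q (l : ℝ) : ‖-exp (-(l : ℂ))‖ = Real.exp (-l) := by simp [norm_exp]

lemma cc_le (hp : Real.exp (-l) ≤ p) (h1 : p < 1) (k : ℕ) :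
    ‖k.succ * (2 * I * α) + (2 - 2 * (-exp (I * α)) ^ k.succ)‖ ≤ 2 * |α| * (k + 1) + 4 ∧
    ‖(1 - (-exp (-(l : ℂ))) ^ k.succ)⁻¹‖ ≤ (1 - p)⁻¹ ∧ 1 - (-exp (-(l : ℂ))) ^ k.succ ≠ 0 := by
  have : ‖(-exp (-(l : ℂ))) ^ k.succ‖ ≤ p := by
    rw [pow_succ]
    exact (norm_pm (by rw [norm_q]; linarith) _ _).trans ((norm_q l).trans_le hp)
  have h2 := le_norm_one_sub ((-exp (-(l : ℂ))) ^ k.succ)
  refine ⟨norm_add_le_of_le (le_of_eq ?_) ((norm_sub_le _ _).trans_eq ?_), ?_,
    norm_pos_iff.1 (by linarith)⟩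
  · rw [norm_mul, Complex.norm_natCast]; simp; ring
  · simp [norm_exp]; norm_num
  · rw [norm_inv]
    exact inv_anti₀ (by linarith) (by linarith)

lemma cc_sum {R : ℝ} (hp : Real.exp (-l) ≤ p) (h1 : p < 1) (hα : |α| ≤ 1.6) (hR : 1 < R) (n : ℕ) :
    ∑ k ∈ range n, ‖cc l α (k + 1)‖ / R ^ (k + 1) ≤
      (3.2 * R / (R - 1) ^ 2 + 4 / (R - 1)) / (1 - p) := by
  have := sub_pos.2 h1
  refine (sum_le (A := 3.2 / (1 - p)) (B := 4 / (1 - p)) hR (by positivity) (by positivity)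
    (fun k => ?_) n).trans_eq (by ring)
  refine (norm_mul_le_of_le ((cc_le hp h1 k).1.trans (?_ : _ ≤ 3.2 * (k + 1 : ℝ) + 4))
    (cc_le (α := α) hp h1 k).2.1).trans_eq (by ring)
  gcongr
  linarith

lemma aa_le {R K : ℝ} {N : ℕ} (hp : Real.exp (-l) ≤ p) (h1 : p < 1) (hα : |α| ≤ 1.6) (hR : 1 < R)
    (hN : (3.2 * R / (R - 1) ^ 2 + 4 / (R - 1)) / (1 - p) ≤ N + 1)
    (h0 : ∀ j ≤ N, ‖aa (cc l α) j‖ ≤ K * R ^ j) (j : ℕ) : ‖aa (cc l α) j‖ ≤ K * R ^ j := by
  have hK : 0 ≤ K := by simpa using (norm_nonneg _).trans (h0 0 N.zero_le)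
  exact rec_bound (e := 0) (E := 0) (by linarith) hK (cc_sum hp h1 hα hR)
    (fun j => by rw [aa_rec]; simp) (by simp) h0 (by rw [add_zero]; gcongr) j

lemma tail_le {f : ℕ → ℂ} {C ρ : ℝ} (h0 : 0 ≤ ρ) (h1 : ρ < 1) (h : ∀ j, ‖f j‖ ≤ C * ρ ^ j) (N : ℕ) :
    Summable f ∧ ‖∑' j, f j - ∑ j ∈ range N, f j‖ ≤ C * ρ ^ N / (1 - ρ) := by
  have s : Summable f := .of_norm_bounded ((summable_geometric_of_lt_one h0 h1).mul_left C) h
  refine ⟨s, ?_⟩
  rw [← s.sum_add_tsum_nat_add N, add_sub_cancel_left]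
  exact tsum_of_norm_bounded ((hasSum_geometric_of_lt_one h0 h1).mul_left (C * ρ ^ N)) fun j =>
    (h _).trans_eq (by ring)

lemma ph_le {R K : ℝ} (hp : Real.exp (-l) ≤ p) (h : ∀ j, ‖aa (cc l α) j‖ ≤ K * R ^ j) (j : ℕ) :
    ‖ph l α j‖ ≤ K ^ 2 * (p * R ^ 2) ^ j := by
  have p0 := (Real.exp_pos _).le.trans hp
  refine (norm_mul_le_of_le (norm_mul_le_of_le ((norm_pow _ _).trans_le (pow_le_pow_left₀
    (norm_nonneg _) ((norm_q l).trans_le hp) j)) (h j)) ((norm_conj _).trans_le (h j))).trans_eq ?_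
  ring

lemma q_lip (hp : Real.exp (-l) ≤ p) (hp' : Real.exp (-l') ≤ p) :
    ‖-exp (-(l : ℂ)) - -exp (-(l' : ℂ))‖ ≤ p * |l - l'| := by
  wlog h : l ≤ l' generalizing l l'
  · rw [norm_sub_rev, abs_sub_comm]; exact this hp' hp (le_of_not_ge h)
  have a : Real.exp (-l') = Real.exp (-l) * Real.exp (l - l') := by
    rw [← Real.exp_add]; congr 1; ring
  have b := Real.add_one_le_exp (l - l')
  have c := Real.exp_le_exp.2 (neg_le_neg h)
  rw [show -exp (-(l : ℂ)) - -exp (-(l' : ℂ)) = (-(Real.exp (-l) - Real.exp (-l')) : ℝ) by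
    push_cast; ring, norm_real, norm_neg, Real.norm_of_nonneg (sub_nonneg.2 c),
    abs_of_nonpos (sub_nonpos.2 h)]
  nlinarith [Real.exp_pos (-l)]

lemma cc_lip (hp : Real.exp (-l) ≤ 0.1) (hp' : Real.exp (-l') ≤ 0.1) (hα : |α'| ≤ 1.6) (k : ℕ) :
    ‖cc l α (k + 1) - cc l' α' (k + 1)‖ ≤ 5 * (|l - l'| + |α - α'|) * (k + 1) + 0 := by
  obtain ⟨-, a2, a3⟩ := cc_le (α := α) hp (by norm_num) k
  obtain ⟨b1, b2, b3⟩ := cc_le (α := α') hp' (by norm_num) k
  have q := (pow_sub_le ((norm_q l).trans_le hp) ((norm_q l').trans_le hp') (σ := 1) (by norm_num)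
    k.succ).trans (mul_le_mul_of_nonneg_left (q_lip hp hp') (by norm_num))
  have w : ‖(-exp (I * α)) ^ k.succ - (-exp (I * α')) ^ k.succ‖ ≤ (k + 1) * |α - α'| := by
    have := Real.norm_exp_I_mul_ofReal_sub_one_le (x := (k + 1) * (α - α'))
    rw [neg_pow, neg_pow (exp _), ← mul_sub, ← exp_nat_mul, ← exp_nat_mul,
      show exp (k.succ * (I * α)) - exp (k.succ * (I * α')) = exp (k.succ * (I * α')) *
        (exp (I * ((k + 1) * (α - α') : ℝ)) - 1) by
        rw [mul_sub, ← exp_add]; push_cast; ring_nf, norm_mul, norm_mul]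
    rw [norm_mul, Real.norm_of_nonneg (by positivity)] at this
    simpa [norm_exp] using this
  have n : ‖k.succ * (2 * I * (α - α' : ℝ)) - 2 * ((-exp (I * α)) ^ k.succ -
      (-exp (I * α')) ^ k.succ)‖ ≤ 2 * ((k + 1) * |α - α'|) + 2 * ((k + 1) * |α - α'|) :=
    norm_sub_le_of_le (le_of_eq (by
      rw [norm_mul, norm_mul, norm_mul, norm_real, Complex.norm_natCast]; simp; ring))
      (norm_mul_le_of_le Complex.norm_two.le w)
  refine le_of_eq_of_le (congrArg _ ?_) ((norm_add_le_of_le (norm_mul_le_of_le n a2)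
    (norm_mul_le_of_le (norm_mul_le_of_le b1 q) (norm_mul_le_of_le a2 b2))).trans ?_)
  · simp only [cc, Nat.succ_eq_add_one] at a3 b3 ⊢
    push_cast
    field_simp
    ring
  have := abs_nonneg (l - l')
  have k0 : (0 : ℝ) ≤ k := k.cast_nonneg
  rw [one_pow]
  nlinarith [mul_nonneg k0 this, mul_nonneg k0 (abs_nonneg (α - α')), abs_nonneg (α - α'),
    mul_le_mul_of_nonneg_right hα (mul_nonneg k0 this), mul_le_mul_of_nonneg_right hα this]

lemma ph_lip {K K' h : ℝ} {N : ℕ} (hp : Real.exp (-l) ≤ 0.07) (hp' : Real.exp (-l') ≤ 0.07)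
    (hα : |α| ≤ 1.6) (hα' : |α'| ≤ 1.6) (hh : |l - l'| + |α - α'| = h) (hK : K ≤ K') (hN : 15 ≤ N)
    (h0 : ∀ j, ‖aa (cc l α) j‖ ≤ K * 2.3 ^ j) (h0' : ∀ j, ‖aa (cc l' α') j‖ ≤ K * 2.3 ^ j)
    (h1 : ∀ j ≤ N, ‖aa (cc l α) j - aa (cc l' α') j‖ ≤ h * K' * 2.3 ^ j) (j : ℕ) :
    ‖ph l α j - ph l' α' j‖ ≤ h * (7 * K ^ 2 + 2 * K * K') * (0.08 * 2.3 ^ 2) ^ j := by
  have hK0 : 0 ≤ K := by simpa using (norm_nonneg _).trans (h0 0)
  have h0h : 0 ≤ h := hh ▸ by positivity
  have N0 : (15 : ℝ) ≤ N := by exact_mod_cast hN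
  have hs := sum_le (c := fun k => cc l α k - cc l' α' k) (R := 2.3) (by norm_num) (by positivity)
    le_rfl (cc_lip (α := α) (hp.trans (by norm_num)) (hp'.trans (by norm_num)) hα')
  have d := rec_bound (x := fun j => aa (cc l α) j - aa (cc l' α') j) (N := N)
    (e := fun j => ∑ k ∈ range (j + 1), (cc l α (k + 1) - cc l' α' (k + 1)) * aa (cc l' α') (j - k))
    (by norm_num) (mul_nonneg h0h (hK0.trans hK)) (cc_sum (R := 2.3) hp (by norm_num) hα (by norm_num))
    (fun j => by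
      rw [mul_sub, aa_rec, aa_rec, ← sum_add_distrib, ← sum_sub_distrib]
      exact sum_congr rfl fun k _ => by ring)
    (fun j => conv_le (c := fun k => cc l α k - cc l' α' k) (by norm_num) hK0 (hs _)
      fun i _ => h0' i) h1 (by
      rw [hh]
      norm_num
      nlinarith [mul_le_mul_of_nonneg_left hK h0h, mul_nonneg h0h hK0, mul_le_mul_of_nonneg_right N0
        (mul_nonneg h0h (hK0.trans hK))]) j
  have q := (pow_sub_le ((norm_q l).trans_le hp) ((norm_q l').trans_le hp') (σ := 0.08)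
    (by norm_num) j).trans (mul_le_mul_of_nonneg_left ((q_lip hp hp').trans
      (mul_le_mul_of_nonneg_left (le_add_of_nonneg_right (abs_nonneg (α - α'))) (by norm_num)))
      (by positivity))
  have q' := (norm_pow _ _).trans_le (pow_le_pow_left₀ (norm_nonneg _)
    (((norm_q l').trans_le hp').trans (by norm_num : _ ≤ (0.08 : ℝ))) j)
  refine le_of_eq_of_le (congrArg _ ?_) ((norm_add_le_of_le (norm_mul_le_of_le (norm_mul_le_of_le
    q (h0 j)) ((norm_conj _).trans_le (h0 j))) (norm_mul_le_of_le q' (norm_add_le_of_le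
    (norm_mul_le_of_le d ((norm_conj _).trans_le (h0 j))) (norm_mul_le_of_le (h0' j)
    ((norm_conj _).trans_le d))))).trans_eq ?_)
  · simp only [ph, map_sub]; ring
  · rw [hh, mul_pow, ← pow_mul]; ring

end Pool.Agent.MP_c434f6_gt

end

-- part MP_c434f6_gt.Num
section

/-! Certified numerics: the period condition has at most one solution. -/

open Complex Finset
open scoped Real ComplexConjugate

namespace Pool.Agent.MP_c434f6_gt

namespace Ar

variable {β : Type} (A : Ar β)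

def nat (n : ℕ) : β := A.cst (.nat n)
def neg (n : ℕ) : β := A.cst (.neg n)
def mul (a b : β) : β := A.fma a b (A.nat 0)
def pi : β := A.cst (.iv 314159265358979323846 314159265358979323847 100000000000000000000)
def osub (u : β) : β := A.inv (A.fma u (A.neg 1) (A.nat 1))

noncomputable def FD (Q : β) (n : ℕ) : β → β := Nat.rec (fun u => A.tl Q u)
  (fun _ ih u => A.fma (ih (A.mul Q u)) Q (A.mul (A.nat 2) (A.mul (A.osub u) (A.osub u)))) n

noncomputable def VH (l a : β) (k : β → Bool) : Bool :=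
  A.frc (A.mul (A.mul A.pi (A.inv l)) (A.neg 1)) fun s => A.frc (A.exp (A.mul a s)) fun z =>
  A.frc (A.exp (A.mul (A.fma a (A.neg 2) A.pi) s)) fun y => A.frc (A.mul y z) fun x =>
  A.frc (A.mul (A.mul x z) (A.neg 1)) fun Q =>
  k (A.fma (A.FD Q 6 x) (A.mul y (A.neg 1)) (A.FD Q 6 (A.mul z (A.neg 1))))

noncomputable def cs (q w t : β) (n : ℕ) : ℕ → β → β → (List β → Bool) → Bool :=
  Nat.rec (fun _ _ _ K => K []) (fun _ ih k qk wk K =>
    A.frc (A.mul (A.fma (A.nat k) t (A.fma wk (A.neg 2) (A.nat 2))) (A.osub qk)) fun c =>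
    A.frc (A.mul qk q) fun qk => A.frc (A.mul wk w) fun wk => ih k.succ qk wk fun l => K (c :: l)) n

noncomputable def dot (as : List β) : List β → β → β :=
  List.rec (fun _ s => s) (fun a _ ih cl s =>
    List.rec s (fun c cl _ => ih cl (A.fma c a s)) cl) as

noncomputable def loop (cl : List β) (q : β) (ck : ℕ → β → Bool) (K : β → Bool) (n : ℕ) :
    ℕ → List β → β → β → Bool :=
  Nat.rec (fun _ _ _ S => K S) (fun _ ih j as qj S =>
    A.frc (A.mul (A.dot as cl (A.nat 0)) (A.inv (A.nat j.succ))) fun a => cnd (ck j.succ a)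
      (A.frc (A.mul qj q) fun qj => A.frc (A.fma (A.mul qj a) (A.cnj a) S) fun S =>
        ih j.succ (a :: as) qj S) false) n

noncomputable def PH (l a : β) (N : ℕ) (ck : ℕ → β → Bool) (K : β → Bool) : Bool :=
  A.frc (A.mul (A.exp (A.mul l (A.neg 1))) (A.neg 1)) fun q =>
  A.frc (A.mul (A.exp (A.mul (A.cst (.im 1)) a)) (A.neg 1)) fun w =>
  A.frc (A.mul (A.cst (.im 2)) a) fun t =>
  A.cs q w t N 1 q w fun cl => A.loop cl q ck K N 0 [A.nat 1] (A.nat 1) (A.nat 1)

end Ar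

lemma cnd_true {c x : Bool} (h : cnd c x false = true) : c = true ∧ x = true := by
  cases c
  exacts [absurd h Bool.false_ne_true, ⟨rfl, h⟩]

lemma cnd_false {α : Type} (x y : α) : cnd false x y = y := rfl

namespace Snd

variable {β : Type} {A : Ar β} {m : β → (Bool → ℂ) → Prop}

/-- The list encloses `f k, f (k + 1), ...`. -/
def Asc (m : β → (Bool → ℂ) → Prop) (f : ℕ → Bool → ℂ) : ℕ → List β → Prop
  | _, [] => True
  | k, b :: l => m b (f k) ∧ Asc m f (k + 1) l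

/-- The list encloses `f (n - 1), ..., f 0`. -/
def Dsc (m : β → (Bool → ℂ) → Prop) (f : ℕ → Bool → ℂ) : List β → Prop
  | [] => True
  | b :: l => m b (f l.length) ∧ Dsc m f l

lemma cg {a : β} {x y : Bool → ℂ} (h : m a x) (e : ∀ i, x i = y i) : m a y := funext e ▸ h

variable (s : Snd A m) {a b : β} {x y : Bool → ℂ}
include s

lemma nat (n : ℕ) : m (A.nat n) fun _ => n := s.cst (Bl.mem_nat n)
lemma neg (n : ℕ) : m (A.neg n) fun _ => -n := s.cst (Bl.mem_neg n)

lemma mul (ha : m a x) (hb : m b y) : m (A.mul a b) fun i => x i * y i :=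
  cg (s.fma ha hb (s.nat 0)) fun _ => by simp

lemma pi : m A.pi fun _ => π := s.cst (Bl.mem_iv (by norm_num)
  (by push_cast; linarith [Real.pi_gt_d20]) (by push_cast; linarith [Real.pi_lt_d20]))

lemma osub (ha : m a x) : m (A.osub a) fun i => (1 - x i)⁻¹ :=
  cg (s.inv (s.fma ha (s.neg 1) (s.nat 1))) fun _ => by push_cast; ring_nf

lemma FD (ha : m a x) (hx : ∀ i, ‖x i‖ < 1) (n : ℕ) (hb : m b y) :
    m (A.FD a n b) fun i => fd (x i) (y i) := by
  induction n generalizing b y with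
  | zero => exact s.tl ha hb
  | succ n ih =>
    exact cg (s.fma (ih (s.mul ha hb)) ha (s.mul (s.nat 2) (s.mul (s.osub hb) (s.osub hb))))
      fun i => by rw [fd_eq (hx i) (y i), div_eq_mul_inv, ← inv_pow]; push_cast; ring

lemma VH {l : Bool → ℝ} (hl : ∀ i, 0 < l i) (ha : m a fun i => l i) (hb : m b y) {k : β → Bool}
    (h : A.VH a b k = true) : ∃ r, m r (fun i => Vh (l i) (y i)) ∧ k r = true := by
  simp only [Ar.VH, s.frc] at h
  have h1 := s.mul (s.mul s.pi (s.inv ha)) (s.neg 1)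
  have hz := cg (s.exp (s.mul hb h1)) (y := fun i => cexp (-(y i * ((π : ℂ) * (l i : ℂ)⁻¹))))
    fun i => by push_cast; ring_nf
  have hy := cg (s.exp (s.mul (s.fma hb (s.neg 2) s.pi) h1))
    (y := fun i => cexp (-(((π : ℂ) - 2 * y i) * ((π : ℂ) * (l i : ℂ)⁻¹)))) fun i => by push_cast; ring_nf
  have hx := cg (s.mul hy hz) (y := fun i => cexp (-(((π : ℂ) - y i) * ((π : ℂ) * (l i : ℂ)⁻¹))))
    fun i => by rw [← exp_add]; ring_nf
  have hQ := cg (s.mul (s.mul hx hz) (s.neg 1)) (y := fun i => -cexp (-((π : ℂ) * ((π : ℂ) * (l i : ℂ)⁻¹))))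
    fun i => by rw [← exp_add]; push_cast; ring_nf
  have q (i) : ‖-cexp (-((π : ℂ) * ((π : ℂ) * (l i : ℂ)⁻¹)))‖ < 1 := by
    have := hl i
    rw [norm_neg, ← ofReal_inv, ← ofReal_mul, ← ofReal_mul, ← ofReal_neg, norm_exp_ofReal]
    exact Real.exp_lt_one_iff.2 (neg_lt_zero.2 (by positivity))
  exact ⟨_, cg (s.fma (s.FD hQ q 6 hx) (s.mul hy (s.neg 1)) (s.FD hQ q 6 (s.mul hz (s.neg 1))))
    fun i => by simp only [Vh]; push_cast; ring_nf, h⟩

lemma cs {q w t : β} {l α : Bool → ℂ} (hq : m q fun i => -cexp (-l i))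
    (hw : m w fun i => -cexp (I * α i)) (ht : m t fun i => 2 * I * α i) (n : ℕ) {k : ℕ}
    (ha : m a fun i => (-cexp (-l i)) ^ k) (hb : m b fun i => (-cexp (I * α i)) ^ k)
    {K : List β → Bool} (h : A.cs q w t n k a b K = true) :
    ∃ cl, cl.length = n ∧ Asc m (fun k i => cc (l i) (α i) k) k cl ∧ K cl = true := by
  induction n generalizing k a b K with
  | zero => exact ⟨[], rfl, trivial, h⟩
  | succ n ih =>
    simp only [Ar.cs, s.frc] at h ih
    obtain ⟨cl, h1, h2, h3⟩ := ih (cg (s.mul ha hq) fun i => (pow_succ _ _).symm)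
      (cg (s.mul hb hw) fun i => (pow_succ _ _).symm) h
    exact ⟨_ :: cl, by simp [h1], ⟨cg (s.mul (s.fma (s.nat k) ht (s.fma hb (s.neg 2) (s.nat 2)))
      (s.osub ha)) fun i => by simp only [cc]; push_cast; ring, h2⟩, h3⟩

lemma dot {c f : ℕ → Bool → ℂ} {as cl : List β} {k : ℕ} (h1 : Dsc m f as) (h2 : Asc m c k cl)
    (h3 : as.length ≤ cl.length) (ha : m a x) : m (A.dot as cl a) fun i =>
      x i + ∑ j ∈ range as.length, c (k + j) i * f (as.length - 1 - j) i := by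
  induction as generalizing cl k a x with
  | nil => exact cg ha fun i => by simp
  | cons u as ih =>
    obtain _ | ⟨v, cl⟩ := cl
    · simp at h3
    refine cg (ih h1.2 h2.2 (by simpa using h3) (s.fma h2.1 h1.1 ha)) fun i => ?_
    simp only [List.length_cons, sum_range_succ', Nat.add_sub_cancel, add_zero, Nat.sub_zero,
      Nat.sub_sub, add_assoc, add_comm 1]
    ring

lemma loop {cl : List β} {q : β} {l α : Bool → ℂ} {ck : ℕ → β → Bool} {K : β → Bool}
    {G : ℕ → (Bool → ℂ) → Prop} (hG : ∀ j b x, ck j b = true → m b x → G j x)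
    (hq : m q fun i => -cexp (-l i)) (hc : Asc m (fun k i => cc (l i) (α i) k) 1 cl) (n : ℕ)
    {as : List β} {j : ℕ} (hj : as.length = j + 1) (hn : j + n ≤ cl.length)
    (h1 : Dsc m (fun k i => aa (cc (l i) (α i)) k) as) (ha : m a fun i => (-cexp (-l i)) ^ j)
    (hb : m b fun i => ∑ k ∈ range (j + 1), ph (l i) (α i) k)
    (h : A.loop cl q ck K n j as a b = true) :
    (∀ k, j < k → k ≤ j + n → G k fun i => aa (cc (l i) (α i)) k) ∧
      ∃ S, m S (fun i => ∑ k ∈ range (j + n + 1), ph (l i) (α i) k) ∧ K S = true := by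
  induction n generalizing as j a b with
  | zero => exact ⟨fun k h1 h2 => by omega, b, hb, h⟩
  | succ n ih =>
    simp only [Ar.loop, s.frc] at h ih
    obtain ⟨h2, h3⟩ := cnd_true h
    have u := cg (s.mul (s.dot h1 hc (by omega) (s.nat 0)) (s.inv (s.nat j.succ)))
      (y := fun i => aa (cc (l i) (α i)) (j + 1)) fun i => by
        simp only [aa_succ, hj, Nat.cast_zero, zero_add, add_comm 1, Nat.add_sub_cancel]
    have v := cg (s.mul ha hq) fun i => (pow_succ _ _).symm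
    obtain ⟨h4, h5⟩ := ih (as := _ :: as) (by simp [hj]) (by omega) ⟨hj ▸ u, h1⟩ v
      (cg (s.fma (s.mul v u) (s.cnj u) hb) fun i => by
        rw [sum_range_succ _ (j + 1), add_comm, ph]) h3
    refine ⟨fun k h6 h7 => ?_, by simpa only [add_assoc, add_comm 1, Nat.succ_eq_add_one] using h5⟩
    rcases eq_or_lt_of_le (Nat.succ_le_of_lt h6) with rfl | h8
    exacts [hG _ _ _ h2 u, h4 k h8 (by omega)]

lemma PH {N : ℕ} {ck : ℕ → β → Bool} {K : β → Bool} {G : ℕ → (Bool → ℂ) → Prop}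
    (hG : ∀ j b x, ck j b = true → m b x → G j x) (h0 : G 0 fun _ => 1) (ha : m a x) (hb : m b y)
    (h : A.PH a b N ck K = true) : (∀ k ≤ N, G k fun i => aa (cc (x i) (y i)) k) ∧
      ∃ S, m S (fun i => ∑ k ∈ range (N + 1), ph (x i) (y i) k) ∧ K S = true := by
  simp only [Ar.PH, s.frc] at h
  have hq := cg (s.mul (s.exp (s.mul ha (s.neg 1))) (s.neg 1)) (y := fun i => -cexp (-x i))
    fun i => by simp
  have hw := cg (s.mul (s.exp (s.mul (s.cst (Bl.mem_im 1)) hb)) (s.neg 1))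
    (y := fun i => -cexp (I * y i)) fun i => by simp
  obtain ⟨cl, h1, h2, h3⟩ := s.cs hq hw (s.mul (s.cst (Bl.mem_im 2)) hb) N
    (cg hq fun i => (pow_one _).symm) (cg hw fun i => (pow_one _).symm) h
  obtain ⟨h4, h5⟩ := s.loop hG hq h2 N (j := 0) (as := [A.nat 1]) rfl (by omega)
    ⟨cg (s.nat 1) fun i => by simp [aa], trivial⟩ (cg (s.nat 1) fun i => by simp)
    (cg (s.nat 1) fun i => by simp [ph, aa]) h3
  refine ⟨fun k hk => ?_, by simpa using h5⟩
  rcases k.eq_zero_or_pos with rfl | h6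
  exacts [by simpa only [aa] using h0, h4 k h6 (by omega)]

end Snd

/-- The equations satisfied by the parameters of a surface. -/
structure Sol (l α : ℝ) : Prop where
  h0 : 0 < α
  h1 : α < 1.6
  hP : Phi l α = 0
  hV : ∀ a : ℝ, 0 ≤ a → a ≤ 3 → (0 < (Vh l a).re → a < α) ∧ ((Vh l a).re < 0 → α < a)

def ivD (l h : ℕ) : Bl := .iv l h 1000000

lemma mem_ivD {l h : ℕ} {x : ℝ} (h1 : l ≤ x * 1000000) (h2 : x * 1000000 ≤ h) :
    m1 (ivD l h) fun _ => x := fun _ => Bl.mem_iv (by norm_num) (by simpa using h1) (by simpa using h2)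

noncomputable def brk (l0 l1 lo hi : ℕ) : Bool :=
  cnd (hi.ble 3000000) (cnd (lo.ble hi) (cnd (A1.VH (ivD l0 l1) (ivD hi hi) (·.lt 0))
    (cnd (lo.ble 0) true (A1.VH (ivD l0 l1) (ivD lo lo) (·.gt 0))) false) false) false

lemma brk_snd {l0 l1 lo hi : ℕ} (h : brk l0 l1 lo hi = true) {l α : ℝ} (hl : 0 < l)
    (h1 : l0 ≤ l * 1000000) (h2 : l * 1000000 ≤ l1) (s : Sol l α) :
    lo ≤ α * 1000000 ∧ α * 1000000 ≤ hi := by
  obtain ⟨a, h⟩ := cnd_true h
  obtain ⟨b, h⟩ := cnd_true h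
  obtain ⟨c, h⟩ := cnd_true h
  have a' : (hi : ℝ) ≤ 3000000 := by exact_mod_cast Nat.le_of_ble_eq_true a
  have b' : (lo : ℝ) ≤ hi := by exact_mod_cast Nat.le_of_ble_eq_true b
  have u := cU_pos
  constructor
  · cases H : lo.ble 0
    · rw [H, cnd_false] at h
      obtain ⟨r, h3, h4⟩ := snd1.VH (fun _ => hl) (mem_ivD h1 h2)
        (mem_ivD (x := lo / 1000000) (by simp) (by simp)) h
      have := (s.hV (lo / 1000000) (by positivity) (by linarith)).1
        (pos_of_mul_pos_left (Nat.cast_zero.symm.trans_lt ((h3 true).gt h4)) u.le)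
      linarith
    · rw [Nat.le_zero.1 (Nat.le_of_ble_eq_true H)]
      have := s.h0
      push_cast; positivity
  · obtain ⟨r, h3, h4⟩ := snd1.VH (fun _ => hl) (mem_ivD h1 h2)
      (mem_ivD (x := hi / 1000000) (by simp) (by simp)) c
    have := (s.hV (hi / 1000000) (by positivity) (by linarith)).2
      (neg_of_mul_neg_left (((h3 true).lt h4).trans_eq (by simp)) u.le)
    linarith

def ck (R K j : ℕ) (b : Bl) : Bool :=
  cnd (b.r.blt cG) (((b.ub.mul (Nat.pow 10 j)).mul 10).ble ((K.mul (R.pow j)).mul cU)) false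

lemma ck_snd {R K j : ℕ} {b : Bl} {x : ℂ} (h : ck R K j b = true) (hb : b.mem x) :
    ‖x‖ ≤ K / 10 * (R / 10) ^ j := by
  obtain ⟨h1, h2⟩ := cnd_true h
  have h3 := hb.le (by simpa using h1)
  have h4 : (b.ub : ℝ) * 10 ^ j * 10 ≤ K * R ^ j * cU := by
    exact_mod_cast Nat.le_of_ble_eq_true h2
  rw [div_pow, div_mul_div_comm, le_div_iff₀ (by positivity)]
  refine le_of_mul_le_mul_right (le_trans ?_ h4) cU_pos
  have : (0 : ℝ) < 10 ^ j := by positivity
  nlinarith

def e6 : ℕ := (cU.div 1000000).succ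

lemma e6_ge (t : ℕ) : t / 1000000 * (cU : ℝ) ≤ t.mul e6 := by
  have := div_gt cU (b := 1000000) (by norm_num)
  simp only [e6, Nat.mul_eq, div_eq, Nat.succ_eq_add_one]
  push_cast at this ⊢
  nlinarith [Nat.cast_nonneg (α := ℝ) t]

lemma gt_snd {b : Bl} {x : ℂ} {t : ℕ} (hb : b.mem x) (h : b.gt (t.mul e6) = true) :
    t / 1000000 < x.re := lt_of_mul_lt_mul_right ((e6_ge t).trans_lt (hb.gt h)) cU_pos.le

lemma lt_snd {b : Bl} {x : ℂ} {t : ℕ} (hb : b.mem x) (h : b.lt (t.mul e6) = true) :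
    x.re < -(t / 1000000) :=
  lt_of_mul_lt_mul_right (by linarith [hb.lt h, e6_ge t]) cU_pos.le

noncomputable def pchk (l0 p : ℕ) : Bool := ck 10 p 0 (A1.mul (A1.exp (A1.mul (ivD l0 l0) (A1.neg 1)))
  (A1.nat 1000))

lemma pchk_snd {l0 p : ℕ} (h : pchk l0 p = true) {l : ℝ} (hl : l0 ≤ l * 1000000) :
    Real.exp (-l) ≤ p / 10000 := by
  have := ck_snd h (snd1.mul (snd1.exp (snd1.mul (mem_ivD (x := l0 / 1000000) (by simp) (by simp))
    (snd1.neg 1))) (snd1.nat 1000) true)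
  simp [norm_exp] at this
  linarith [Real.exp_le_exp.2 (show -l ≤ -(l0 / 1000000) by linarith)]

noncomputable def rng (N R K t e : ℕ) (sg : Bool) (L : List (ℕ × ℕ × ℕ)) : ℕ → Bool :=
  List.rec (fun l0 => e.ble l0) (fun b _ ih l0 => cnd (brk l0 b.1 b.2.1 b.2.2)
    (cnd (A1.PH (ivD l0 b.1) (ivD b.2.1 b.2.2) N (ck R K)
      fun S => cnd sg (S.gt (t.mul e6)) (S.lt (t.mul e6))) (ih b.1) false) false) L

lemma rng_snd {N R K t e : ℕ} {sg : Bool} {p l α : ℝ} (hl : 0 < l) (s : Sol l α)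
    (hp : Real.exp (-l) ≤ p) (hR : (1 : ℝ) < R / 10) (hK : (1 : ℝ) ≤ K / 10)
    (hρ : p * (R / 10) ^ 2 < 1)
    (hN : (3.2 * (R / 10) / (R / 10 - 1) ^ 2 + 4 / (R / 10 - 1)) / (1 - p) ≤ N + 1)
    (ht : (K / 10) ^ 2 * (p * (R / 10) ^ 2) ^ (N + 1) / (1 - p * (R / 10) ^ 2) ≤ t / 1000000)
    (L : List (ℕ × ℕ × ℕ)) {l0 : ℕ} (h : rng N R K t e sg L l0 = true) (h1 : l0 ≤ l * 1000000) :
    e ≤ l * 1000000 := by
  induction L generalizing l0 with
  | nil => exact le_trans (by exact_mod_cast Nat.le_of_ble_eq_true h) h1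
  | cons b L ih =>
    obtain ⟨a, h⟩ := cnd_true h
    obtain ⟨c, h⟩ := cnd_true h
    refine ih h (le_of_not_ge fun h2 => ?_)
    obtain ⟨h3, h4⟩ := brk_snd a hl h1 h2 s
    obtain ⟨h5, S, h6, h7⟩ := snd1.PH (G := fun j x => ‖x true‖ ≤ K / 10 * (R / 10) ^ j)
      (fun j b x h h' => ck_snd h (h' true)) (by simpa using hK) (mem_ivD h1 h2) (mem_ivD h3 h4) c
    have p0 := (Real.exp_pos _).le.trans hp
    have := (tail_le (by positivity) hρ (ph_le hp (aa_le hp (by nlinarith)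
      (abs_le.2 ⟨by linarith [s.h0], s.h1.le⟩) hR hN h5)) (N + 1)).2
    rw [← Phi, s.hP, zero_sub, norm_neg] at this
    have := abs_le.1 ((abs_re_le_norm _).trans (this.trans ht))
    cases sg
    exacts [(lt_snd (h6 true) h7).not_ge this.1, (gt_snd (h6 true) h7).not_ge this.2]

def ck2 (j : ℕ) (b : Bl × Bl) : Bool := cnd (ck 23 25 j b.1) (ck 23 33 j b.2) false

/-- The slope of `Phi` in the central box. -/
lemma slope {a b : Bl × Bl} {K : Bl × Bl → Bool} (H : A2.PH a b 15 ck2 K = true) {h : ℝ}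
    {l α : Bool → ℝ} (h0 : 0 < h) (ha : m2 h a fun i => l i) (hb : m2 h b fun i => α i)
    (hp : ∀ i, Real.exp (-l i) ≤ 0.07) (hα : ∀ i, |α i| ≤ 1.6)
    (hh : |l true - l false| + |α true - α false| = h) : ∃ S s, K S = true ∧ S.2.mem s ∧
      |(Phi (l true) (α true)).re - (Phi (l false) (α false)).re - h * s.re| ≤ h * 0.001 := by
  obtain ⟨h1, S, ⟨-, s, h2, h3⟩, h4⟩ := (snd2 h0.ne').PH (G := fun j x =>
    (∀ i, ‖x i‖ ≤ 2.5 * 2.3 ^ j) ∧ ‖x true - x false‖ ≤ h * 3.3 * 2.3 ^ j)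
    (fun j b x h5 ⟨h6, s, h7, h8⟩ => ⟨fun i => (ck_snd (cnd_true h5).1 (h6 i)).trans_eq
      (by norm_num), by
        rw [h8, norm_mul, norm_real, Real.norm_of_nonneg h0.le, mul_assoc]
        exact mul_le_mul_of_nonneg_left ((ck_snd (cnd_true h5).2 h7).trans_eq (by norm_num)) h0.le⟩)
    ⟨fun _ => by norm_num, by simp; positivity⟩ ha hb H
  have k (i) := aa_le (hp i) (by norm_num) (hα i) (R := 2.3) (N := 15) (by norm_num) (by norm_num)
    fun j hj => (h1 j hj).1 i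
  have sm (i) := (tail_le (by norm_num) (by norm_num) (ph_le (hp i) (k i)) 0).1
  have := (tail_le (by norm_num) (by norm_num) (ph_lip (hp true) (hp false) (hα true) (hα false) hh
    (by norm_num) le_rfl (k true) (k false) fun j hj => (h1 j hj).2) 16).2
  rw [(sm true).tsum_sub (sm false), sum_sub_distrib, h3] at this
  refine ⟨S, s, h4, h2, le_trans (le_of_eq (by simp [Phi])) ((abs_re_le_norm _).trans (this.trans ?_))⟩
  rw [mul_assoc, mul_div_assoc]
  gcongr
  norm_num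

lemma range0 {l α : ℝ} (s : Sol l α) (h : (1400000 : ℕ) ≤ l * 1000000) :
    (1570000 : ℕ) ≤ l * 1000000 :=
  rng_snd (N := 22) (R := 17) (K := 70) (t := 71253) (sg := false)
    (by push_cast at h; linarith) s (pchk_snd (p := 2467) (by decide +kernel) h) (by norm_num)
    (by norm_num) (by norm_num) (by norm_num) (by norm_num) [
    (1403739, 1544189, 1544517), (1407360, 1543877, 1544198), (1411132, 1543550, 1543889),
    (1415061, 1543207, 1543562), (1418866, 1542870, 1543219), (1422829, 1542521, 1542882),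
    (1426957, 1542150, 1542533), (1430956, 1541790, 1542165), (1435121, 1541412, 1541805),
    (1439459, 1541015, 1541427), (1443660, 1540628, 1541030), (1448036, 1540222, 1540643),
    (1452274, 1539825, 1540237), (1456688, 1539408, 1539840), (1461285, 1538971, 1539423),
    (1465737, 1538544, 1538986), (1470374, 1538096, 1538559), (1475204, 1537625, 1538111),
    (1479882, 1537165, 1537640), (1484755, 1536681, 1537180), (1489830, 1536171, 1536699),
    (1494746, 1535675, 1536189), (1499866, 1535154, 1535696), (1505199, 1534606, 1535175),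
    (1510364, 1534071, 1534627), (1515744, 1533509, 1534092), (1521348, 1532918, 1533530),
    (1526776, 1532340, 1532939), (1532430, 1531733, 1532361), (1538319, 1531094, 1531758),
    (1544023, 1530470, 1531119), (1549964, 1529810, 1530495), (1556152, 1529119, 1529839),
    (1562597, 1528393, 1529148), (1568840, 1527683, 1528422), (1570000, 1527562, 1527700)] (by decide +kernel) h

lemma range1 {l α : ℝ} (s : Sol l α) (h : (1570000 : ℕ) ≤ l * 1000000) :
    (1900000 : ℕ) ≤ l * 1000000 :=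
  rng_snd (N := 18) (R := 18) (K := 52) (t := 46413) (sg := false)
    (by push_cast at h; linarith) s (pchk_snd (p := 2081) (by decide +kernel) h) (by norm_num)
    (by norm_num) (by norm_num) (by norm_num) (by norm_num) [
    (1575000, 1526980, 1527579), (1580601, 1526326, 1527005), (1586875, 1525593, 1526355),
    (1593902, 1524757, 1525628), (1601222, 1523882, 1524798), (1608847, 1522962, 1523923),
    (1616790, 1521992, 1523003), (1624484, 1521042, 1522033), (1632498, 1520040, 1521083),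
    (1640845, 1518979, 1520088), (1649539, 1517867, 1519034), (1657961, 1516777, 1517922),
    (1666733, 1515628, 1516832), (1675870, 1514416, 1515683), (1685387, 1513130, 1514480),
    (1694606, 1511886, 1513194), (1704209, 1510555, 1511950), (1714212, 1509161, 1510628),
    (1724631, 1507690, 1509234), (1735484, 1506136, 1507763), (1745997, 1504611, 1506209),
    (1756947, 1502991, 1504695), (1768353, 1501291, 1503086), (1780233, 1499496, 1501386),
    (1792607, 1497599, 1499605), (1805495, 1495580, 1497708), (1817979, 1493610, 1495703),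
    (1830983, 1491527, 1493733), (1844528, 1489325, 1491650), (1858637, 1486978, 1489466),
    (1873333, 1484515, 1487137), (1888640, 1481907, 1484674), (1900000, 1479962, 1482048)] (by decide +kernel) h

lemma range2 {l α : ℝ} (s : Sol l α) (h : (1900000 : ℕ) ≤ l * 1000000) :
    (2300000 : ℕ) ≤ l * 1000000 :=
  rng_snd (N := 13) (R := 20) (K := 36) (t := 24361) (sg := false)
    (by push_cast at h; linarith) s (pchk_snd (p := 1496) (by decide +kernel) h) (by norm_num)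
    (by norm_num) (by norm_num) (by norm_num) (by norm_num) [
    (1905000, 1479125, 1480051), (1910601, 1478144, 1479180), (1916875, 1477029, 1478208),
    (1923902, 1475781, 1477102), (1931773, 1474363, 1475865), (1940589, 1472773, 1474458),
    (1950463, 1470962, 1472882), (1961522, 1468928, 1471085), (1973909, 1466606, 1469069),
    (1987783, 1463992, 1466765), (2003322, 1461001, 1464174), (2020726, 1457596, 1461235),
    (2040219, 1453749, 1457859), (2062052, 1449324, 1454048), (2083201, 1444990, 1449659),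
    (2105229, 1440391, 1445325), (2128173, 1435462, 1440771), (2152072, 1430275, 1435887),
    (2176965, 1424763, 1430700), (2201078, 1419318, 1425188), (2226194, 1413479, 1419799),
    (2252354, 1407336, 1414016), (2277695, 1401268, 1407873), (2300000, 1395887, 1401749)] (by decide +kernel) h

lemma range3 {l α : ℝ} (s : Sol l α) (h : (2300000 : ℕ) ≤ l * 1000000) :
    (2702001 : ℕ) ≤ l * 1000000 :=
  rng_snd (N := 12) (R := 23) (K := 25) (t := 3517) (sg := false)
    (by push_cast at h; linarith) s (pchk_snd (p := 1003) (by decide +kernel) h) (by norm_num)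
    (by norm_num) (by norm_num) (by norm_num) (by norm_num) [
    (2305000, 1394821, 1396147), (2310601, 1393423, 1394930), (2316875, 1391865, 1393546),
    (2323902, 1390095, 1392006), (2331773, 1388121, 1390254), (2340589, 1385874, 1388303),
    (2350463, 1383367, 1386079), (2361522, 1380509, 1383601), (2373909, 1377314, 1380772),
    (2387783, 1373667, 1377613), (2403322, 1369581, 1374002), (2420726, 1364909, 1369961),
    (2440219, 1359604, 1365334), (2462052, 1353645, 1360141), (2486505, 1346796, 1354253),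
    (2510192, 1340128, 1347475), (2533136, 1333571, 1340807), (2553806, 1327653, 1334179),
    (2573828, 1321777, 1328190), (2591865, 1316421, 1322314), (2608113, 1311600, 1316902),
    (2622750, 1307166, 1312025), (2635012, 1303465, 1307546), (2646057, 1300068, 1303800),
    (2656007, 1297024, 1300367), (2664970, 1294233, 1297287), (2672478, 1291913, 1294467),
    (2678766, 1289938, 1292118), (2684429, 1288176, 1290120), (2689172, 1286676, 1288335),
    (2693145, 1285434, 1286817), (2696723, 1284311, 1285543), (2699720, 1283357, 1284406),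
    (2702001, 1282641, 1283441)] (by decide +kernel) h

lemma range4 {l α : ℝ} (s : Sol l α) (h : (2741000 : ℕ) ≤ l * 1000000) :
    (5100001 : ℕ) ≤ l * 1000000 :=
  rng_snd (N := 8) (R := 23) (K := 25) (t := 604) (sg := true)
    (by push_cast at h; linarith) s (pchk_snd (p := 646) (by decide +kernel) h) (by norm_num)
    (by norm_num) (by norm_num) (by norm_num) (by norm_num) [
    (2744739, 1268806, 1270151), (2748927, 1267434, 1268929), (2753618, 1265876, 1267575),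
    (2758872, 1264145, 1266035), (2764757, 1262178, 1264327), (2771349, 1259992, 1262383),
    (2778733, 1257504, 1260226), (2787004, 1254738, 1257767), (2796268, 1251588, 1255037),
    (2806644, 1248081, 1251923), (2818266, 1244082, 1248461), (2831283, 1239623, 1244507),
    (2845863, 1234534, 1240104), (2862193, 1228775, 1235071), (2880483, 1222343, 1229454),
    (2900968, 1214972, 1223110), (2923912, 1206715, 1215827), (2949610, 1197229, 1207681),
    (2978392, 1186431, 1198444), (3010628, 1174288, 1187784), (3046733, 1160255, 1175814),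
    (3087171, 1144182, 1162170), (3132462, 1125996, 1146313), (3183188, 1104806, 1128398),
    (3240002, 1080320, 1107817), (3303634, 1051912, 1084092), (3374902, 1018794, 1056636),
    (3454723, 979956, 1024047), (3544123, 934898, 986531), (3644252, 880363, 942300),
    (3756397, 813138, 889625), (3882000, 731489, 826017), (4022676, 627402, 749617),
    (4180234, 482686, 650073), (4356699, 228920, 518135), (4554340, 0, 315532), (4775698, 0, 1),
    (5023619, 0, 1), (5100001, 0, 1)] (by decide +kernel) h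

lemma Sol.lt {l α : ℝ} (s : Sol l α) : l < 5.1 := by
  by_contra! h
  have p := pchk_snd (l0 := 5100000) (p := 61) (by decide +kernel) (l := l) (by push_cast; linarith)
  have := (tail_le (by norm_num) (by norm_num) (ph_le p (aa_le p (by norm_num)
    (abs_le.2 ⟨by linarith [s.h0], s.h1.le⟩) (R := 8.8) (K := 1) (N := 0) (by norm_num)
    (by norm_num) fun j hj => by simp [Nat.le_zero.1 hj, aa])) 1).2
  rw [← Phi, s.hP] at this
  norm_num [ph, aa] at this

lemma Sol.cen {l α : ℝ} (s : Sol l α) (h : 1.4 ≤ l) :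
    ((2702000 : ℕ) ≤ l * 1000000 ∧ l * 1000000 ≤ (2741000 : ℕ)) ∧
      (1269413 : ℕ) ≤ α * 1000000 ∧ α * 1000000 ≤ (1283354 : ℕ) := by
  have a := range3 s (range2 s (range1 s (range0 s (by push_cast; linarith))))
  have a' : (2702000 : ℕ) ≤ l * 1000000 := by push_cast at a ⊢; linarith
  have b : l * 1000000 ≤ (2741000 : ℕ) := le_of_not_ge fun h => by
    have := range4 s h
    push_cast at this
    linarith [s.lt]
  exact ⟨⟨a', b⟩, brk_snd (by decide +kernel) (by linarith) a' b s⟩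

lemma m2_of {a : Bl} {x : Bool → ℝ} (h : ∀ i, a.mem (x i)) :
    m2 (x true - x false) (a, .nat 1) fun i => x i := ⟨h, _, Bl.mem_nat 1, by simp⟩

theorem Sol.uniq {l α l' α' : ℝ} (s : Sol l α) (s' : Sol l' α') (h : 1.4 ≤ l) : ¬l < l' := by
  intro hl
  obtain ⟨⟨a1, a2⟩, a3, a4⟩ := s.cen h
  obtain ⟨⟨b1, b2⟩, b3, b4⟩ := s'.cen (h.trans hl.le)
  have h0 := sub_pos.2 hl
  have mL := m2_of (x := fun i => cnd i l' l) (a := ivD 2702000 2741000) fun i => by
    cases i
    exacts [mem_ivD a1 a2 true, mem_ivD b1 b2 true]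
  have pl := (pchk_snd (l0 := 2702000) (p := 700) (by decide +kernel) a1).trans_eq
    (show _ = 0.07 by norm_num)
  have pl' := (pchk_snd (l0 := 2702000) (p := 700) (by decide +kernel) b1).trans_eq
    (show _ = 0.07 by norm_num)
  have al : |α| ≤ 1.6 := abs_le.2 ⟨by linarith [s.h0], s.h1.le⟩
  have al' : |α'| ≤ 1.6 := abs_le.2 ⟨by linarith [s'.h0], s'.h1.le⟩
  obtain ⟨r, ⟨-, v, h1, h2⟩, h3⟩ := (snd2 h0.ne').VH (k := fun r => r.2.lt 0)
    (fun i => by cases i <;> simp only [cnd] <;> linarith) mL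
    ((snd2 h0.ne').cst (mem_ivD a3 a4 true)) (by decide +kernel)
  have v0 : v.re < 0 := neg_of_mul_neg_left ((h1.lt h3).trans_eq (by simp)) cU_pos.le
  have hV := s.hV α s.h0.le (by linarith [s.h1])
  have lt : α' < α := (s'.hV α s.h0.le (by linarith [s.h1])).2 (by
    have := congrArg re h2
    simp only [cnd, sub_re, re_ofReal_mul] at this
    nlinarith [not_lt.1 (mt hV.1 (lt_irrefl _)), mul_pos h0 (neg_pos.2 v0)])
  have h1 := sub_pos.2 lt
  obtain ⟨S, u, h4, h5, h6⟩ := slope (K := fun S => S.2.gt (Nat.mul 1000 e6))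
    (α := fun _ => α) (by decide +kernel) h0 mL ((snd2 h0.ne').cst (mem_ivD a3 a4 true))
    (fun i => by cases i; exacts [pl, pl']) (fun _ => al) (by simp [cnd, abs_of_pos h0])
  obtain ⟨S', u', h7, h8, h9⟩ := slope (K := fun S => S.2.lt (Nat.mul 1000 e6))
    (l := fun _ => l') (by decide +kernel) h1 ((snd2 h1.ne').cst (mem_ivD b1 b2 true))
    (m2_of (x := fun i => cnd i α α') (a := ivD 1269413 1283354) fun i => by
      cases i
      exacts [mem_ivD b3 b4 true, mem_ivD a3 a4 true])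
    (fun _ => pl') (fun i => by cases i; exacts [al', al]) (by simp [cnd, abs_of_pos h1])
  have g1 := gt_snd h5 h4
  have g2 := lt_snd h8 h7
  simp only [cnd, s.hP, s'.hP, zero_re, abs_le] at h6 h9
  push_cast at g1 g2
  nlinarith [h6.1, h9.2]

end Pool.Agent.MP_c434f6_gt

end

-- part MP_c434f6_gt.Four
section

/-! The modular transformation, and the Fourier expansion of the horizontal period. -/

open Complex Filter Topology Set
open scoped Real ComplexConjugate

namespace Pool.Agent.MP_c434f6_gt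

lemma per_of_gen {D : ℂ → ℂ} {ω : ℂ} (h1 : Cod fun z => D (z + ω) = D z)
    (h2 : Cod fun z => D (z + π * I) = D z) (l : ℂ) (hl : l ∈ Lat ω) :
    Cod fun z => D (z + l) = D z := by
  induction hl using AddSubgroup.closure_induction with
  | mem x hx => rcases hx with rfl | rfl <;> assumption
  | zero => exact fun s => by simp
  | add x y _ _ h1 h2 =>
    exact fun s => ((h1 s).and (h2.shift x s)).mono fun z hz => by rw [← add_assoc, hz.2, hz.1]
  | neg x _ h1 => exact fun s => (h1.shift (-x) s).mono fun z hz => by simpa using hz.symm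

lemma hs_congr {ι : Type} {f g : ι → ℂ} {a : ℂ} (h : HasSum f a) (e : ∀ i, g i = f i) :
    HasSum g a := funext e ▸ h

lemma swap_sum {f : ℕ → ℕ → ℂ} {g h : ℕ → ℂ} (s : Summable fun x : ℕ × ℕ => f x.1 x.2)
    (hg : ∀ n, HasSum (f n) (g n)) (hh : ∀ k, HasSum (f · k) (h k)) : HasSum h (∑' n, g n) := by
  rw [(s.hasSum.prod_fiberwise hg).tsum_eq]
  exact ((Equiv.prodComm ℕ ℕ).hasSum_iff.2 s.hasSum).prod_fiberwise hh

lemma dbl {Q u : ℂ} {e : ℕ → ℂ} {F : ℂ → ℂ} (hQ : ‖Q‖ < 1)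
    (hF : ∀ w, ‖w‖ ≤ ‖u‖ → HasSum (fun k => e k * w ^ (k + 1)) (F w)) :
    HasSum (fun k => e k * u ^ (k + 1) * (1 - Q ^ (k + 1))⁻¹) (∑' n, F (Q ^ n * u)) := by
  have s0 : Summable fun x : ℕ × ℕ => ‖Q‖ ^ x.1 * ‖e x.2 * u ^ (x.2 + 1)‖ :=
    (summable_geometric_of_lt_one (norm_nonneg _) hQ).mul_of_nonneg
      (hF u le_rfl).summable.norm (fun _ => by positivity) fun _ => norm_nonneg _
  have s : Summable fun x : ℕ × ℕ => e x.2 * (Q ^ x.1 * u) ^ (x.2 + 1) := by
    refine .of_norm_bounded s0 fun x => ?_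
    rw [mul_pow, mul_left_comm, norm_mul, norm_pow, norm_pow, pow_succ]
    exact mul_le_mul_of_nonneg_right (mul_le_of_le_one_left (by positivity) (pow_le_one₀
      (by positivity) (pow_le_one₀ (norm_nonneg _) hQ.le))) (norm_nonneg _)
  refine swap_sum (f := fun n k => e k * (Q ^ n * u) ^ (k + 1)) s
    (fun n => hF _ (norm_pm hQ.le n u)) fun k => ?_
  exact hs_congr ((hasSum_geometric_of_norm_lt_one (ξ := Q ^ (k + 1)) (by
    rw [norm_pow]; exact pow_lt_one₀ (norm_nonneg _) hQ k.succ_ne_zero)).mul_left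
      (e k * u ^ (k + 1))) fun n => by ring

lemma fr_ser {Q u : ℂ} (hQ : ‖Q‖ < 1) (hu : ‖u‖ < 1) :
    HasSum (fun k : ℕ => 2 * u ^ (k + 1) * (1 - Q ^ (k + 1))⁻¹) (fr Q u) :=
  dbl hQ (F := rr) fun w hw => hs_congr ((hasSum_geometric_of_norm_lt_one
    (hw.trans_lt hu)).mul_left (2 * w)) fun k => by ring

lemma fs_ser {Q u : ℂ} (hQ : ‖Q‖ < 1) (hu : ‖u‖ < 1) :
    HasSum (fun k : ℕ => 4 * (k + 1 : ℕ) * u ^ (k + 1) * (1 - Q ^ (k + 1))⁻¹) (fs Q u) :=
  dbl hQ (F := ss) (e := fun k => 4 * (k + 1 : ℕ)) fun w hw => by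
    have := (hasSum_nat_add_iff' 1).2
      ((hasSum_coe_mul_geometric_of_norm_lt_one (hw.trans_lt hu)).mul_left 4)
    simpa [ss, mul_assoc, mul_div_assoc] using this

/-- The generating function. -/
noncomputable def gen (c : ℕ → ℂ) (u : ℂ) : ℂ := ∑' j, aa c j * u ^ j

section
variable {c : ℕ → ℂ} {A B : ℝ} (hA : 0 ≤ A) (hB : 0 ≤ B)
  (hc : ∀ k : ℕ, ‖c (k + 1)‖ ≤ A * (k + 1) + B)
include hA hB hc

lemma aa_sum {ρ : ℝ} (h0 : 0 < ρ) (h1 : ρ < 1) : Summable fun j => ‖aa c j‖ * ρ ^ j := by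
  obtain ⟨R, hR, hρ⟩ := exists_between (one_lt_inv₀ h0 |>.2 h1)
  obtain ⟨N, hN⟩ := exists_nat_ge (A * R / (R - 1) ^ 2 + B / (R - 1))
  have r0 : 0 < R := by linarith
  have k := rec_bound (x := aa c) (e := 0) (E := 0) (N := N)
    (K := ∑ j ∈ Finset.range (N + 1), ‖aa c j‖ / R ^ j) r0 (by positivity) (sum_le hR hA hB hc)
    (fun j => by rw [aa_rec]; simp) (by simp) (fun j hj => (div_le_iff₀ (by positivity)).1
      (Finset.single_le_sum (f := fun j => ‖aa c j‖ / R ^ j) (fun _ _ => by positivity)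
        (Finset.mem_range_succ_iff.2 hj))) (by
      rw [add_zero]; exact mul_le_mul_of_nonneg_right (by linarith) (by positivity))
  exact .of_nonneg_of_le (fun _ => by positivity) (fun j => (mul_le_mul_of_nonneg_right (k j)
    (by positivity)).trans_eq (by rw [mul_assoc, ← mul_pow])) ((summable_geometric_of_lt_one
    (r := R * ρ) (by positivity) ((lt_div_iff₀ h0).1 (by simpa using hρ))).mul_left _)

lemma gen_ode {u C : ℂ} (h0 : u ≠ 0) (hu : ‖u‖ < 1)
    (hC : HasSum (fun k => c (k + 1) * u ^ (k + 1)) C) :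
    HasDerivAt (gen c) (C * gen c u / u) u := by
  obtain ⟨ρ, h1, h2⟩ := exists_between hu
  have s := aa_sum hA hB hc ((norm_nonneg _).trans_lt h1) h2
  have d (j : ℕ) : DifferentiableOn ℂ (fun w => aa c j * w ^ j) (Metric.ball 0 ρ) := by fun_prop
  have b (j : ℕ) (w : ℂ) (hw : w ∈ Metric.ball (0 : ℂ) ρ) : ‖aa c j * w ^ j‖ ≤ ‖aa c j‖ * ρ ^ j := by
    rw [norm_mul, norm_pow]
    gcongr
    exact (mem_ball_zero_iff.1 hw).le
  have m := mem_ball_zero_iff.2 h1
  refine ((differentiableOn_tsum_of_summable_norm s d Metric.isOpen_ball b).differentiableAt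
    (Metric.isOpen_ball.mem_nhds m)).hasDerivAt.congr_deriv ?_
  have := (hasSum_nat_add_iff' 1).2
    ((hasSum_deriv_of_summable_norm s d Metric.isOpen_ball b m).mul_right u)
  rw [eq_div_iff h0, ← hC.tsum_eq, gen, tsum_mul_tsum_eq_tsum_sum_range_of_summable_norm
    hC.summable.norm (.of_nonneg_of_le (fun _ => norm_nonneg _) (fun j => b j u m) s)]
  simp only [Finset.sum_range_one, pow_zero, deriv_const, zero_mul, sub_zero] at this
  refine this.tsum_eq.symm.trans (tsum_congr fun j => ?_)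
  rw [((hasDerivAt_pow _ u).const_mul _).deriv, ← mul_assoc, mul_comm (aa c _), aa_rec,
    Finset.sum_mul, Finset.sum_mul]
  refine Finset.sum_congr rfl fun k hk => ?_
  obtain ⟨i, rfl⟩ := Nat.exists_eq_add_of_le (Finset.mem_range_succ_iff.1 hk)
  simp only [Nat.add_sub_cancel_left, Nat.add_sub_cancel]
  ring

end

lemma aa_conj (c : ℕ → ℂ) (j : ℕ) : aa (fun k => conj (c k)) j = conj (aa c j) := by
  induction j using Nat.strong_induction_on with
  | _ j ih =>
    rcases j with _ | j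
    · simp [aa]
    rw [aa_succ, aa_succ, map_mul, map_sum, map_inv₀, map_natCast]
    congr 1
    exact Finset.sum_congr rfl fun k _ => by rw [ih _ (by omega), map_mul]

lemma cc_bd {l : ℝ} (hl : 0 < l) (α : ℝ) : ∃ A B : ℝ, 0 ≤ A ∧ 0 ≤ B ∧
    ∀ k : ℕ, ‖cc l α (k + 1)‖ ≤ A * (k + 1) + B := by
  have h := Real.exp_lt_one_iff.2 (neg_lt_zero.2 hl)
  have := sub_pos.2 h
  exact ⟨2 * |α| * (1 - Real.exp (-l))⁻¹, 4 * (1 - Real.exp (-l))⁻¹, by positivity, by positivity,
    fun k => (norm_mul_le_of_le (cc_le le_rfl h k).1 (cc_le (α := α) le_rfl h k).2.1).trans_eq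
      (by ring)⟩

lemma hd_gen {l : ℝ} (hl : 0 < l) (α : ℝ) (c k ξ : ℂ) (hc : c ≠ 0) (hu : ‖c * exp (k * ξ)‖ < 1) :
    HasDerivAt (fun ξ => gen (cc l α) (c * exp (k * ξ))) (k * (fr (-exp (-l)) (c * exp (k * ξ)) -
      fr (-exp (-l)) (c * exp (k * ξ) * -exp (I * α)) + I * α / 2 * fs (-exp (-l))
        (c * exp (k * ξ))) * gen (cc l α) (c * exp (k * ξ))) ξ := by
  obtain ⟨A, B, hA, hB, h⟩ := cc_bd hl α
  have q := (norm_q l).trans_lt (Real.exp_lt_one_iff.2 (neg_lt_zero.2 hl))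
  have h0 := mul_ne_zero hc (exp_ne_zero (k * ξ))
  have a : HasDerivAt (fun ξ => c * exp (k * ξ)) (c * (exp (k * ξ) * (k * 1))) ξ :=
    ((hasDerivAt_id' ξ).const_mul k).cexp.const_mul c
  refine (HasDerivAt.comp (h₂ := gen _) ξ (gen_ode hA hB h h0 hu (hs_congr (((fr_ser q hu).sub
    (fr_ser q (u := c * exp (k * ξ) * -exp (I * α)) (by simpa [norm_exp] using hu))).add
      ((fs_ser q hu).mul_left (I * α / 2))) fun j => ?_)) a).congr_deriv ?_
  · rw [cc, mul_pow (c * _)]; ring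
  · have := exp_ne_zero (k * ξ)
    field_simp

lemma int_dbl {u v : ℝ → ℕ → ℂ} {A B : ℕ → ℝ} (cu : ∀ j, Continuous (u · j))
    (cv : ∀ j, Continuous (v · j)) (n1 : ∀ s j, ‖u s j‖ = A j) (n2 : ∀ s j, ‖v s j‖ = B j)
    (sA : Summable A) (sB : Summable B) (P : ℝ) :
    HasSum (fun x : ℕ × ℕ => ∫ s in (0 : ℝ)..P, u s x.1 * v s x.2)
      (∫ s in (0 : ℝ)..P, (∑' j, u s j) * ∑' j, v s j) := by
  have s1 (s : ℝ) : Summable fun j => ‖u s j‖ := by simpa only [n1] using sA
  have s2 (s : ℝ) : Summable fun j => ‖v s j‖ := by simpa only [n2] using sB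
  exact intervalIntegral.hasSum_integral_of_dominated_convergence (fun x _ => A x.1 * B x.2)
    (fun x => ((cu _).mul (cv _)).aestronglyMeasurable)
    (fun x => .of_forall fun s _ => by rw [norm_mul, n1, n2])
    (.of_forall fun s _ => sA.mul_of_nonneg sB (fun j => n1 s j ▸ norm_nonneg _)
      fun j => n2 s j ▸ norm_nonneg _) intervalIntegrable_const
    (.of_forall fun s _ => (s1 s).of_norm.hasSum.mul (s2 s).of_norm.hasSum
      (summable_mul_of_summable_norm (s1 s) (s2 s)))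

/-- The constant Fourier coefficient of the product of the generating functions. -/
lemma int_gen {l P κ : ℝ} (hl : 0 < l) (α : ℝ) (hP : 0 < P) (hκ : κ * P = 2 * π)
    (h : ∫ s in (0 : ℝ)..P, gen (cc l α) (exp (-l / 2) * exp (I * κ * s)) *
      gen (cc l (-α : ℝ)) (-exp (-l / 2) * exp (-(I * κ) * s)) = 0) : Phi l α = 0 := by
  have r1 : Real.exp (-l / 2) < 1 := Real.exp_lt_one_iff.2 (by linarith)
  have sm (α : ℝ) : Summable fun j => ‖aa (cc l α) j‖ * Real.exp (-l / 2) ^ j :=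
    let ⟨_, _, hA, hB, h⟩ := cc_bd hl α
    aa_sum hA hB h (Real.exp_pos _) r1
  have n1 (s : ℝ) (j) : ‖aa (cc l α) j * (exp (-l / 2) * exp (I * κ * s)) ^ j‖ =
      ‖aa (cc l α) j‖ * Real.exp (-l / 2) ^ j := by simp [norm_exp]
  have n2 (s : ℝ) (j) : ‖aa (cc l (-α : ℝ)) j * (-exp (-l / 2) * exp (-(I * κ) * s)) ^ j‖ =
      ‖aa (cc l (-α : ℝ)) j‖ * Real.exp (-l / 2) ^ j := by simp [norm_exp]
  have := int_dbl (fun j => by fun_prop) (fun j => by fun_prop) n1 n2 (sm α) (sm (-α)) P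
  simp only [gen] at h
  rw [h] at this
  have e : cc l (-α : ℝ) = fun k => conj (cc l α k) := funext fun k => by
    simp [cc, ← exp_conj, map_ofNat]
  have P0 : (P : ℂ) ≠ 0 := by exact_mod_cast hP.ne'
  have := this.prod_fiberwise (g := fun j => P * ph l α j) fun j => by
    refine hs_congr (hasSum_ite_eq j _) fun k => ?_
    have x (s : ℝ) : aa (cc l α) j * (exp (-l / 2) * exp (I * κ * s)) ^ j *
        (aa (cc l (-α : ℝ)) k * (-exp (-l / 2) * exp (-(I * κ) * s)) ^ k) =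
        aa (cc l α) j * exp (-l / 2) ^ j * (aa (cc l (-α : ℝ)) k * (-exp (-l / 2)) ^ k) *
          exp (I * κ * (j - k) * s) := by
      rw [mul_pow, mul_pow, ← exp_nat_mul (_ * _), ← exp_nat_mul (_ * _),
        show I * κ * (j - k) * s = j * (I * κ * s) + k * (-(I * κ) * s) by ring, exp_add]
      ring
    simp only [x, intervalIntegral.integral_const_mul]
    split_ifs with H
    · subst H
      rw [ph, e, aa_conj, show -exp (-(l : ℂ)) = exp (-l / 2) * -exp (-l / 2) by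
        rw [mul_neg, ← exp_add]; ring_nf, mul_pow]
      simp; ring
    · have k0 : (κ : ℂ) ≠ 0 := ofReal_ne_zero.2 (left_ne_zero_of_mul (hκ ▸ Real.two_pi_pos.ne'))
      rw [integral_exp_mul_complex (mul_ne_zero (mul_ne_zero I_ne_zero k0)
        (sub_ne_zero.2 (by exact_mod_cast Ne.symm H))), show I * κ * (j - k) * P =
          ((j - k : ℤ) : ℂ) * (2 * π * I) by
            have : (κ : ℂ) * P = 2 * π := by exact_mod_cast hκ
            push_cast; linear_combination (j - k) * I * this, exp_int_mul_two_pi_mul_I]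
      simp
  have := (this.mul_left (P : ℂ)⁻¹).tsum_eq
  simpa only [inv_mul_cancel_left₀ P0, mul_zero, Phi] using this

variable {T : ℝ} (hT : 0 < T)
include hT

lemma mod_gen : I * (π / (2 * T)) * om T = -om (π ^ 2 / (4 * T)) + π * I ∧
    I * (π / (2 * T)) * (π * I) = -(2 * (π ^ 2 / (4 * T) : ℝ)) := by
  have : (T : ℂ) ≠ 0 := by exact_mod_cast hT.ne'
  simp only [om]
  push_cast
  constructor <;> field_simp
  · linear_combination 4 * π * I_mul_I
  · rw [I_sq]; ring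

lemma mod_mem {ξ : ℂ} (h : ξ ∉ Lat (om T)) : I * (π / (2 * T)) * ξ ∉ Lat (om (π ^ 2 / (4 * T))) := by
  intro e
  obtain ⟨m, n, e⟩ := mem_Lat.1 e
  have : (T : ℂ) ≠ 0 := by exact_mod_cast hT.ne'
  have p : (π : ℂ) ≠ 0 := by exact_mod_cast Real.pi_ne_zero
  refine h (mem_Lat.2 ⟨m + 2 * n, -m - n, mul_left_cancel₀ (a := I * (π / (2 * T)))
    (by simp [*]) ?_⟩)
  rw [← e]
  have := mod_gen hT
  rw [show (2 * (π ^ 2 / (4 * T) : ℝ) : ℂ) = 2 * om (π ^ 2 / (4 * T)) - π * I by rw [om]; ring] at this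
  push_cast
  linear_combination (m + 2 * n) * this.1 + (-m - n) * this.2

lemma La_mod {ξ : ℂ} (h : ξ ∉ Lat (om T)) : La (om T) ξ =
    I * (π / (2 * T)) * La (om (π ^ 2 / (4 * T))) (I * (π / (2 * T)) * ξ) + 2 * ξ / T := by
  have t0 : (T : ℂ) ≠ 0 := by exact_mod_cast hT.ne'
  have p : (π : ℂ) ≠ 0 := by exact_mod_cast Real.pi_ne_zero
  have hT' : 0 < π ^ 2 / (4 * T) := by positivity
  have k0 : I * (π / (2 * T)) ≠ 0 := by simp [*]
  have an (s) (hs : s ∉ Lat (om T)) : AnalyticAt ℂ (fun ξ => La (om T) ξ - I * (π / (2 * T)) *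
      La (om (π ^ 2 / (4 * T))) (I * (π / (2 * T)) * ξ) - 2 * ξ / T) s :=
    ((an_La (hom hT) hs).sub (analyticAt_const.mul (AnalyticAt.comp_of_eq (an_La (hom hT')
      (mod_mem hT hs)) (f := fun ξ => I * (π / (2 * T)) * ξ) (by fun_prop) rfl))).sub (by fun_prop)
  obtain ⟨c, hc⟩ := liou1 (hom hT) (per_of_gen (fun s => (ev_n0 (hom hT) s).mono fun z hz => by
      rw [La_om (hom hT) hz, mul_add, (mod_gen hT).1, ← add_assoc, La_pi, ← neg_neg (_ + -_), neg_add,
        neg_neg, add_comm (-_), ← sub_eq_add_neg, La_neg (hom hT') (fun e => mod_mem hT hz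
          (by simpa using sub_mem om_mem e)), La_sub hT' (mod_mem hT hz), om]
      field_simp; ring) fun s => (ev_n0 (hom hT) s).mono fun z hz => by
      have := La_two hT' (mt (add_mem_cancel_right (neg_mem two_mem)).1 (mod_mem hT hz))
      rw [neg_add_cancel_right] at this
      rw [La_pi, mul_add, (mod_gen hT).2, this]
      field_simp; ring) (fun s hs => .of (an s hs)) ((((ok_La'' (hom hT) 0 0).sub
        ((ok_La'' (hom hT') 0 _).aff (l := 0) k0)).sub
          (.of (D := fun z => z * (2 * z / T)) (by fun_prop))).congr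
            (.of_forall fun z => by simp only [mul_zero, add_zero, sub_zero]; ring))
  have a := Cod.val (hc ξ) (an _ h).continuousAt
  have b := Cod.val (hc (-ξ)) (an _ (mt neg_mem_iff.1 h)).continuousAt
  simp only [mul_neg, La_neg (hom hT) h, La_neg (hom hT') (mod_mem hT h)] at b
  linear_combination (a - b) / 2

lemma Lp_mod {ξ : ℂ} (h : ξ ∉ Lat (om T)) : Lp (om T) ξ = I * (π / (2 * T)) *
    (Lp (om (π ^ 2 / (4 * T))) (I * (π / (2 * T)) * ξ) * (I * (π / (2 * T)))) + 2 / T := by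
  refine (hd_La (hom hT) h).unique (HasDerivAt.congr_of_eventuallyEq ?_
    ((ev_U (hom hT) h).mono fun z hz => La_mod hT hz))
  have := HasDerivAt.comp (h₂ := La _) ξ (hd_La (hom (by positivity)) (mod_mem hT h))
    ((hasDerivAt_id' ξ).const_mul (I * (π / (2 * T))))
  exact ((this.const_mul _).add (((hasDerivAt_id' ξ).const_mul 2).div_const _)).congr_deriv
    (by ring)

lemma La_str {ξ Q : ℂ} (h : ξ ∉ Lat (om T)) (hQ : Q = -exp (-(π ^ 2 / (2 * T) : ℝ))) :
    La (om T) ξ = -(I * (π / (2 * T))) * (1 + fr Q (exp (I * (π / T : ℝ) * ξ)) -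
      fr Q (Q * exp (-(I * (π / T : ℝ)) * ξ))) + 2 * ξ / T ∧
    Lp (om T) ξ = (π / (2 * T)) ^ 2 * (fs Q (exp (I * (π / T : ℝ) * ξ)) +
      fs Q (Q * exp (-(I * (π / T : ℝ)) * ξ))) + 2 / T := by
  have hT' : 0 < π ^ 2 / (4 * T) := by positivity
  have hQ' : exp (-2 * om (π ^ 2 / (4 * T))) = Q := by
    rw [Q_om, hQ]; push_cast; congr 2; ring
  have a := La_neg (hom hT') (mod_mem hT h)
  have b := Lp_neg (hom hT') (mod_mem hT h)
  rw [La, hQ'] at a
  rw [Lp, hQ'] at b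
  rw [show -2 * -(I * (π / (2 * T)) * ξ) = I * (π / T : ℝ) * ξ by push_cast; ring,
    show 2 * -(I * (π / (2 * T)) * ξ) = -(I * (π / T : ℝ)) * ξ by push_cast; ring] at a b
  rw [La_mod hT h, Lp_mod hT h, ← b, a]
  generalize fs Q (exp _) = s₁, fs Q (Q * _) = s₂
  exact ⟨by ring, by linear_combination -(π / (2 * T)) ^ 2 * (s₁ + s₂) * I_mul_I⟩

omit hT

lemma ev_of {U : Set ℂ} {s : ℂ} {p : ℂ → Prop} (hU : IsOpen U) (hs : s ∈ U) (h : ∀ z ∈ U, p z) :
    ∀ᶠ z in 𝓝[≠] s, p z := mem_of_superset (nhdsWithin_le_nhds (hU.mem_nhds hs)) h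

lemma strip_open : IsOpen {z : ℂ | 0 < z.im ∧ z.im < π / 2} :=
  (isOpen_lt continuous_const continuous_im).inter (isOpen_lt continuous_im continuous_const)

lemma strip_conn : IsPreconnected {z : ℂ | 0 < z.im ∧ z.im < π / 2} :=
  ((convex_halfSpace_im_gt 0).inter (convex_halfSpace_im_lt _)).isPreconnected

variable {b a e : ℝ} {f P : ℂ → ℂ}

lemma Surf.int_f (h : Surf T b a e f P) : ∫ s in (0 : ℝ)..2 * T, f (s + π / 4 * I) = 0 := by
  have n (s : ℝ) : (s : ℂ) + π / 4 * I ∉ Lat (om T) :=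
    nmB (by simp [Real.pi_pos]) (by simp; linarith [Real.pi_pos])
  have c : Continuous fun s : ℝ => f (s + π / 4 * I) := continuous_iff_continuousAt.2 fun s =>
    ContinuousAt.comp (f := fun s : ℝ => (s : ℂ) + π / 4 * I)
      (an_of (hom h.pos) h.hol (n s)).continuousAt (by fun_prop)
  have c' : Continuous fun s : ℝ => f ((2 * T - s : ℝ) + π / 4 * I) := c.comp (by fun_prop)
  have := intervalIntegral.integral_eq_sub_of_hasDerivAt (a := 0) (b := 2 * T)
    (f := fun s : ℝ => P (s + π / 4 * I))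
    (f' := fun s : ℝ => (f (s + π / 4 * I) + f ((2 * T - s : ℝ) + π / 4 * I)) / 2)
    (fun s _ => (h.curve ((hasDerivAt_id (s : ℂ)).comp_ofReal.add_const _) (n s)).congr_deriv (by
      rw [mul_one, mul_one, id, ← h.cnj _ (mt neg_mem_iff.1 (n s)), ← h.per _ two_mem _
        (conj_nm (mt neg_mem_iff.1 (n s)))]
      congr 3
      simp [map_ofNat]; ring)) (((c.add c').div_const 2).intervalIntegrable _ _)
  rw [intervalIntegral.integral_div, intervalIntegral.integral_add (c.intervalIntegrable _ _)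
    (c'.intervalIntegrable _ _), intervalIntegral.integral_comp_sub_left
      (fun s : ℝ => f (s + π / 4 * I)), ← h.Pper _ two_mem _ (n 0), sub_self, sub_zero,
    show ((2 * T : ℝ) : ℂ) + π / 4 * I = (0 : ℝ) + π / 4 * I + 2 * T by push_cast; ring] at this
  linear_combination this

lemma Surf.phi (h : Surf T b (2 * T - 2 * b) 4 f P) :
    Phi (π ^ 2 / (2 * T) : ℝ) (π * (T - b) / T : ℝ) = 0 := by
  have hT := h.pos
  have t0 : (T : ℂ) ≠ 0 := by exact_mod_cast hT.ne'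
  have hl : 0 < π ^ 2 / (2 * T) := by positivity
  have y0 : 0 < π / T := by positivity
  have d (ξ) (hξ : ξ ∈ {z : ℂ | 0 < z.im ∧ z.im < π / 2}) := (hd_gen hl (π * (T - b) / T) 1
    (I * (π / T : ℝ)) ξ one_ne_zero (by
      rw [one_mul, norm_exp, Real.exp_lt_one_iff]
      simpa using mul_pos y0 hξ.1)).mul (hd_gen hl (-(π * (T - b) / T))
      (-exp (-(π ^ 2 / (2 * T) : ℝ))) (-(I * (π / T : ℝ))) ξ (by simp) (by
      rw [neg_mul, norm_neg, ← exp_add, norm_exp, Real.exp_lt_one_iff]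
      have := mul_lt_mul_of_pos_left hξ.2 y0
      rw [show π / T * (π / 2) = π ^ 2 / (2 * T) by ring] at this
      simpa [-ofReal_div] using this))
  have m (s : ℝ) : (s : ℂ) + π / 4 * I ∈ {z : ℂ | 0 < z.im ∧ z.im < π / 2} :=
    ⟨by simp [Real.pi_pos], by simp; linarith [Real.pi_pos]⟩
  have nb {ξ} (hξ : ξ ∈ {z : ℂ | 0 < z.im ∧ z.im < π / 2}) : ξ - b ∉ Lat (om T) :=
    nmB (by simpa using hξ.1) (by simpa using hξ.2)
  have nz := h.nz _ (nmB (m 0).1 (m 0).2) (nb (m 0))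
  have k (s : ℝ) := ode_eq strip_open strip_conn
    (fun ξ hξ => (d ξ hξ).differentiableAt.differentiableWithinAt)
    (h.hol.mono fun ξ hξ => nmB hξ.1 hξ.2) (m 0) nz
    (ev_of strip_open (m 0) fun ξ hξ => by
      have n := nmB (T := T) hξ.1 hξ.2
      have w (σ : ℂ) (hσ : σ * σ = 1) : exp (σ * (I * (π / T : ℝ)) * (ξ - b)) =
          exp (σ * (I * (π / T : ℝ)) * ξ) * -exp (I * (σ * (π * (T - b) / T : ℝ))) := by
        rw [mul_neg, ← exp_add, ← exp_sub_pi_mul_I, exp_eq_exp_iff_exists_int]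
        rcases mul_self_eq_one_iff.1 hσ with rfl | rfl
        exacts [⟨0, by push_cast; field_simp; ring⟩, ⟨1, by push_cast; field_simp; ring⟩]
      have w1 := w 1 (by ring)
      have w2 := w (-1) (by ring)
      rw [(d ξ hξ).deriv, h.ode _ n (nb hξ), (La_str hT n rfl).1, (La_str hT (nb hξ) rfl).1,
        (La_str hT n rfl).2]
      simp only [one_mul, neg_one_mul, ← ofReal_neg, Pi.mul_apply] at w1 w2 ⊢
      rw [w1, w2, ← mul_assoc (-exp _)]
      generalize gen _ _ = g₁, gen _ _ = g₂, fr _ _ = r₁, fr _ _ = r₂, fr _ _ = r₃, fr _ _ = r₄,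
        fs _ _ = s₁, fs _ _ = s₂
      push_cast
      field_simp
      linear_combination π ^ 2 * g₁ * g₂ * f ξ * (T - b) * (s₁ + s₂) * I_mul_I) (m s)
  refine int_gen hl _ (P := 2 * T) (κ := π / T) (by positivity) (by field_simp)
    (mul_right_cancel₀ nz ?_)
  rw [← intervalIntegral.integral_mul_const, zero_mul]
  refine (intervalIntegral.integral_congr fun s _ => Eq.trans ?_ (k s)).trans (by
    rw [intervalIntegral.integral_const_mul, h.int_f, mul_zero])
  have e : (-(π ^ 2 / (2 * T) : ℝ) / 2 : ℂ) = I * (π / T : ℝ) * (π / 4 * I) := by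
    push_cast; linear_combination -(π : ℂ) ^ 2 / (4 * T) * I_mul_I
  simp only [Pi.mul_apply, one_mul, neg_mul, ← exp_add]
  congr 5
  · rw [e]; ring
  · linear_combination -e

theorem Surf.sol (h : Surf T b (2 * T - 2 * b) 4 f P) :
    Sol (π ^ 2 / (2 * T)) (π * (T - b) / T) := by
  have hT := h.pos
  have p := Real.pi_pos
  have t0 : (T : ℂ) ≠ 0 := by exact_mod_cast hT.ne'
  have p0 : (π : ℂ) ≠ 0 := by exact_mod_cast p.ne'
  refine ⟨by have := sub_pos.2 h.hT; positivity, (div_lt_iff₀ hT).2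
    (by nlinarith [h.half, Real.pi_lt_d2]), h.phi, fun x h0 h3 => ?_⟩
  have m : T * (π - x) / π ∈ Ioc 0 T := ⟨by
    have : 0 < π - x := by linarith [Real.pi_gt_three]
    positivity, (div_le_iff₀ p).2 (by nlinarith)⟩
  have e : Lp (om T) (T * (π - x) / π : ℝ) =
      (2 * Real.exp (-(x * (2 * T / π))) : ℝ) * Vh (π ^ 2 / (2 * T) : ℝ) x := by
    have s : (π : ℂ) * (((π ^ 2 / (2 * T) : ℝ) : ℂ))⁻¹ = 2 * T / π := by push_cast; field_simp
    rw [Lp, Vh, s, Q_om, fs_fd, fs_fd, ofReal_exp, neg_mul (exp _), ← exp_add,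
      show exp (-2 * ((T * (π - x) / π : ℝ) : ℂ)) = exp (-((π - x) * (2 * T / π))) by
        congr 1; push_cast; ring,
      show ((-2 * T : ℝ) : ℂ) + 2 * (T * (π - x) / π : ℝ) = -(x * (2 * T / π)) by
        push_cast; field_simp; ring,
      show ((-2 * T : ℝ) : ℂ) = -(π * (2 * T / π)) by push_cast; field_simp,
      show exp (-((π - x) * (2 * T / π : ℂ))) = exp (-(x * (2 * T / π))) *
        exp (-((π - 2 * x) * (2 * T / π))) by rw [← exp_add]; congr 1; ring]
    push_cast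
    ring
  have e' := congrArg re e
  rw [re_ofReal_mul] at e'
  have z : 0 < 2 * Real.exp (-(x * (2 * T / π))) := by positivity
  have hb : b ∈ Ioc 0 T := ⟨h.hb, h.hT.le⟩
  constructor <;> intro H
  · have := ((Lp_mono hT).lt_iff_lt hb m).1 (by simp only [h.zero, e']; exact mul_pos z H)
    rw [lt_div_iff₀ p] at this
    rw [lt_div_iff₀ hT]; linarith
  · have := ((Lp_mono hT).lt_iff_lt m hb).1
      (by simp only [h.zero, e']; exact mul_neg_of_pos_of_neg z H)
    rw [div_lt_iff₀ p] at this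
    rw [div_lt_iff₀ hT]; linarith

end Pool.Agent.MP_c434f6_gt

end
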