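import Pool.Agent.MP_c434f6_gt.Rhomb
import Pool.Agent.MP_c434f6_gt.Defs

-- part MP_c434f6_gt.NF
section

/-! Reduction of a symmetric surface to the normal form. -/

open Complex Filter Topology Set
open scoped Real ComplexConjugate

namespace Pool.Agent.MP_c434f6_gt

lemma re_ext {a b : ℂ} (h : ∀ v, (a * v).re = (b * v).re) : a = b :=
  Complex.ext (by simpa using h 1) (by simpa using h I)

variable {Λ : Set ℂ} {X : ℂ → EuclideanSpace ℝ (Fin 3)} {φ : Fin 3 → ℂ → ℂ} {ω z : ℂ}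

lemma Hel.chain (h : Hel Λ X φ) {τ : ℂ → ℂ} {D : ℂ →L[ℝ] ℂ} (hτ : HasFDerivAt τ D z) (hz : z ∉ Λ)
    (hz' : τ z ∉ Λ) (j) (ε d : ℝ) (e : ∀ᶠ w in 𝓝 z, X (τ w) j = ε * X w j + d) (v : ℂ) :
    (φ j (τ z) * D v).re = (ε * φ j z * v).re := by
  have := ((h.der j _ hz').comp z hτ).unique
    ((((h.der j z hz).const_mul ε).add_const d).congr_of_eventuallyEq e)
  simpa [mul_assoc, -mul_re, re_ofReal_mul] using DFunLike.congr_fun this v

lemma Hel.scale (h : Hel Λ X φ) {μ : ℂ} (hμ : μ ≠ 0) {Λ' : Set ℂ} (e : ∀ z, z ∈ Λ' ↔ μ * z ∈ Λ) :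
    Hel Λ' (fun z => X (μ * z)) fun j z => μ * φ j (μ * z) := by
  have t : Tendsto (fun z => μ * z) (𝓝[≠] 0) (𝓝[≠] 0) := by simpa using tend_aff hμ 0 0
  have o {F : ℂ → ℂ} (hF : F =O[𝓝[≠] 0] fun z => (z ^ 2)⁻¹) :
      (fun z => μ * F (μ * z)) =O[𝓝[≠] 0] fun z => (z ^ 2)⁻¹ :=
    ((hF.comp_tendsto t).trans (by
      simpa [Function.comp_def, mul_pow, mul_comm] using
        Asymptotics.isBigO_const_mul_self (μ ^ 2)⁻¹ (fun z : ℂ => (z ^ 2)⁻¹) _)).const_mul_left μ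
  refine ⟨fun j => ((h.hol j).comp (by fun_prop) fun z hz => mt (e z).2 hz).const_mul μ,
    fun j z hz => ((h.der j _ (mt (e z).2 hz)).comp z
      (((hasFDerivAt_id (𝕜 := ℝ) z).const_mul μ))).congr_fderiv (by ext; simp; ring),
    fun z hz => by linear_combination μ ^ 2 * h.conf _ (mt (e z).2 hz),
    fun z hz => (h.imm _ (mt (e z).2 hz)).imp fun j => mul_ne_zero hμ,
    fun z hz w hw => by rw [h.emb _ (mt (e z).2 hz) _ (mt (e w).2 hw), e, mul_sub],
    h.proper.comp t, ?_, o h.dh, (o h.dg).congr_left fun z => ?_⟩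
  · obtain ⟨z, h1, h2⟩ := h.nonflat
    exact ⟨z / μ, by rwa [e, mul_div_cancel₀ _ hμ], by
      rw [mul_div_cancel₀ _ hμ]; exact mul_ne_zero hμ h2⟩
  · simp only [mul_left_comm I μ, ← mul_sub, mul_div_mul_left _ _ hμ, logDeriv_apply]
    rw [deriv_comp_mul_left (f := fun z => φ 2 z / (φ 0 z - I * φ 1 z)), smul_eq_mul, mul_div_assoc]

lemma ok_two {D : ℂ → ℂ} (hd : ∀ᶠ z in 𝓝[≠] 0, DifferentiableAt ℂ D z)
    (h : D =O[𝓝[≠] 0] fun z => (z ^ 2)⁻¹) : Ok (fun z => z * (z * D z)) 0 :=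
  .of_bdd (hd.mono fun z hz => by fun_prop) (((Asymptotics.isBigO_refl (fun z : ℂ => z ^ 2) _).mul
    h).congr' (.of_forall fun z => by ring) (eventually_mem_nhdsWithin.mono fun z (hz : z ≠ 0) =>
      mul_inv_cancel₀ (pow_ne_zero 2 hz)) |>.trans (Asymptotics.isBigO_const_one ..))

section
variable (hω : 0 < ω.re) (h : Hel (Lat ω) X φ)
include hω h

omit hω in
lemma Hel.Xper {l : ℂ} (hl : l ∈ Lat ω) (hz : z ∉ Lat ω) : X (z + l) = X z :=
  (h.emb _ (mt (add_mem_cancel_right hl).1 hz) _ hz).2 (by simpa using hl)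

lemma Hel.per (j) {l : ℂ} (hl : l ∈ Lat ω) (hz : z ∉ Lat ω) : φ j (z + l) = φ j z :=
  re_ext fun v => by
    simpa using h.chain ((hasFDerivAt_id z).add_const l) hz (mt (add_mem_cancel_right hl).1 hz) j 1 0
      ((ev_U hω hz).mono fun w hw => by simp [h.Xper hl hw]) v

lemma Hel.an (j) (hz : z ∉ Lat ω) : AnalyticAt ℂ (φ j) z := an_of hω (h.hol j) hz

lemma Hel.dh_eq : ∃ A B, ∀ z ∉ Lat ω, φ 2 z = A * Lp ω z + B := by
  obtain ⟨A, B, e⟩ := liou2 hω (D := φ 2) (fun l hl s => (ev_n0 hω s).mono fun z => h.per hω 2 hl)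
    (fun s hs => .of (h.an hω 2 hs))
    (ok_two ((ev_n0 hω 0).mono fun z hz => (h.an hω 2 hz).differentiableAt) h.dh)
  exact ⟨A, B, fun z hz => sub_eq_zero.1 (Cod.val (D := fun z => φ 2 z - (A * Lp ω z + B))
    ((e z).mono fun _ => sub_eq_zero.2) ((h.an hω 2 hz).sub
      ((analyticAt_const.mul (an_Lp hω hz)).add analyticAt_const)).continuousAt)⟩

variable {c₁ c₂ : ℝ} (hQ : ∀ z, La ω (conj z) = conj (La ω z))
  (hL : ∀ z ∉ Lat ω, conj z ∉ Lat ω) (hs : ∀ z ∉ Lat ω, X (-conj z) = rot c₁ c₂ (X z))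
include hL hs

lemma Hel.cnj (hz : z ∉ Lat ω) : conj (φ 0 (-conj z)) = φ 0 z ∧ conj (φ 1 (-conj z)) = φ 1 z ∧
    conj (φ 2 (-conj z)) = -φ 2 z := by
  have k (j) (ε d : ℝ) (e : ∀ p, rot c₁ c₂ p j = ε * p j + d) :
      conj (φ j (-conj z)) = -ε * φ j z := re_ext fun v => by
    have := h.chain (τ := fun z => -conj z) conjCLE.hasFDerivAt.neg hz (mt neg_mem_iff.1 (hL z hz))
      j ε d ((ev_U hω hz).mono fun w hw => by rw [hs w hw, e]) v
    simp at this ⊢
    linarith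
  exact ⟨by simpa using k 0 (-1) (2 * c₁) fun p => by simp [rot]; ring,
    by simpa using k 1 (-1) (2 * c₂) fun p => by simp [rot]; ring,
    by simpa using k 2 1 0 fun p => by simp [rot]⟩

include hQ in
lemma Hel.height : ∃ κ d : ℝ, κ ≠ 0 ∧ ∀ z ∉ Lat ω,
    φ 2 z = I * κ * Lp ω z ∧ X z 2 = d - κ * (La ω z).im := by
  obtain ⟨A, B, e⟩ := h.dh_eq hω
  obtain ⟨b, hb, -⟩ := exists_zero hω
  have hP (z) (hz : z ∉ Lat ω) : conj (Lp ω (-conj z)) = Lp ω z := by
    have := (hd_La hω (hL z hz)).conj_conj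
    rw [conj_conj, show conj ∘ La ω ∘ conj = La ω from funext fun z => by simp [hQ]] at this
    rw [Lp_neg hω (hL z hz), this.unique (hd_La hω hz)]
  have k (z) (hz : z ∉ Lat ω) : (A + conj A) * Lp ω z = -(B + conj B) := by
    have := (h.cnj hω hL hs hz).2.2
    rw [e _ hz, e _ (mt neg_mem_iff.1 (hL z hz)), map_add, map_mul, hP z hz] at this
    linear_combination this
  have hA := Lp_ne hω _ _ ((ev_n0 hω 0).mono k)
  have hB := k b hb
  have d (z) (hz : z ∉ Lat ω) : HasFDerivAt (fun z => X z 2 - (A * La ω z + B * z).re)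
      (0 : ℂ →L[ℝ] ℝ) z :=
    ((h.der 2 z hz).sub (reCLM.hasFDerivAt.comp z ((((hd_La hω hz).const_mul A).add
      ((hasDerivAt_id' z).const_mul B)).hasFDerivAt.restrictScalars ℝ))).congr_fderiv (by
        ext; simp [e z hz]; ring)
  have c {z} (hz : z ∉ Lat ω) := (open_U hω).is_const_of_fderiv_eq_zero (𝕜 := ℝ) conn_U
    (fun z hz => (d z hz).differentiableAt.differentiableWithinAt) (fun z hz => (d z hz).fderiv) hz hb
  have p := c (mt (add_mem_cancel_right pi_mem).1 hb)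
  rw [hA, zero_mul, eq_comm, neg_eq_zero, add_conj, ofReal_eq_zero] at hB
  rw [add_conj, ofReal_eq_zero] at hA
  have a : A = I * A.im := Complex.ext (by simpa using hA) (by simp)
  obtain rfl : B = 0 := Complex.ext (by simpa using hB) (by
    simpa [h.Xper pi_mem hb, La_pi, mul_add] using p)
  obtain ⟨z, z1, z2⟩ := h.nonflat
  refine ⟨A.im, X b 2 - (A * La ω b + 0 * b).re, fun H => z2 (by rw [e z z1, a, H]; simp),
    fun z hz => ⟨by rw [e z hz, ← a, add_zero], ?_⟩⟩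
  rw [← c hz, a]
  simp

end

lemma no_rect {T c₁ c₂ : ℝ} (hT : 0 < T) (h : Hel (Lat T) X φ)
    (hs : ∀ z ∉ Lat T, X (-conj z) = rot c₁ c₂ (X z)) : False := by
  have hQ (z) : La T (conj z) = conj (La T z) := by
    simp only [La, fr, rr, conj_tsum, ← exp_conj, map_ofNat, map_sub, map_add, map_mul,
      map_div₀, map_neg, map_pow, map_one, conj_ofReal]
  obtain ⟨κ, d, -, e⟩ := h.height (by simpa using hT) hQ (fun z hz H => hz (by
    obtain ⟨m, k, e⟩ := mem_Lat.1 H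
    exact mem_Lat.2 ⟨m, -k, by simpa using congrArg conj e⟩)) hs
  have n (t : ℝ) : ((T / 2 : ℝ) : ℂ) + t * I ∉ Lat T := fun H => by
    obtain ⟨m, k, e⟩ := mem_Lat.1 H
    have : ((2 * m : ℤ) : ℝ) = (1 : ℤ) := mul_right_cancel₀ hT.ne' (by
      have := congrArg re e
      simp at this ⊢
      linarith)
    norm_cast at this
    omega
  have k (t : ℝ) : X ((T / 2 : ℝ) + t * I) 0 = c₁ ∧ X ((T / 2 : ℝ) + t * I) 1 = c₂ := by
    have := hs _ (n t)
    rw [show -conj (((T / 2 : ℝ) : ℂ) + t * I) = (T / 2 : ℝ) + t * I + -T by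
      simp only [map_add, map_mul, conj_ofReal, conj_I]; push_cast; ring,
      h.Xper (neg_mem om_mem) (n t)] at this
    have a := congrArg (· 0) this
    have b := congrArg (· 1) this
    simp only [rot, Matrix.cons_val_zero, Matrix.cons_val_one, PiLp.toLp_apply] at a b
    constructor <;> linarith
  have i (t : ℝ) (ht : t = 0 ∨ t = π / 2) : (La T ((T / 2 : ℝ) + t * I)).im = 0 := by
    rw [← conj_eq_iff_im, ← hQ]
    rcases ht with rfl | rfl
    · rw [ofReal_zero, zero_mul, add_zero, conj_ofReal]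
    · rw [← La_pi]
      congr 1
      simp only [map_add, map_mul, conj_ofReal, conj_I]; push_cast; ring
  obtain ⟨m, l, H⟩ := mem_Lat.1 ((h.emb _ (n (π / 2)) _ (n 0)).1 (by
    ext j
    fin_cases j
    exacts [(k _).1.trans (k _).1.symm, (k _).2.trans (k _).2.symm, by
      simp only [Fin.reduceFinMk, (e _ (n _)).2, i _ (.inl rfl), i _ (.inr rfl)]]))
  have : ((2 * l : ℤ) : ℝ) = (1 : ℤ) := mul_right_cancel₀ Real.pi_ne_zero (by
    have := congrArg im H
    simp at this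
    push_cast
    linarith)
  norm_cast at this
  omega

variable {T c₁ c₂ b : ℝ} (hT : 0 < T) (h : Hel (Lat (om T)) X φ)
  (hs : ∀ z ∉ Lat (om T), X (-conj z) = rot c₁ c₂ (X z))
include hT h hs

/-- The normal form, when the zero of the Gauss map is at `b`. -/
lemma Hel.surf (b0 : 0 < b) (b1 : b < T) (hb : Lp (om T) b = 0) (hF : φ 0 b + I * φ 1 b = 0) :
    ∃ a e f P, Surf T b a e f P ∧ ∃ (c : ℂ) (κ d : ℝ), κ ≠ 0 ∧ ‖c‖ = |κ| ∧ ∀ z ∉ Lat (om T),
      X z 0 + X z 1 * I = c₁ + c₂ * I - c * P z ∧ X z 2 = d - κ * (La (om T) z).im := by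
  have hω := hom hT
  obtain ⟨κ, d, κ0, e3⟩ := h.height hω La_conj (fun _ => conj_nm) hs
  obtain ⟨F, eF⟩ : ∃ F : ℂ → ℂ, F = fun z => -(φ 0 z + I * φ 1 z) := ⟨_, rfl⟩
  obtain ⟨G, eG⟩ : ∃ G : ℂ → ℂ, G = fun z => φ 0 z - I * φ 1 z := ⟨_, rfl⟩
  have ng {z} (hz : z ∉ Lat (om T)) : -z ∉ Lat (om T) := mt neg_mem_iff.1 hz
  have aF {z} (hz : z ∉ Lat (om T)) : AnalyticAt ℂ F z :=
    eF ▸ ((h.an hω 0 hz).add (analyticAt_const.mul (h.an hω 1 hz))).neg
  have aG {z} (hz : z ∉ Lat (om T)) : AnalyticAt ℂ G z :=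
    eG ▸ (h.an hω 0 hz).sub (analyticAt_const.mul (h.an hω 1 hz))
  have FG (z) (hz : z ∉ Lat (om T)) : F z * G z = -κ ^ 2 * Lp (om T) z ^ 2 := by
    have := h.conf z hz
    rw [(e3 z hz).1] at this
    simp only [eF, eG]
    linear_combination -this + (φ 1 z ^ 2 + κ ^ 2 * Lp (om T) z ^ 2) * I_sq
  have cF (z) (hz : z ∉ Lat (om T)) : conj (F (-conj z)) = -G z := by
    obtain ⟨a, b, -⟩ := h.cnj hω (fun _ => conj_nm) hs hz
    simp [eF, eG, a, b, sub_eq_add_neg, add_comm]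
  have pF {l z} (hl : l ∈ Lat (om T)) (hz : z ∉ Lat (om T)) : F (z + l) = F z := by
    simp only [eF, h.per hω _ hl hz]
  have pG {l z} (hl : l ∈ Lat (om T)) (hz : z ∉ Lat (om T)) : G (z + l) = G z := by
    simp only [eG, h.per hω _ hl hz]
  have nb := nmP b0 (show b < 2 * T by linarith)
  have im (z) (hz : z ∉ Lat (om T)) (h1 : F z = 0) (h2 : G z = 0) : False := by
    obtain ⟨j, hj⟩ := h.imm z hz
    simp only [eF, eG] at h1 h2
    have a : φ 0 z = 0 := by linear_combination (h2 - h1) / 2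
    have b : φ 1 z = 0 := by linear_combination I * (h1 + h2) / 2 + φ 1 z * I_sq
    have c := h.conf z hz
    rw [a, b] at c
    fin_cases j
    exacts [hj a, hj b, hj (by simpa using c)]
  have Fb : F b = 0 := by rw [eF]; exact neg_eq_zero.2 hF
  have Gb : G (-b) = 0 := by simpa [Fb] using cF _ (ng nb)
  have k0 : (κ : ℂ) ≠ 0 := ofReal_ne_zero.2 κ0
  have L0 (z) (hz : z ∉ Lat (om T)) (H : F z * G z = 0) : z - b ∈ Lat (om T) ∨ z + b ∈ Lat (om T) :=
    deg2 hω nb hz (by simpa [FG z hz, k0, hb] using H)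
  have nF (z) (hz : z ∉ Lat (om T)) (H : z - b ∉ Lat (om T)) : F z ≠ 0 := fun e =>
    (L0 z hz (by simp [e])).elim H fun H => im z hz e (by simpa [Gb] using pG H (ng nb))
  have nG (z) (hz : z ∉ Lat (om T)) (H : z - -b ∉ Lat (om T)) : G z ≠ 0 := fun e =>
    (L0 z hz (by simp [e])).elim (fun H => im z hz (by simpa [Fb] using pF H nb) e)
      (by simpa using H)
  have id1 : Cod fun z => deriv F z / F z - 2 * La (om T) (z - b) + 2 * La (om T) z =
      2 * La (om T) (z - -b) - 2 * La (om T) z - deriv G z / G z ∧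
      logDeriv (fun z => φ 2 z / (φ 0 z - I * φ 1 z)) z - La (om T) (z - b) + La (om T) (z - -b) =
      deriv F z / F z - 2 * La (om T) (z - b) + 2 * La (om T) z := fun s => by
    filter_upwards [ev_n0 hω s, ev_nm hω s b, ev_nm hω s (-b), Ia hω nb s] with z h1 h2 h3 h4
    have f0 := nF z h1 h2
    have g0 := nG z h1 h3
    have m := FG z h1
    have l0 : Lp (om T) z ≠ 0 := fun e => mul_ne_zero f0 g0 (by simp [m, e])
    have dL := (an_Lp hω h1).differentiableAt.hasDerivAt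
    have d1 := (((aF h1).differentiableAt.hasDerivAt.fun_mul (aG h1).differentiableAt.hasDerivAt)
      |>.congr_of_eventuallyEq ((ev_U hω h1).mono fun z hz => (FG z hz).symm)).unique
        ((dL.fun_pow 2).const_mul _)
    have d2 : deriv (φ 2) z = I * κ * deriv (Lp (om T)) z :=
      ((dL.const_mul _).congr_of_eventuallyEq ((ev_U hω h1).mono fun z hz => (e3 z hz).1)).deriv
    have d3 : deriv F z / F z + deriv G z / G z = 2 * (deriv (Lp (om T)) z / Lp (om T) z) := by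
      field_simp
      simp at d1
      linear_combination Lp (om T) z * d1 - 2 * deriv (Lp (om T)) z * m
    rw [show (fun z => φ 2 z / (φ 0 z - I * φ 1 z)) = fun z => φ 2 z / G z by rw [eG],
      logDeriv_div z (by simp [(e3 z h1).1, *]) g0 (h.an hω 2 h1).differentiableAt
        (aG h1).differentiableAt, logDeriv_apply, logDeriv_apply, d2, (e3 z h1).1,
      mul_div_mul_left _ _ (mul_ne_zero I_ne_zero k0)]
    rw [hb, sub_zero, mul_comm, ← eq_div_iff l0] at h4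
    exact ⟨by linear_combination d3 - 2 * h4, by linear_combination -d3 + h4⟩
  have aD {s} (hs : s ∉ Lat (om T)) (H : s - b ∉ Lat (om T)) : AnalyticAt ℂ
      (fun z => deriv F z / F z - 2 * La (om T) (z - b) + 2 * La (om T) z) s :=
    (((aF hs).deriv.div (aF hs) (nF s hs H)).sub (analyticAt_const.mul
      (an_shift (fun _ => an_La hω) H))).add (analyticAt_const.mul (an_La hω hs))
  have aD' {s} (hs : s ∉ Lat (om T)) (H : s - -b ∉ Lat (om T)) : AnalyticAt ℂ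
      (fun z => 2 * La (om T) (z - -b) - 2 * La (om T) z - deriv G z / G z) s :=
    ((analyticAt_const.mul (an_shift (fun _ => an_La hω) H)).sub
      (analyticAt_const.mul (an_La hω hs))).sub ((aG hs).deriv.div (aG hs) (nG s hs H))
  obtain ⟨A, B, e⟩ := liou2 hω
    (D := fun z => deriv F z / F z - 2 * La (om T) (z - b) + 2 * La (om T) z) (fun l hl s => by
      obtain ⟨r, hr⟩ := La_add hω hl
      filter_upwards [ev_n0 hω s, ev_nm hω s b] with z h1 h2
      rw [add_sub_right_comm z, hr _ h1, hr _ h2, pF hl h1, ← deriv_comp_add_const,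
        EventuallyEq.deriv_eq ((ev_U hω h1).mono fun z hz => pF hl hz)]
      ring) (fun s hs => by
      by_cases H : s - b ∈ Lat (om T)
      · exact (Ok.of (aD' hs fun H' => nmP (T := T) (x := 2 * b) (by linarith) (by linarith) (by
          convert sub_mem H' H using 1; push_cast; ring))).congr ((id1 s).mono fun z hz => hz.1.symm)
      · exact .of (aD hs H)) (by
      have t (a : ℂ) := (Ok.of (D := fun z => z) analyticAt_id).mul (ok_La'' hω a 0)
      refine (((ok_two ?_ h.dg).sub (t b)).add (t (-b))).congr ((id1 0).mono fun z hz => by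
        rw [← hz.2]; ring)
      filter_upwards [ev_n0 hω 0, ev_nm hω 0 b, ev_nm hω 0 (-b)] with z h1 h2 h3
      have a := (h.an hω 2 h1).div (aG h1) (nG z h1 h3)
      rw [eG] at a
      exact (a.deriv.div a (div_ne_zero (fun e => mul_ne_zero (nF z h1 h2) (nG z h1 h3) (by
        simpa [FG z h1, (e3 z h1).1] using e)) (by simpa [eG] using nG z h1 h3))).differentiableAt)
  have aL {s} (hs : s ∉ Lat (om T)) : AnalyticAt ℂ (fun z => A * Lp (om T) z + B) s :=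
    (analyticAt_const.mul (an_Lp hω hs)).add analyticAt_const
  have oF (z) (hz : z ∉ Lat (om T)) (H : z - b ∉ Lat (om T)) : deriv F z =
      (2 * La (om T) (z - b) - 2 * La (om T) z + A * Lp (om T) z + B) * F z := by
    rw [← div_eq_iff (nF z hz H)]
    linear_combination Cod.val ((e z).mono fun _ => sub_eq_zero.2)
      ((aD hz H).fun_sub (aL hz)).continuousAt
  have oG (z) (hz : z ∉ Lat (om T)) (H : z - -b ∉ Lat (om T)) : deriv G z =
      (2 * La (om T) (z - -b) - 2 * La (om T) z - A * Lp (om T) z - B) * G z := by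
    rw [← div_eq_iff (nG z hz H)]
    linear_combination -Cod.val (((e z).and (id1 z)).mono fun _ hz =>
      sub_eq_zero.2 (hz.2.1.symm.trans hz.1)) ((aD' hz H).fun_sub (aL hz)).continuousAt
  have oN (z) (hz : z ∉ Lat (om T)) (H : z - -b ∉ Lat (om T)) : HasDerivAt (fun z => F (-z))
      ((2 * La (om T) (z - -b) - 2 * La (om T) z - A * Lp (om T) z - B) * F (-z)) z := by
    refine ((aF (ng hz)).differentiableAt.hasDerivAt.comp z (hasDerivAt_neg z)).congr_deriv ?_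
    rw [oF _ (ng hz) (by rw [show -z - b = -(z - -b) by ring]; exact ng H),
      show -z - b = -(z - -b) by ring, La_neg hω H, La_neg hω hz, Lp_neg hω hz]
    ring
  have rl (z) (hz : z ∉ Lat (om T)) (H : z - -b ∉ Lat (om T)) :
      (A - conj A) * Lp (om T) z = conj B - B := by
    have r : conj z - -b = conj (z - -b) := by simp
    have := (oN _ (conj_nm hz) (r ▸ conj_nm H)).conj_conj
    rw [conj_conj, r, La_conj (z - -b)] at this
    have := this.unique ((aG hz).differentiableAt.hasDerivAt.neg.congr_of_eventuallyEq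
      ((ev_U hω hz).mono cF))
    simp only [La_conj, Lp_conj, map_mul, map_sub, conj_conj, map_ofNat, cF z hz, oG z hz H]
      at this
    exact mul_right_cancel₀ (nG z hz H) (by linear_combination -this)
  have hA := Lp_ne hω _ _ (((ev_n0 hω 0).and (ev_nm hω 0 (-b))).mono fun z hz => rl z hz.1 hz.2)
  have nT := nmP hT (show T < 2 * T by linarith)
  have nT1 : (T : ℂ) - b ∉ Lat (om T) := by
    exact_mod_cast nmP (sub_pos.2 b1) (show T - b < 2 * T by linarith)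
  have nT2 : (T : ℂ) - -b ∉ Lat (om T) := by
    exact_mod_cast nmP (show 0 < T - -b by linarith) (show T - -b < 2 * T by linarith)
  have hB := rl _ nT nT2
  rw [hA, zero_mul, eq_comm, sub_eq_zero, conj_eq_iff_re] at hB
  rw [sub_eq_zero, eq_comm, conj_eq_iff_re] at hA
  have FT : F (-T) = F T := by rw [← pF two_mem (ng nT)]; congr 1; ring
  have f0 := nF _ nT nT1
  have g0 := nG _ nT nT2
  have l0 : Lp (om T) T ≠ 0 := fun e => mul_ne_zero f0 g0 (by simp [FG _ nT, e])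
  have GT : G T = -conj (F T) := by rw [← FT, ← conj_ofReal T, cF _ nT, conj_ofReal, neg_neg]
  obtain ⟨c, ec⟩ : ∃ c, F T = c * Lp (om T) T := ⟨_, (div_mul_cancel₀ _ l0).symm⟩
  have c0 : c ≠ 0 := left_ne_zero_of_mul (ec ▸ f0)
  have c0' : conj c ≠ 0 := (map_ne_zero _).2 c0
  have lT : conj (Lp (om T) T) = Lp (om T) T := conj_eq_iff_im.2 (Lp_im T)
  have cc : c * conj c = κ ^ 2 := mul_right_cancel₀ (pow_ne_zero 2 l0) (by
    have := FG _ nT
    rw [GT, ec, map_mul, lT] at this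
    linear_combination -this)
  have GN (z) (hz : z ∉ Lat (om T)) : G z = -conj c * (F (-z) / c) := by
    have := ode_eq (open_U hω) conn_U (u := G) (v := fun z => F (-z))
      (fun z hz => (aG hz).differentiableAt.differentiableWithinAt)
      (fun z hz => ((aF (ng hz)).differentiableAt.comp z (by fun_prop)).differentiableWithinAt) nT
      (FT ▸ f0) (by
        filter_upwards [ev_n0 hω T, ev_nm hω T (-b)] with z h1 h2
        rw [(oN z h1 h2).deriv, oG z h1 h2]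
        ring) hz
    rw [FT, GT, ec, map_mul, lT] at this
    field_simp
    exact mul_right_cancel₀ l0 (by linear_combination this)
  have r0 (p) : rot c₁ c₂ p 0 = 2 * c₁ - p 0 ∧ rot c₁ c₂ p 1 = 2 * c₂ - p 1 := ⟨rfl, rfl⟩
  refine ⟨-A.re, B.re, fun z => F z / c, fun z => -(X z 0 + X z 1 * I - (c₁ + c₂ * I)) / c,
    ⟨b0, b1, hb, fun z hz => ((aF hz).differentiableAt.div_const c).differentiableWithinAt,
      fun l hl z hz => by simp only [pF hl hz], fun z hz => ?_, fun z hz => ?_,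
      by simp only [ec]; field_simp, fun z hz H => ?_, fun z hz H => div_ne_zero (nF z hz H) c0,
      fun z hz => ?_, fun l hl z hz => by simp only [h.Xper hl hz], fun z hz => ?_,
      fun z hz w hw h1 h2 => (h.emb z hz w hw).1 ?_, ?_⟩, c, κ, d, κ0, ?_,
    fun z hz => ⟨by field_simp; ring, (e3 z hz).2⟩⟩
  · have := FG z hz
    rw [GN z hz, ← cc] at this
    field_simp at this ⊢
    linear_combination -this
  · have := cF _ (ng (conj_nm hz))
    simp only [map_neg, neg_neg, conj_conj, GN _ (ng (conj_nm hz))] at this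
    rw [map_div₀, this]
    field_simp
  · rw [deriv_div_const, oF z hz H, ofReal_neg, hA, hB]
    ring
  · refine ((((ofRealCLM.hasFDerivAt.comp z (h.der 0 z hz)).add ((ofRealCLM.hasFDerivAt.comp z
      (h.der 1 z hz)).mul_const I)).sub_const _).neg.mul_const c⁻¹).congr_fderiv ?_
    ext1 v
    have := GN z hz
    rw [show F (-z) / c = -G z / conj c by rw [this]; field_simp]
    simp [dP, eF, eG, -mul_re, re_eq_add_conj]
    field_simp
    ring
  · simp only [hs z hz, r0]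
    push_cast
    ring
  · obtain ⟨h3, h4⟩ := Complex.ext_iff.1 ((div_left_inj' c0).1 h1)
    ext j
    fin_cases j
    exacts [by simpa using h3, by simpa using h4, by
      simp only [Fin.reduceFinMk, (e3 z hz).2, (e3 w hw).2, h2]]
  · have t : Tendsto (fun x : ℝ => (x : ℂ)) (𝓝[>] 0) (𝓝[≠] 0) := tendsto_nhdsWithin_iff.2
      ⟨(continuous_ofReal.tendsto' 0 0 rfl).mono_left nhdsWithin_le_nhds,
        eventually_mem_nhdsWithin.mono fun x hx => ofReal_ne_zero.2 (ne_of_gt hx)⟩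
    refine tendsto_atTop_mono' _ ?_ ((tendsto_atTop_add_const_right _
      (-(|d| + ‖c₁ + c₂ * I‖)) (h.proper.comp t)).atTop_div_const (norm_pos_iff.2 c0))
    filter_upwards [t.eventually (ev_n0 hω 0)] with x hx
    rw [norm_div, norm_neg, Function.comp]
    gcongr
    have : ‖X x‖ ≤ ‖X x 0 + X x 1 * I‖ + |d| := abs_le_of_sq_le_sq' (by
      rw [EuclideanSpace.real_norm_sq_eq, Fin.sum_univ_three, (e3 _ hx).2, La_im, add_sq,
        Complex.sq_norm, normSq_add_mul_I, sq_abs]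
      nlinarith [mul_nonneg (norm_nonneg (X x 0 + X x 1 * I)) (abs_nonneg d)]) (by positivity) |>.2
    linarith [norm_sub_norm_le (X x 0 + X x 1 * I) (c₁ + c₂ * I)]
  · rw [← sq_eq_sq₀ (norm_nonneg _) (abs_nonneg _), sq_abs, ← ofReal_inj]
    push_cast
    rw [← cc, mul_conj']

theorem Hel.nf : ∃ b a e f P, Surf T b a e f P ∧ ∃ (c : ℂ) (κ d : ℝ), κ ≠ 0 ∧ ‖c‖ = |κ| ∧
    X '' (Lat (om T) : Set ℂ)ᶜ = {p | ∃ z ∉ Lat (om T),
      p 0 + p 1 * I = c₁ + c₂ * I - c * P z ∧ p 2 = d - κ * (La (om T) z).im} := by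
  have hω := hom hT
  have k {X φ b} (h : Hel (Lat (om T)) X φ)
      (hs : ∀ z ∉ Lat (om T), X (-conj z) = rot c₁ c₂ (X z)) (b0 b1 hb hF) :=
    (h.surf hT hs (b := b) b0 b1 hb hF).imp fun a => Exists.imp fun e => Exists.imp fun f =>
      Exists.imp fun P => And.imp_right <| Exists.imp fun c => Exists.imp fun κ =>
        Exists.imp fun d => And.imp_right <| And.imp_right fun H =>
      show X '' (Lat (om T) : Set ℂ)ᶜ = {p | ∃ z ∉ Lat (om T), p 0 + p 1 * I =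
        c₁ + c₂ * I - c * P z ∧ p 2 = d - κ * (La (om T) z).im} from Set.ext fun p =>
      exists_congr fun z => and_congr_right fun hz => ⟨fun e => e ▸ H z hz, fun e => by
        obtain ⟨h3, h4⟩ := Complex.ext_iff.1 ((H z hz).1.trans e.1.symm)
        ext j
        fin_cases j
        exacts [by simpa using h3, by simpa using h4, (H z hz).2.trans e.2.symm]⟩
  obtain ⟨κ, d, κ0, e3⟩ := h.height hω La_conj (fun _ => conj_nm) hs
  have ex : ∃ z ∉ Lat (om T), Lp (om T) z = 0 ∧ φ 0 z + I * φ 1 z = 0 ∧ φ 0 z - I * φ 1 z ≠ 0 := by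
    obtain ⟨z, hz, e⟩ := exists_zero hω
    have c := h.conf z hz
    rw [(e3 z hz).1, e] at c
    obtain ⟨j, hj⟩ := h.imm z hz
    have im (h1 : φ 0 z + I * φ 1 z = 0) (h2 : φ 0 z - I * φ 1 z = 0) : False := by
      fin_cases j
      exacts [hj (show φ 0 z = 0 by linear_combination (h1 + h2) / 2), hj (show φ 1 z = 0 by
        linear_combination I * (h2 - h1) / 2 + φ 1 z * I_sq), hj (by simp [e3 z hz, e])]
    by_cases H : φ 0 z - I * φ 1 z = 0
    · obtain ⟨a, b, -⟩ := h.cnj hω (fun _ => conj_nm) hs hz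
      refine ⟨-conj z, mt neg_mem_iff.1 (conj_nm hz), by
        rw [Lp_neg hω (conj_nm hz), Lp_conj, e, map_zero], ?_, fun H' => im ?_ H⟩
      · simpa [← a, ← b, sub_eq_add_neg] using congrArg conj H
      · simpa [a, b] using congrArg conj H'
    · exact ⟨z, hz, e, (mul_eq_zero.1 (by linear_combination c - φ 1 z ^ 2 * I_sq)).resolve_right H,
        H⟩
  obtain ⟨z, hz, e, f0, g0⟩ := ex
  have n : -conj z - z ∉ Lat (om T) := fun H => g0 (by
    obtain ⟨a, b, -⟩ := h.cnj hω (fun _ => conj_nm) hs hz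
    rw [← add_sub_cancel z (-conj z), h.per hω _ H hz] at a b
    simpa [a, b, sub_eq_add_neg] using congrArg conj f0)
  have m := (deg2 hω hz (mt neg_mem_iff.1 (conj_nm hz)) (by
    rw [Lp_neg hω (conj_nm hz), Lp_conj, e, map_zero])).resolve_left n
  obtain ⟨u, v, e1, e2⟩ := mem_om m
  obtain rfl : u = 0 := by simpa [hT.ne'] using e1
  obtain ⟨x, hx, l, hl, rfl⟩ : ∃ x ∈ Ioc (-T) T, ∃ l ∈ Lat (om T), z = x + l := by
    obtain ⟨w, hw, -⟩ := existsUnique_sub_zsmul_mem_Ioc (show 0 < 2 * T by linarith)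
      (z.re - v * T) (-T)
    refine ⟨_, ⟨hw.1, hw.2.trans_eq (by ring)⟩, _, add_mem (zsmul_mem om_mem v) (zsmul_mem two_mem w),
      Complex.ext (by simp) ?_⟩
    simp at e2 ⊢
    linarith
  have nx : (x : ℂ) ∉ Lat (om T) := mt (add_mem_cancel_right hl).2 hz
  rw [h.per hω _ hl nx, h.per hω _ hl nx] at f0
  rw [Lp_add hω hl nx] at e
  have xT : x < T := hx.2.lt_of_ne fun H => n (by
    convert neg_mem (add_mem two_mem (add_mem hl (conj_mem hl))) using 1
    simp [H]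
    ring)
  rcases lt_trichotomy x 0 with H | rfl | H
  · have := k (h.scale (μ := -1) (by simp) (by simp)) (fun z hz => by
      simpa using hs _ (mt neg_mem_iff.1 hz)) (b := -x) (by linarith) (by linarith [hx.1])
      (by rw [ofReal_neg, Lp_neg hω nx, e]) (by simp; linear_combination -f0)
    rw [show (fun z => X (-1 * z)) '' (Lat (om T) : Set ℂ)ᶜ = X '' (Lat (om T) : Set ℂ)ᶜ from
      Set.ext fun p => ⟨fun ⟨z, hz, e⟩ => ⟨_, by simpa using hz, e⟩,
        fun ⟨z, hz, e⟩ => ⟨-z, by simpa using hz, by simpa using e⟩⟩] at this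
    exact ⟨_, this⟩
  · exact (nx (zero_mem _)).elim
  · exact ⟨x, k h hs H xT e f0⟩

end Pool.Agent.MP_c434f6_gt

end

-- part MP_c434f6_gt.Sym
section

/-! The half-turn is induced by an antilinear map of the torus. -/

open Complex Filter Topology Set
open scoped Real ComplexConjugate

namespace Pool.Agent.MP_c434f6_gt

lemma loc_const {U : Set ℂ} (hU : IsPreconnected U) {p : ℂ → Prop}
    (h : ∀ z ∈ U, ∀ᶠ w in 𝓝 z, (p z ↔ p w)) {x y} (hx : x ∈ U) (hy : y ∈ U) : p x ↔ p y :=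
  hU.induction₂ (fun x y => p x ↔ p y) (fun z hz => nhdsWithin_le_nhds (h z hz))
    (fun _ _ _ _ _ _ => Iff.trans) (fun _ _ _ _ => Iff.symm) hx hy

variable {X : ℂ → EuclideanSpace ℝ (Fin 3)} {φ : Fin 3 → ℂ → ℂ} {ω z : ℂ} {c₁ c₂ : ℝ}

lemma rot_rot (p) : rot c₁ c₂ (rot c₁ c₂ p) = p := by
  ext j; fin_cases j <;> simp [rot]

lemma c_rot : Continuous (rot c₁ c₂) := by unfold rot; fun_prop

lemma rot_eq (j) : ∃ d, ∀ p, rot c₁ c₂ p j = ![-1, -1, 1] j * p j + d := by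
  fin_cases j
  exacts [⟨2 * c₁, fun p => by simp [rot]; ring⟩, ⟨2 * c₂, fun p => by simp [rot]; ring⟩,
    ⟨0, fun p => by simp [rot]⟩]

variable (hω : 0 < ω.re)
include hω

lemma red (z : ℂ) : ∃ l ∈ Lat ω, z + l ∈ Metric.closedBall 0 (‖ω‖ + π) := by
  obtain ⟨x, hx⟩ : ∃ x : ℝ, x = z.re / ω.re := ⟨_, rfl⟩
  obtain ⟨y, hy⟩ : ∃ y : ℝ, y = (z.im - x * ω.im) / π := ⟨_, rfl⟩
  have : z = x * ω + y * (π * I) := by
    have := Real.pi_ne_zero
    apply Complex.ext <;> simp [hy]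
    rw [hx]; field_simp
  refine ⟨_, neg_mem (mem_Lat.2 ⟨⌊x⌋, ⌊y⌋, rfl⟩), ?_⟩
  rw [mem_closedBall_zero_iff, show z + -(⌊x⌋ * ω + ⌊y⌋ * (π * I)) = (Int.fract x : ℝ) * ω +
    (Int.fract y : ℝ) * (π * I) by rw [this, Int.fract, Int.fract]; push_cast; ring]
  refine norm_add_le_of_le ?_ ?_ <;> simp [abs_of_pos Real.pi_pos, Int.abs_fract] <;>
    exact mul_le_of_le_one_left (by positivity) (Int.fract_lt_one _).le

variable (h : Hel (Lat ω) X φ)
include h

omit hω in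
lemma Hel.cX (hz : z ∉ Lat ω) : ContinuousAt X z :=
  (PiLp.continuous_toLp 2 _).continuousAt.comp
    (continuousAt_pi.2 fun j => (h.der j z hz).continuousAt)

omit hω in
lemma Hel.dlift {τ : ℂ → ℂ} (c : ContinuousAt τ z) (hz : z ∉ Lat ω) (hz' : τ z ∉ Lat ω)
    (e : ∀ᶠ w in 𝓝 z, X (τ w) = rot c₁ c₂ (X w)) : ∃ u v, HasFDerivAt τ (dP u v) z ∧
    ∑ j, conj (φ j (τ z)) * φ j (τ z) ≠ 0 ∧ (u = 0 ↔ v ≠ 0) ∧
    u = 2 * (∑ j, conj (φ j (τ z)) * (![-1, -1, 1] j * φ j z)) / ∑ j, conj (φ j (τ z)) * φ j (τ z) ∧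
    v = 2 * (∑ j, φ j (τ z) * (![-1, -1, 1] j * φ j z)) / ∑ j, conj (φ j (τ z)) * φ j (τ z) := by
  have q := h.conf _ hz'
  have q' := congrArg conj q
  have n : ∑ j, conj (φ j (τ z)) * φ j (τ z) ≠ 0 := by
    obtain ⟨j, hj⟩ := h.imm _ hz'
    simp only [conj_mul']
    exact_mod_cast (Finset.sum_pos' (fun _ _ => by positivity)
      ⟨j, Finset.mem_univ _, by positivity⟩).ne'
  simp only [map_add, map_pow, map_zero] at q'
  choose d hd using rot_eq (c₁ := c₁) (c₂ := c₂)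
  have D := (HasFDerivAt.fun_sum (u := Finset.univ) fun j _ => (ofRealCLM.hasFDerivAt.comp _
    (h.der j _ hz')).const_mul (conj (φ j (τ z)))).of_comp_of_leftInverse c
    (HasFDerivAt.fun_sum (u := Finset.univ) fun j _ => (ofRealCLM.hasFDerivAt.comp _
      (((h.der j _ hz).const_mul (![-1, -1, 1] j)).add_const (d j))).const_mul (conj (φ j (τ z))))
    (e.mono fun w hw => by simp [hw, hd])
    (f'symm := (2 / ∑ j, conj (φ j (τ z)) * φ j (τ z)) • (1 : ℂ →L[ℝ] ℂ)) fun v => by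
      simp [-mul_re, re_eq_add_conj, Fin.sum_univ_three] at n ⊢
      field_simp
      linear_combination conj v * q'
  obtain ⟨D', D⟩ : ∃ D' : ℂ →L[ℝ] ℂ, HasFDerivAt τ D' z := ⟨_, D⟩
  rw [show D' = dP (D' 1 - I * D' I) (conj (D' 1 + I * D' I)) from ContinuousLinearMap.ext fun v => by
    conv_lhs => rw [← re_add_im v, ← mul_one (v.re : ℂ), ← real_smul, ← real_smul, map_add,
      map_smul, map_smul]
    simp [dP, Complex.ext_iff]
    constructor <;> ring] at D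
  generalize D' 1 - I * D' I = u at D
  generalize conj (D' 1 + I * D' I) = v at D
  have k (j) : φ j (τ z) * u + conj (φ j (τ z)) * v = 2 * (![-1, -1, 1] j * φ j z) := by
    refine re_ext fun w => ?_
    have := h.chain D hz hz' j _ _ (e.mono fun w hw => by rw [hw, hd]) w
    fin_cases j <;> simp [dP] at this ⊢ <;> linarith
  have k0 := k 0
  have k1 := k 1
  have k2 := k 2
  refine ⟨u, v, D, n, ⟨fun H H' => ?_, fun H => ?_⟩, ?_, ?_⟩
  · obtain ⟨j, hj⟩ := h.imm _ hz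
    have := k j
    fin_cases j <;> simp [H, H'] at this hj <;> exact hj this
  all_goals simp [Fin.sum_univ_three] at n k0 k1 k2 ⊢
  · refine mul_right_cancel₀ (mul_ne_zero H n) ?_
    linear_combination 2 * h.conf z hz - u ^ 2 / 2 * q - v ^ 2 / 2 * q' +
      (φ 0 (τ z) * u + conj (φ 0 (τ z)) * v - 2 * φ 0 z) / 2 * k0 +
      (φ 1 (τ z) * u + conj (φ 1 (τ z)) * v - 2 * φ 1 z) / 2 * k1 +
      (φ 2 (τ z) * u + conj (φ 2 (τ z)) * v + 2 * φ 2 z) / 2 * k2
  · rw [eq_div_iff n]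
    linear_combination conj (φ 0 (τ z)) * k0 + conj (φ 1 (τ z)) * k1 + conj (φ 2 (τ z)) * k2 - v * q'
  · rw [eq_div_iff n]
    linear_combination φ 0 (τ z) * k0 + φ 1 (τ z) * k1 + φ 2 (τ z) * k2 - u * q

variable (hs : ∀ z ∉ Lat ω, ∃ w ∉ Lat ω, X w = rot c₁ c₂ (X z))
include hs

lemma Hel.near {F : Filter ℂ} {w₀ : ℂ} (hF : ∀ᶠ z in F, z ∉ Lat ω)
    (H : w₀ ∉ Lat ω ∧ Tendsto X F (𝓝 (rot c₁ c₂ (X w₀))) ∨
      w₀ = 0 ∧ Tendsto (fun z => ‖X z‖) F atTop) {N : Set ℂ} (hN : N ∈ 𝓝 w₀) :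
    ∀ᶠ z in F, ∃ w ∈ N, w ∉ Lat ω ∧ X w = rot c₁ c₂ (X z) := by
  have (z : ℂ) : ∃ w ∈ Metric.closedBall 0 (‖ω‖ + π), z ∉ Lat ω →
      w ∉ Lat ω ∧ X w = rot c₁ c₂ (X z) := by
    by_cases hz : z ∈ Lat ω
    · exact ⟨0, by simp; positivity, by simp [hz]⟩
    obtain ⟨w, h1, h2⟩ := hs z hz
    obtain ⟨l, h3, h4⟩ := red hω w
    exact ⟨_, h4, fun _ => ⟨mt (add_mem_cancel_right h3).1 h1, (h.Xper h3 h1).trans h2⟩⟩
  choose σ s1 s2 using this
  refine mem_iff_ultrafilter.2 fun U hU => ?_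
  obtain ⟨w, -, t : Tendsto σ U _⟩ := (isCompact_closedBall _ _).ultrafilter_le_nhds (U.map σ)
    (tendsto_principal.2 (.of_forall s1))
  have hσ := (hF.filter_mono hU).mono s2
  have m : w₀ - w ∈ Lat ω := by
    by_cases hw : w ∈ Lat ω
    · obtain ⟨-, H⟩ | ⟨rfl, -⟩ := H
      · refine (not_tendsto_atTop_of_tendsto_nhds ((c_rot (c₁ := c₁) (c₂ := c₂).tendsto _).comp
          (H.mono_left hU)).norm (((h.proper.comp (by simpa using tend_add w (-w))).comp
            (tendsto_nhdsWithin_iff.2 ⟨t, hσ.mono fun z hz => ne_of_mem_of_not_mem hw hz.1 |>.symm⟩)).congr'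
              (hσ.mono fun z hz => ?_))).elim
        simp only [Function.comp, h.Xper (neg_mem hw) hz.1, hz.2]
      · simpa using hw
    · have t' : Tendsto X U _ := ((c_rot (c₁ := c₁) (c₂ := c₂).tendsto _).comp
        ((h.cX hw).tendsto.comp t)).congr' (hσ.mono fun z hz => by simp [hz.2, rot_rot])
      obtain ⟨n, H⟩ | ⟨-, H⟩ := H
      · exact (h.emb _ n _ hw).1 (by
          simpa [rot_rot] using congrArg (rot c₁ c₂) (tendsto_nhds_unique (H.mono_left hU) t'))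
      · exact (not_tendsto_atTop_of_tendsto_nhds t'.norm (H.mono_left hU)).elim
  filter_upwards [hσ, (t.add_const (w₀ - w)) (by simpa using hN)] with z h1 h2
  exact ⟨_, h2, mt (add_mem_cancel_right m).1 h1.1, (h.Xper m h1.1).trans h1.2⟩

lemma Hel.lift (w₀ : ℂ) : ∃ (τ : ℂ → ℂ) (V : Set ℂ), (∀ z ∈ V, z ∉ Lat ω ∧ τ z ∉ Lat ω ∧
    X (τ z) = rot c₁ c₂ (X z) ∧ V ∈ 𝓝 z ∧ ContinuousAt τ z) ∧
    (∀ z ∉ Lat ω, w₀ ∉ Lat ω → X w₀ = rot c₁ c₂ (X z) → z ∈ V) ∧
    (w₀ = 0 → V ∈ 𝓝[≠] 0 ∧ Tendsto τ (𝓝[≠] 0) (𝓝 0)) := by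
  have r0 : 0 < min ω.re π / 2 := half_pos (lt_min hω Real.pi_pos)
  obtain ⟨V, hV⟩ : ∃ V, V = {z | z ∉ Lat ω ∧ ∃ w ∈ Metric.ball w₀ (min ω.re π / 2),
    w ∉ Lat ω ∧ X w = rot c₁ c₂ (X z)} := ⟨_, rfl⟩
  choose! τ t1 t2 t3 using fun z (hz : z ∈ V) => (hV ▸ hz).2
  have k {F : Filter ℂ} {w : ℂ} (hw : w ∈ Metric.ball w₀ (min ω.re π / 2))
      (hF : ∀ᶠ z in F, z ∉ Lat ω) (H : w ∉ Lat ω ∧ Tendsto X F (𝓝 (rot c₁ c₂ (X w))) ∨
        w = 0 ∧ Tendsto (fun z => ‖X z‖) F atTop) : V ∈ F ∧ Tendsto τ F (𝓝 w) := by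
    have (N) (hN : N ∈ 𝓝 w) : ∀ᶠ z in F, z ∈ V ∧ τ z ∈ N := by
      filter_upwards [hF, h.near hω hs (F := F) hF H
        (inter_mem hN (Metric.isOpen_ball.mem_nhds hw))] with z h1 ⟨y, h2, h3, h4⟩
      have m : z ∈ V := hV ▸ ⟨h1, y, h2.2, h3, h4⟩
      have := Lat_sep hω ((h.emb _ (t2 z m) _ h3).1 ((t3 z m).trans h4.symm)) (by
        rw [← dist_eq_norm]
        linarith [dist_triangle_right (τ z) y w₀, Metric.mem_ball.1 (t1 z m), Metric.mem_ball.1 h2.2])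
      exact ⟨m, sub_eq_zero.1 this ▸ h2.1⟩
    exact ⟨(this _ univ_mem).mono fun _ => And.left, fun N hN => (this N hN).mono fun _ => And.right⟩
  refine ⟨τ, V, fun z hz => ?_, fun z h1 h2 h3 => hV ▸ ⟨h1, w₀, Metric.mem_ball_self r0, h2, h3⟩,
    fun e => k (e ▸ Metric.mem_ball_self r0) (ev_n0 hω 0) (.inr ⟨rfl, h.proper⟩)⟩
  have n := (hV ▸ hz).1
  exact ⟨n, t2 z hz, t3 z hz, k (t1 z hz) (ev_U hω n)
    (.inl ⟨t2 z hz, by rw [t3 z hz, rot_rot]; exact h.cX n⟩)⟩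

lemma Hel.lin : ∃ (c : ℂ) (ι : ℂ →+* ℂ), (ι = .id ℂ ∨ ι = conj) ∧
    ∀ z ∉ Lat ω, ι (c * z) ∉ Lat ω ∧ X (ι (c * z)) = rot c₁ c₂ (X z) := by
  choose τ V h1 h2 h3 using h.lift hω hs
  choose! σ s1 s2 using hs
  have m (z) (hz : z ∉ Lat ω) := h2 (σ z) z hz (s1 z hz) (s2 z hz)
  have pφ (w) (z) (hz : z ∈ V w) (j) : φ j (τ w z) = φ j (σ z) := by
    obtain ⟨a, b, c, -⟩ := h1 w z hz
    rw [← h.per hω j ((h.emb _ b _ (s1 z a)).1 (c.trans (s2 z a).symm)) (s1 z a), add_sub_cancel]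
  have d (w) (z) (hz : z ∈ V w) := h.dlift (h1 w z hz).2.2.2.2 (h1 w z hz).1 (h1 w z hz).2.1
    (mem_of_superset (h1 w z hz).2.2.2.1 fun z hz => (h1 w z hz).2.2.1)
  obtain ⟨u, hu⟩ : ∃ u : ℂ → ℂ, u = fun z => 2 * (∑ j, conj (φ j (σ z)) *
    (![-1, -1, 1] j * φ j z)) / ∑ j, conj (φ j (σ z)) * φ j (σ z) := ⟨_, rfl⟩
  obtain ⟨v, hv⟩ : ∃ u : ℂ → ℂ, u = fun z => 2 * (∑ j, φ j (σ z) *
    (![-1, -1, 1] j * φ j z)) / ∑ j, conj (φ j (σ z)) * φ j (σ z) := ⟨_, rfl⟩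
  have d' (w) (z) (hz : z ∈ V w) : HasFDerivAt (τ w) (dP (u z) (v z)) z ∧ (u z = 0 ↔ v z ≠ 0) := by
    obtain ⟨u, v, a, -, b, rfl, rfl⟩ := d w z hz
    simp only [pφ w z hz] at a b
    exact ⟨hu ▸ hv ▸ a, hu ▸ hv ▸ b⟩
  have cu (z) (hz : z ∉ Lat ω) : ContinuousAt u z ∧ ContinuousAt v z := by
    obtain ⟨-, b, -, c, c'⟩ := h1 _ _ (m z hz)
    obtain ⟨-, -, -, n, -⟩ := d _ _ (m z hz)
    have a (j) : ContinuousAt (fun z => φ j (σ z)) z := ((h.an hω j b).continuousAt.comp c').congr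
      (mem_of_superset c fun y hy => pφ _ y hy j)
    have a' (j) := (h.an hω j hz).continuousAt
    simp only [pφ _ _ (m z hz)] at n
    have s := tendsto_finsetSum Finset.univ fun j _ => (a j).star.mul (a j)
    rw [hu, hv]
    exact ⟨(ContinuousAt.const_mul (tendsto_finsetSum _ fun j _ => (a j).star.mul
      ((a' j).const_mul _)) 2).div s n, (ContinuousAt.const_mul (tendsto_finsetSum _ fun j _ =>
        (a j).mul ((a' j).const_mul _)) 2).div s n⟩
  obtain ⟨ι, γ, hι, pγ, g⟩ : ∃ (ι : ℂ →+* ℂ) (γ : ℂ → ℂ), (ι = .id ℂ ∨ ι = conj) ∧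
      (∀ l ∈ Lat ω, ∀ z ∉ Lat ω, γ (z + l) = γ z) ∧
      ∀ w, ∀ z ∈ V w, HasDerivAt (fun z => ι (τ w z)) (γ z) z := by
    have q (l) (hl : l ∈ Lat ω) (z) (hz : z ∉ Lat ω) (j) : φ j (σ (z + l)) = φ j (σ z) := by
      have n := mt (add_mem_cancel_right hl).1 hz
      rw [← h.per hω j ((h.emb _ (s1 _ n) _ (s1 z hz)).1 (by rw [s2 _ n, s2 z hz, h.Xper hl hz]))
        (s1 z hz), add_sub_cancel]
    have l {x y} (hx : x ∉ Lat ω) (hy : y ∉ Lat ω) := loc_const (p := fun z => u z = 0) conn_U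
      (fun z hz => by
        by_cases H : u z = 0
        · filter_upwards [(cu z hz).2.eventually_ne ((d' _ _ (m z hz)).2.1 H), ev_U hω hz]
            with y a b using iff_of_true H ((d' _ _ (m y b)).2.2 a)
        · exact ((cu z hz).1.eventually_ne H).mono fun y => iff_of_false H) hx hy
    obtain ⟨b, hb, -⟩ := exists_zero hω
    by_cases H : u b = 0
    · refine ⟨conj, fun z => v z / 2, .inr rfl, fun l hl z hz => by
        simp only [hv, q l hl z hz, h.per hω _ hl hz], fun w z hz => hasFDerivAt_of_restrictScalars ℝ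
        (conjCLE.hasFDerivAt.comp z (d' w z hz).1) (ContinuousLinearMap.ext fun x => ?_)⟩
      simp [dP, (l hb (h1 w z hz).1).1 H, map_ofNat]
      ring
    · refine ⟨.id ℂ, fun z => u z / 2, .inl rfl, fun l hl z hz => by
        simp only [hu, q l hl z hz, h.per hω _ hl hz], fun w z hz => hasFDerivAt_of_restrictScalars ℝ
        (d' w z hz).1 (ContinuousLinearMap.ext fun x => ?_)⟩
      simp [dP, not_not.1 (mt (d' w z hz).2.2 (mt (l hb (h1 w z hz).1).2 H))]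
      ring
  have ιι (z) : ι (ι z) = z := by rcases hι with rfl | rfl <;> simp
  have cι : Continuous ι := by rcases hι with rfl | rfl; exacts [continuous_id, continuous_conj]
  obtain ⟨v0, t0⟩ := h3 0 rfl
  have t1 : Tendsto (fun z => ι (τ 0 z)) (𝓝[≠] 0) (𝓝 0) := (cι.tendsto' 0 0 ι.map_zero).comp t0
  obtain ⟨G, aG, eG⟩ := Ok.of_bdd (mem_of_superset v0 fun z hz => (g 0 z hz).differentiableAt)
    (t1.isBigO_one ℝ)
  have eγ : ∀ᶠ z in 𝓝[≠] 0, γ z = deriv G z := by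
    filter_upwards [v0, eG.nhdsNE_deriv] with z a b using (g 0 z a).deriv.symm.trans b
  have aγ (s) (hs : s ∉ Lat ω) : AnalyticAt ℂ γ s := by
    obtain ⟨-, -, -, c, -⟩ := h1 _ _ (m s hs)
    exact (DifferentiableOn.analyticAt (fun z hz =>
      (g _ z hz).differentiableAt.differentiableWithinAt) c).deriv.congr
        (mem_of_superset c fun z hz => (g _ z hz).deriv)
  obtain ⟨c, hc⟩ := liou1 hω (fun l hl s => (ev_n0 hω s).mono (pγ l hl)) (fun s hs => .of (aγ s hs))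
    (((Ok.of analyticAt_id).mul (.of aG.deriv)).congr (eγ.mono fun z hz => by simp [hz]))
  have k {D : ℂ → ℂ} {s} (h : ∀ᶠ z in 𝓝 s, HasDerivAt D c z) :
      ∀ᶠ z in 𝓝 s, D z - c * z = D s - c * s := by
    obtain ⟨r, r0, hr⟩ := Metric.eventually_nhds_iff_ball.1 h
    have d (z hz) := (hr z hz).fun_sub ((hasDerivAt_id' z).const_mul c)
    exact mem_of_superset (Metric.ball_mem_nhds s r0) fun z hz =>
      Metric.isOpen_ball.is_const_of_deriv_eq_zero (convex_ball s r).isPreconnected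
        (fun z hz => (d z hz).differentiableAt.differentiableWithinAt)
        (fun z hz => (d z hz).deriv.trans (by simp)) hz (Metric.mem_ball_self r0)
  have p (w) (z) (hz : z ∈ V w) : τ w z - σ z ∈ Lat ω :=
    let ⟨a, b, c, _⟩ := h1 w z hz
    (h.emb _ b _ (s1 z a)).1 (c.trans (s2 z a).symm)
  have e1 : ∀ᶠ z in 𝓝[≠] 0, deriv G z = c := (eγ.and (hc 0)).mono fun z hz => hz.1.symm.trans hz.2
  have e2 := k (D := G) (s := 0) ((aG.eventually_analyticAt.and
    (eventually_nhdsWithin_iff.1 e1)).mono fun z hz => hz.1.differentiableAt.hasDerivAt.congr_deriv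
      (by rcases eq_or_ne z 0 with rfl | H; exacts [Cod.val e1 aG.deriv.continuousAt, hz.2 H]))
  rw [tendsto_nhds_unique_of_eventuallyEq (aG.continuousAt.tendsto.mono_left nhdsWithin_le_nhds)
    t1 eG.symm] at e2
  obtain ⟨y, y1, y2, y3⟩ := ((e2.filter_mono nhdsWithin_le_nhds).and (eG.and v0)).exists
  refine ⟨c, ι, hι, fun z hz => ?_⟩
  have : ι (c * z) - σ z ∈ Lat ω := (loc_const (p := fun z => ι (c * z) - σ z ∈ Lat ω) conn_U
    (fun z hz => by
      obtain ⟨-, -, -, n, -⟩ := h1 _ _ (m z hz)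
      filter_upwards [n, k (mem_of_superset n fun y hy => (g _ y hy).congr_deriv
        (Cod.val (hc y) (aγ y (h1 _ y hy).1).continuousAt))] with y a b
      have := congrArg ι b
      simp only [map_sub, ιι] at this
      rw [show ι (c * y) - σ y = ι (c * z) - σ z + (τ (σ z) y - σ y - (τ (σ z) z - σ z)) by
        linear_combination -this, add_mem_cancel_right (sub_mem (p _ y a) (p _ z (m z hz)))])
    (h1 0 y y3).1 hz).1 (by
      rw [show c * y = ι (τ 0 y) by linear_combination -y1 - y2, ιι]; exact p 0 y y3)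
  rw [← add_sub_cancel (σ z) (ι (c * z))]
  exact ⟨mt (add_mem_cancel_right this).1 (s1 z hz), (h.Xper this (s1 z hz)).trans (s2 z hz)⟩

lemma Hel.anti : ∃ μ : ℂ, μ ≠ 0 ∧ ∀ z, μ * z ∉ Lat ω →
    μ * -conj z ∉ Lat ω ∧ X (μ * -conj z) = rot c₁ c₂ (X (μ * z)) := by
  obtain ⟨c, ι, hι, e⟩ := h.lin hω hs
  have k (a : ℂ) (H : ∀ z, ι (c * ι (c * z)) = a * z) : a = 1 := by
    by_contra n
    obtain ⟨z, z1, z2⟩ := ((ev_n0 hω 0).and ((tend_aff (sub_ne_zero.2 n) 0 0).eventually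
      (ev_n0 hω _))).exists
    obtain ⟨d, b⟩ := e _ (e z z1).1
    rw [(e z z1).2, rot_rot] at b
    rw [H] at d b
    exact z2 (by simpa [sub_mul] using (h.emb _ d _ z1).1 b)
  obtain ⟨z, z1, z2⟩ := h.nonflat
  rcases hι with rfl | rfl
  · have ch (j) : φ j (c * z) * c = ![-1, -1, 1] j * φ j z := by
      obtain ⟨d, hd⟩ := rot_eq (c₁ := c₁) (c₂ := c₂) j
      refine re_ext fun v => ?_
      have := h.chain ((hasFDerivAt_id (𝕜 := ℝ) z).const_mul c) z1 (e z z1).1 j _ d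
        ((ev_U hω z1).mono fun w hw => by rw [← hd, ← (e w hw).2]; rfl) v
      fin_cases j <;> simpa [mul_assoc, -mul_re] using this
    refine (z2 ?_).elim
    obtain rfl | rfl := mul_self_eq_one_iff.1 (k _ fun z => (mul_assoc ..).symm)
    · have a := ch 0
      have b := ch 1
      have := h.conf z z1
      simp [self_eq_neg] at a b
      simpa [a, b] using this
    · obtain ⟨A, B, H⟩ := h.dh_eq hω
      have a := ch 2
      simp [H _ (mt neg_mem_iff.1 z1), Lp_neg hω z1, ← H z z1, neg_eq_self] at a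
      exact a
  · have n := k (conj c * c) fun z => by simp [mul_assoc]
    obtain ⟨μ, h0, h1⟩ : ∃ μ : ℂ, μ ≠ 0 ∧ conj (c * μ) = -μ := by
      by_cases H : c = 1
      · exact ⟨I, I_ne_zero, by simp [H]⟩
      · exact ⟨1 - conj c, fun e => H (by simpa using (congrArg conj (sub_eq_zero.1 e)).symm), by
          simp only [map_mul, map_sub, map_one, conj_conj]; linear_combination -n⟩
    refine ⟨μ, h0, fun z hz => ?_⟩
    simpa only [← mul_assoc, map_mul _ _ z, h1, neg_mul, ← mul_neg] using e _ hz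

omit h hs in
lemma classify {μ : ℂ} (h0 : μ ≠ 0) (hc : ∀ z, μ * z ∈ Lat ω → μ * conj z ∈ Lat ω) :
    ∃ t T : ℝ, t ≠ 0 ∧ 0 < T ∧ ∃ ω' : ℂ, (ω' = T ∨ ω' = om T) ∧ ∀ z, z ∈ Lat ω' ↔ μ * t * z ∈ Lat ω := by
  obtain ⟨Λ, hΛ⟩ : ∃ Λ : AddSubgroup ℂ, ∀ z, z ∈ Λ ↔ μ * z ∈ Lat ω :=
    ⟨(Lat ω).comap (AddMonoidHom.mulLeft μ), fun _ => .rfl⟩
  simp only [mul_assoc, ← hΛ] at hc ⊢
  obtain ⟨r, r0, hr⟩ : ∃ r > 0, ∀ z ∈ Λ, ‖z‖ < r → z = 0 := ⟨min ω.re π / ‖μ‖,
    div_pos (lt_min hω Real.pi_pos) (norm_pos_iff.2 h0), fun z hz H => (mul_eq_zero.1 (Lat_sep hω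
      ((hΛ z).1 hz) (by rwa [norm_mul, ← lt_div_iff₀' (norm_pos_iff.2 h0)]))).resolve_left h0⟩
  obtain ⟨y, hy⟩ := AddSubgroup.cyclic_of_isolated_zero (H := Λ.comap
    ((AddMonoidHom.mulRight I).comp ofRealHom.toAddMonoidHom)) r0 (disjoint_left.2 fun y h1 h2 =>
      h2.1.ne' (by simpa using hr _ h1 (by simpa [abs_of_pos h2.1] using h2.2)))
  obtain ⟨x, hx⟩ := AddSubgroup.cyclic_of_isolated_zero (H := Λ.map reAddGroupHom) (half_pos r0)
    (disjoint_left.2 (by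
      rintro _ ⟨z, h1, rfl⟩ ⟨h2 : 0 < z.re, h3 : z.re < _⟩
      have := hr _ (add_mem h1 (hc z h1)) (by
        rw [add_conj, norm_real, Real.norm_of_nonneg (by linarith)]; linarith)
      rw [add_conj, ofReal_eq_zero] at this
      linarith))
  have hy' (s : ℝ) : s * I ∈ Λ ↔ ∃ n : ℤ, n * y = s := by
    simpa [AddSubgroup.mem_closure_singleton] using SetLike.ext_iff.1 hy s
  have hx' (s : ℝ) : (∃ z ∈ Λ, z.re = s) ↔ ∃ n : ℤ, n * x = s := by
    simpa [AddSubgroup.mem_closure_singleton] using SetLike.ext_iff.1 hx s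
  have im (z) (hz : z ∈ Λ) : ∃ n : ℤ, n * y = 2 * z.im := (hy' _).1 (sub_conj z ▸ sub_mem hz (hc z hz))
  have m1 : ω / μ ∈ Λ := by rw [hΛ, mul_div_cancel₀ _ h0]; exact om_mem
  have m2 : π * I / μ ∈ Λ := by rw [hΛ, mul_div_cancel₀ _ h0]; exact pi_mem
  have ind : ω.re * π = normSq μ * ((ω / μ).re * (π * I / μ).im - (ω / μ).im * (π * I / μ).re) := by
    have := normSq_pos.2 h0
    simp [div_re, div_im]
    field_simp
    rw [normSq_apply]
    ring
  have p := mul_pos hω Real.pi_pos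
  have x0 : x ≠ 0 := by
    rintro rfl
    obtain ⟨_, a⟩ := (hx' _).1 ⟨_, m1, rfl⟩
    obtain ⟨_, b⟩ := (hx' _).1 ⟨_, m2, rfl⟩
    rw [ind, ← a, ← b] at p
    simp at p
  have y0 : y ≠ 0 := by
    rintro rfl
    obtain ⟨_, a⟩ := im _ m1
    obtain ⟨_, b⟩ := im _ m2
    rw [mul_zero, eq_comm, mul_eq_zero, or_iff_right two_ne_zero] at a b
    rw [ind, a, b] at p
    simp at p
  obtain ⟨w, w1, w2, w3⟩ : ∃ w ∈ Λ, 0 < w.re / y ∧ ∀ z ∈ Λ, ∃ n : ℤ, n * w.re = z.re := by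
    obtain ⟨w, w1, w2⟩ := (hx' x).2 ⟨1, by simp⟩
    obtain H | H := (div_ne_zero x0 y0).lt_or_gt
    · exact ⟨-w, neg_mem w1, by simpa [w2, neg_div] using H, fun z hz =>
        let ⟨n, hn⟩ := (hx' _).1 ⟨z, hz, rfl⟩; ⟨-n, by simpa [w2] using hn⟩⟩
    · exact ⟨w, w1, w2 ▸ H, fun z hz => w2 ▸ (hx' _).1 ⟨z, hz, rfl⟩⟩
  obtain ⟨k, hk⟩ := im w w1
  have yI : y * I ∈ Λ := (hy' y).2 ⟨1, by simp⟩
  have p0 := ofReal_ne_zero.2 Real.pi_ne_zero
  have y1 := ofReal_ne_zero.2 y0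
  obtain ⟨ω', a, j, b⟩ : ∃ ω' : ℂ, (ω' = (w.re / y * π : ℝ) ∨ ω' = om (w.re / y * π)) ∧
      ∃ j : ℤ, (y / π : ℝ) * ω' = w - j * (y * I) := by
    obtain ⟨j, rfl | rfl⟩ := k.even_or_odd'
    exacts [⟨_, .inl rfl, j, Complex.ext (by simp; field_simp) (by simp at hk ⊢; linarith)⟩,
      ⟨_, .inr rfl, j, Complex.ext (by simp; field_simp) (by simp at hk ⊢; field_simp; linarith)⟩]
  have c : (y / π : ℝ) * (π * I) = y * I := by push_cast; field_simp
  refine ⟨y / π, _, div_ne_zero y0 Real.pi_ne_zero, mul_pos w2 Real.pi_pos, ω', a, fun z => ⟨fun hz => ?_,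
    fun hz => ?_⟩⟩
  · obtain ⟨m, n, rfl⟩ := mem_Lat.1 hz
    rw [mul_add, mul_left_comm, mul_left_comm _ (n : ℂ), b, c]
    simpa using add_mem (zsmul_mem (sub_mem w1 (zsmul_mem yI j)) m) (zsmul_mem yI n)
  · obtain ⟨m, hm⟩ := w3 _ hz
    have e : (y / π : ℝ) * z - m • w = ((y / π : ℝ) * z - m • w).im * I :=
      Complex.ext (by rw [sub_re, ← hm]; simp) (by simp)
    obtain ⟨n, hn⟩ := (hy' _).1 (e ▸ sub_mem hz (zsmul_mem w1 m))
    rw [← hn, zsmul_eq_mul, ofReal_mul, ofReal_intCast] at e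
    refine mem_Lat.2 ⟨m, n + m * j, mul_left_cancel₀ (ofReal_ne_zero.2
      (div_ne_zero y0 Real.pi_ne_zero)) ?_⟩
    rw [mul_add, mul_left_comm, mul_left_comm _ ((n + m * j : ℤ) : ℂ), b, c]
    push_cast at e ⊢
    linear_combination -e

omit hω h hs in
theorem SymHel.norm {M : Set (EuclideanSpace ℝ (Fin 3))} (h : SymHel M) : ∃ T > 0, ∃ X φ c₁ c₂,
    Hel (Lat (om T)) X φ ∧ M = X '' (Lat (om T) : Set ℂ)ᶜ ∧
    ∀ z ∉ Lat (om T), X (-conj z) = rot c₁ c₂ (X z) := by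
  obtain ⟨⟨L, X, φ, h, rfl⟩, c₁, c₂, hs⟩ := h
  have im {Λ Λ' : Set ℂ} {μ : ℂ} (h0 : μ ≠ 0) (e : ∀ z, z ∈ Λ' ↔ μ * z ∈ Λ)
      (X : ℂ → EuclideanSpace ℝ (Fin 3)) : X '' Λᶜ = (fun z => X (μ * z)) '' Λ'ᶜ :=
    Set.ext fun p => ⟨fun ⟨z, hz, H⟩ => ⟨z / μ, by
      rwa [mem_compl_iff, e, mul_div_cancel₀ _ h0], by simpa only [mul_div_cancel₀ _ h0] using H⟩,
      fun ⟨z, hz, H⟩ => ⟨_, mt (e z).2 hz, H⟩⟩
  have p0 : (π : ℂ) * I ≠ 0 := by simp [Real.pi_ne_zero]
  have i := LinearIndependent.pair_iff.1 L.indep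
  have w0 : L.ω₂ ≠ 0 := fun e => one_ne_zero (i 0 1 (by simp [e])).2
  have μ0 := div_ne_zero w0 p0
  obtain ⟨ω, hω, e⟩ : ∃ ω : ℂ, 0 < ω.re ∧ ∀ z, z ∈ Lat ω ↔ L.ω₂ / (π * I) * z ∈ L.lattice := by
    obtain ⟨ω, a⟩ : ∃ ω, L.ω₁ = L.ω₂ / (π * I) * ω := ⟨_, (mul_div_cancel₀ _ μ0).symm⟩
    have k (z) : z ∈ Lat ω ↔ L.ω₂ / (π * I) * z ∈ L.lattice := by
      rw [mem_Lat, PeriodPair.mem_lattice]
      refine exists₂_congr fun m n => ?_
      rw [← mul_right_inj' μ0, mul_add, mul_left_comm, mul_left_comm _ (n : ℂ), ← a,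
        div_mul_cancel₀ _ p0]
    obtain H | H | H := lt_trichotomy ω.re 0
    · exact ⟨-ω, by simpa using H, fun z => by
        simp only [← k z, mem_Lat]
        constructor <;> exact fun ⟨m, n, e⟩ => ⟨-m, n, by simpa using e⟩⟩
    · refine (one_ne_zero (i 1 (-(ω.im / π)) ?_).1).elim
      rw [a, ← re_add_im ω, H]
      simp
      field_simp
      ring
    · exact ⟨ω, H, k⟩
  have h1 := h.scale μ0 (Λ' := Lat ω) e
  rw [im μ0 e] at hs ⊢
  obtain ⟨μ, m0, hμ⟩ := h1.anti hω fun z hz => hs _ ⟨z, hz, rfl⟩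
  obtain ⟨t, T, t0, hT, ω', H, e'⟩ := classify hω m0 fun z hz => by_contra fun H =>
    (hμ _ H).1 (by simpa using hz)
  have t1 := mul_ne_zero m0 (ofReal_ne_zero.2 t0)
  have h2 := h1.scale t1 (Λ' := Lat ω') e'
  have s (z) (hz : z ∉ Lat ω') := (hμ (t * z) (mul_assoc μ t z ▸ mt (e' z).2 hz)).2
  simp only [map_mul, conj_ofReal, ← mul_neg, ← mul_assoc μ] at s
  obtain rfl | rfl := H
  exacts [(no_rect hT h2 s).elim, ⟨T, hT, _, _, c₁, c₂, h2, im t1 e' _, s⟩]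

end Pool.Agent.MP_c434f6_gt

end
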